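import Pool.Agent.H84.TC.Defs

/-!
# Module CCl: countable weak*-compact sets (80 lines)

`toWeakDual` is linear and injective; images: `cc_add`: `toWeakDual '' {c | ∃ a ∈ A, ∃ b ∈ B, c = a + b}` is the image of `(toWeakDual '' A) ×ˢ (toWeakDual '' B)` under the continuous addition of `WeakDual ℝ X` (`IsCompact.prod`, `IsCompact.image`).
`cc_cut`: the sets `{N ≤ c}` (`S.N_closed`) and `{‖a‖ ≤ r}` (`WeakDual.isClosed_closedBall 0 r`) are weak*-closed: `IsCompact.inter_right` (`NS.N a = NS.N (toStrongDual (toWeakDual a))` by `rfl` or `simp`).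
`cc_null`: `A = {0} ∪ ⋃ n, B n`. Compactness by ultrafilters (`isCompact_iff_ultrafilter_le_nhds`): let `f ≤ 𝓟 (toWeakDual '' A)`. If `f` contains some `toWeakDual '' B n` or `{0}`, use its compactness. Otherwise `f ≤ 𝓝 0`: let `U ∈ 𝓝 0`; by `N_nhds` (for `r`) there is
`η > 0` with `‖t‖ ≤ r, N t ≤ η → toWeakDual t ∈ U`; for `n ≥ n₀` all elements of `B n` satisfy this (`ρ n ≤ η`), so `U` contains `toWeakDual '' A` minus the finitely many sets `toWeakDual '' B n`, `n < n₀` (and `{0}`), so `U ∈ f`.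
-/

set_option autoImplicit false

open Set Filter Topology

namespace Pool.Agent.H84.TC

variable {X : Type} [NormedAddCommGroup X] [NormedSpace ℝ X] {K : Type}

theorem cc_finite {A : Set (StrongDual ℝ X)} (h : A.Finite) : CC A := by
  obtain ⟨r, hr⟩ := h.isBounded.exists_norm_le
  exact ⟨h.countable, (h.image _).isCompact, r, hr⟩

theorem cc_union {A B : Set (StrongDual ℝ X)} (hA : CC A) (hB : CC B) : CC (A ∪ B) := by
  obtain ⟨a1, a2, r, a3⟩ := hA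
  obtain ⟨b1, b2, t, b3⟩ := hB
  refine ⟨a1.union b1, ?_, max r t, ?_⟩
  · rw [image_union]
    exact a2.union b2
  · rintro a (ha | ha)
    · exact (a3 a ha).trans (le_max_left _ _)
    · exact (b3 a ha).trans (le_max_right _ _)

theorem cc_add {A B : Set (StrongDual ℝ X)} (hA : CC A) (hB : CC B) :
    CC {c | ∃ a ∈ A, ∃ b ∈ B, c = a + b} := by
  obtain ⟨a1, a2, r, a3⟩ := hA
  obtain ⟨b1, b2, t, b3⟩ := hB
  refine ⟨?_, ?_, r + t, ?_⟩
  · have e : {c : StrongDual ℝ X | ∃ a ∈ A, ∃ b ∈ B, c = a + b} =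
        (fun p : StrongDual ℝ X × StrongDual ℝ X => p.1 + p.2) '' (A ×ˢ B) := by
      ext c
      constructor
      · rintro ⟨a, ha, b, hb, rfl⟩
        exact ⟨(a, b), ⟨ha, hb⟩, rfl⟩
      · rintro ⟨⟨a, b⟩, ⟨ha, hb⟩, rfl⟩
        exact ⟨a, ha, b, hb, rfl⟩
    rw [e]
    exact (a1.prod b1).image _
  · have e : StrongDual.toWeakDual '' {c : StrongDual ℝ X | ∃ a ∈ A, ∃ b ∈ B, c = a + b} =
        (fun p : WeakDual ℝ X × WeakDual ℝ X => p.1 + p.2) ''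
          ((StrongDual.toWeakDual '' A) ×ˢ (StrongDual.toWeakDual '' B)) := by
      ext c
      constructor
      · rintro ⟨_, ⟨a, ha, b, hb, rfl⟩, rfl⟩
        exact ⟨(StrongDual.toWeakDual a, StrongDual.toWeakDual b), ⟨⟨a, ha, rfl⟩, ⟨b, hb, rfl⟩⟩,
          (map_add StrongDual.toWeakDual a b).symm⟩
      · rintro ⟨⟨_, _⟩, ⟨⟨a, ha, rfl⟩, ⟨b, hb, rfl⟩⟩, rfl⟩
        exact ⟨a + b, ⟨a, ha, b, hb, rfl⟩, map_add StrongDual.toWeakDual a b⟩
    rw [e]
    exact (a2.prod b2).image continuous_add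
  · rintro c ⟨a, ha, b, hb, rfl⟩
    exact (norm_add_le a b).trans (add_le_add (a3 a ha) (b3 b hb))

theorem cc_cut_norm {A : Set (StrongDual ℝ X)} (hA : CC A) (r : ℝ) : CC {a | a ∈ A ∧ ‖a‖ ≤ r} := by
  obtain ⟨a1, a2, t, a3⟩ := hA
  refine ⟨a1.mono fun a ha => ha.1, ?_, t, fun a ha => a3 a ha.1⟩
  have e : StrongDual.toWeakDual '' {a : StrongDual ℝ X | a ∈ A ∧ ‖a‖ ≤ r} =
      (StrongDual.toWeakDual '' A) ∩
        (WeakDual.toStrongDual ⁻¹' Metric.closedBall (0 : StrongDual ℝ X) r) := by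
    ext c
    constructor
    · rintro ⟨a, ⟨ha, har⟩, rfl⟩
      refine ⟨⟨a, ha, rfl⟩, ?_⟩
      show a ∈ Metric.closedBall (0 : StrongDual ℝ X) r
      exact mem_closedBall_zero_iff.2 har
    · rintro ⟨⟨a, ha, rfl⟩, h⟩
      have h' : a ∈ Metric.closedBall (0 : StrongDual ℝ X) r := h
      exact ⟨a, ⟨ha, mem_closedBall_zero_iff.1 h'⟩, rfl⟩
  rw [e]
  exact a2.inter_right (WeakDual.isClosed_closedBall 0 r)

theorem cc_cut (NS : NSys X) {A : Set (StrongDual ℝ X)} (hA : CC A) (c r : ℝ) :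
    CC {a | a ∈ A ∧ NS.N a ≤ c ∧ ‖a‖ ≤ r} := by
  obtain ⟨a1, a2, t, a3⟩ := cc_cut_norm hA r
  have hs : {a : StrongDual ℝ X | a ∈ A ∧ NS.N a ≤ c ∧ ‖a‖ ≤ r} ⊆ {a | a ∈ A ∧ ‖a‖ ≤ r} :=
    fun a ha => ⟨ha.1, ha.2.2⟩
  refine ⟨a1.mono hs, ?_, t, fun a ha => a3 a (hs ha)⟩
  have e : StrongDual.toWeakDual '' {a : StrongDual ℝ X | a ∈ A ∧ NS.N a ≤ c ∧ ‖a‖ ≤ r} =
      (StrongDual.toWeakDual '' {a : StrongDual ℝ X | a ∈ A ∧ ‖a‖ ≤ r}) ∩
        {a : WeakDual ℝ X | NS.N (WeakDual.toStrongDual a) ≤ c} := by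
    ext x
    constructor
    · rintro ⟨a, ha, rfl⟩
      exact And.intro ⟨a, ⟨ha.1, ha.2.2⟩, rfl⟩ ha.2.1
    · rintro ⟨⟨a, ⟨ha, har⟩, rfl⟩, h⟩
      exact ⟨a, ⟨ha, h, har⟩, rfl⟩
  rw [e]
  exact a2.inter_right (NS.N_closed c)

theorem cc_null (NS : NSys X) {B : ℕ → Set (StrongDual ℝ X)} (hB : ∀ n, CC (B n)) {r : ℝ} {ρ : ℕ → ℝ}
    (hr : ∀ n, ∀ a ∈ B n, ‖a‖ ≤ r) (hN : ∀ n, ∀ a ∈ B n, NS.N a ≤ ρ n) (hρ : Tendsto ρ atTop (𝓝 0)) :
    CC ({0} ∪ ⋃ n, B n) := by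
  refine ⟨(countable_singleton _).union (countable_iUnion fun n => (hB n).1), ?_, max r 0, ?_⟩
  · rw [isCompact_iff_ultrafilter_le_nhds]
    intro f hf
    by_cases h : ∃ n, StrongDual.toWeakDual '' B n ∈ f
    · obtain ⟨n, hn⟩ := h
      obtain ⟨x, hx, hfx⟩ := (hB n).2.1.ultrafilter_le_nhds f (le_principal_iff.2 hn)
      refine ⟨x, ?_, hfx⟩
      exact image_mono (subset_union_of_subset_right (subset_iUnion B n) _) hx
    · refine ⟨0, ⟨0, Or.inl rfl, map_zero _⟩, ?_⟩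
      intro U hU
      obtain ⟨η, hη, hηU⟩ := NS.N_nhds r U hU
      obtain ⟨n0, hn0⟩ := eventually_atTop.1 (hρ.eventually_le_const hη)
      have hsub : StrongDual.toWeakDual '' ({0} ∪ ⋃ n, B n) ⊆
          U ∪ ⋃ n ∈ Set.Iio n0, StrongDual.toWeakDual '' B n := by
        rintro _ ⟨a, ha, rfl⟩
        rcases ha with ha | ha
        · rw [mem_singleton_iff.1 ha, map_zero]
          exact Or.inl (mem_of_mem_nhds hU)
        · obtain ⟨n, hn⟩ := mem_iUnion.1 ha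
          rcases lt_or_ge n n0 with h1 | h1
          · have h5 : StrongDual.toWeakDual a ∈ StrongDual.toWeakDual '' B n := ⟨a, hn, rfl⟩
            exact Or.inr (mem_biUnion (mem_Iio.2 h1) h5)
          · exact Or.inl (hηU a (hr n a hn) ((hN n a hn).trans (hn0 n h1)))
      have h2 : (U ∪ ⋃ n ∈ Set.Iio n0, StrongDual.toWeakDual '' B n) ∈ f :=
        f.sets_of_superset (le_principal_iff.1 hf) hsub
      rcases Ultrafilter.union_mem_iff.1 h2 with h3 | h3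
      · exact h3
      · exfalso
        rw [Ultrafilter.finite_biUnion_mem_iff (Set.finite_Iio n0)] at h3
        obtain ⟨n, _, h4⟩ := h3
        exact h ⟨n, h4⟩
  · rintro a (ha | ha)
    · rw [mem_singleton_iff.1 ha, norm_zero]
      exact le_max_right _ _
    · obtain ⟨n, hn⟩ := mem_iUnion.1 ha
      exact (hr n a hn).trans (le_max_left _ _)

end Pool.Agent.H84.TC
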