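import Mathlib

/-!
# Theorem C for complemented subspaces of `C(K)` (MP_6aa5e3_an, Q1): definitions

THEOREM C. `X` a real normed space, `J : X → C(K₀)`, `P : C(K₀) → X`, `P J = id`, `K₀` compact metrizable, and `T : X → C(L₀)`, `‖x‖ ≤ D ‖T x‖`, `L₀` countable compact, ANY `D`. Then for every `ε > 0` there are a countable compact `L` and `S : X → C(L)`
with `‖S x‖ ≤ ‖x‖ ≤ (‖J‖ ‖P‖ + ε) ‖S x‖`. COROLLARY: `c₀`-sums.

The main part is about a system `Sys`: a set `K` of functionals of norm `≤ 1` (`Φ`), a bilinear map `L` (`L t h` = the integral of `h` with respect to the measure `t ∘ P`, extended to ALL bounded functions `h : K → ℝ`, no measurability),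
a norm `N` on the dual which gives the weak* topology on bounded sets, and a seminorm `W` (Wasserstein) which dominates `L t` on Lipschitz functions. `d y z = N (Φ y - Φ z)`.

`Small E`: the differences of the relation `E` are, up to every `θ > 0`, in a countable weak*-compact set. `Ctrl E ε C t`: for `h : K → [-1,1]` with `|h y - h z| ≤ δ + w d y z` on `E`: `|L t h| ≤ ε + C δ + w (W t + ε)`.
`Good F`: for all `v`, `ε > 0` some small `E` and some `C` control all `f - v`, `f ∈ F`.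

PROOF. Points are good (Pt). The constant `C` can be reduced to `q ‖t‖ / 2` (sup-convolution over paths, Sup, Red), `E` can be restricted to `d ≤ ρ` (Red), so that good pieces of a set which converge to a point can be glued (Shell, Glue);
countable weak*-compact sets are good (Scat); the conclusion is in EndM. Construction of the system: NTop (the norm `N`), Ext (extension to all bounded functions), Mea (the measures), Tgt (tightness), Was (the seminorm `W`), Mk (assembly).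
`C(L₀)* = ℓ₁(L₀)`: Ell. `Main`, `SumC` (c₀-sums).
-/

set_option autoImplicit false

open Set Filter Topology

namespace Pool.Agent.H84.TC

variable {X : Type} [NormedAddCommGroup X] [NormedSpace ℝ X] {K : Type}

/-- countable, weak*-compact, norm bounded sets of functionals -/
def CC (A : Set (StrongDual ℝ X)) : Prop :=
  A.Countable ∧ IsCompact (StrongDual.toWeakDual '' A) ∧ ∃ r : ℝ, ∀ a ∈ A, ‖a‖ ≤ r

/-- bounded functions -/
def Bd (h : K → ℝ) : Prop := ∃ b : ℝ, ∀ y, |h y| ≤ b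

/-- a norm `N ≤ ‖·‖` on the dual which gives the weak* topology on bounded sets -/
structure NSys (X : Type) [NormedAddCommGroup X] [NormedSpace ℝ X] where
  N : StrongDual ℝ X → ℝ
  N_add : ∀ s t, N (s + t) ≤ N s + N t
  N_neg : ∀ t, N (-t) = N t
  N_eq : ∀ t, N t = 0 ↔ t = 0
  N_nonneg : ∀ t, 0 ≤ N t
  N_le : ∀ t, N t ≤ ‖t‖
  N_closed : ∀ c : ℝ, IsClosed {a : WeakDual ℝ X | N (WeakDual.toStrongDual a) ≤ c}
  N_nhds : ∀ (r : ℝ), ∀ U ∈ 𝓝 (0 : WeakDual ℝ X), ∃ η > 0, ∀ t, ‖t‖ ≤ r → N t ≤ η →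
    StrongDual.toWeakDual t ∈ U
  N_cont : ∀ (r η : ℝ), 0 < η → ∃ U ∈ 𝓝 (0 : WeakDual ℝ X), ∀ t, ‖t‖ ≤ r →
    StrongDual.toWeakDual t ∈ U → N t ≤ η

/-- the abstract system -/
structure Sys (X : Type) [NormedAddCommGroup X] [NormedSpace ℝ X] (K : Type) extends NSys X where
  /-- the points as functionals -/
  Φ : K → StrongDual ℝ X
  hΦ : ∀ y, ‖Φ y‖ ≤ 1
  /-- `L t h` = the integral of `h` with respect to the measure of `t` -/
  L : StrongDual ℝ X → (K → ℝ) → ℝ
  add_l : ∀ s t h, Bd h → L (s + t) h = L s h + L t h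
  smul_l : ∀ (c : ℝ) t h, Bd h → L (c • t) h = c * L t h
  add_r : ∀ t h g, Bd h → Bd g → L t (fun y => h y + g y) = L t h + L t g
  smul_r : ∀ (c : ℝ) t h, Bd h → L t (fun y => c * h y) = c * L t h
  one : ∀ t, L t (fun _ => 1) = 0
  /-- the norm of the projection -/
  q : ℝ
  hq : 0 ≤ q
  bd : ∀ t h b, 0 ≤ b → (∀ y, |h y| ≤ b) → |L t h| ≤ q * ‖t‖ * b
  ev : ∀ t x, L t (fun y => Φ y x) = t x
  tight : ∀ t, ∀ ε > 0, ∃ Y : Set K, TotallyBounded (Φ '' Y) ∧ ∀ h : K → ℝ, (∀ y, |h y| ≤ 2) →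
    ∀ η, 0 ≤ η → (∀ y ∈ Y, |h y| ≤ η) → |L t h| ≤ q * ‖t‖ * η + ε
  /-- the Wasserstein seminorm -/
  W : StrongDual ℝ X → ℝ
  W_nonneg : ∀ t, 0 ≤ W t
  W_add : ∀ s t, W (s + t) ≤ W s + W t
  W_neg : ∀ t, W (-t) = W t
  W_lip : ∀ (t) (f : K → ℝ) (w : ℝ), 0 ≤ w → (∀ y z, |f y - f z| ≤ w * N (Φ y - Φ z)) → |L t f| ≤ w * W t
  W_small : ∀ (r ω : ℝ), 0 < ω → ∃ η > 0, ∀ t, ‖t‖ ≤ r → N t ≤ η → W t ≤ ω

namespace Sys

variable (S : Sys X K)

/-- the distance -/
def d (y z : K) : ℝ := S.N (S.Φ y - S.Φ z)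

lemma d_nonneg (y z : K) : 0 ≤ S.d y z := S.N_nonneg _

lemma d_self (y : K) : S.d y y = 0 := by
  unfold d
  rw [sub_self, (S.N_eq 0).2 rfl]

lemma d_comm (y z : K) : S.d y z = S.d z y := by
  unfold d
  rw [← S.N_neg, neg_sub]

lemma d_tri (x y z : K) : S.d x z ≤ S.d x y + S.d y z := by
  unfold d
  have h := S.N_add (S.Φ x - S.Φ y) (S.Φ y - S.Φ z)
  rwa [sub_add_sub_cancel] at h

lemma N_sub (s t : StrongDual ℝ X) : S.N (s - t) ≤ S.N s + S.N t := by
  rw [sub_eq_add_neg]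
  have h := S.N_add s (-t)
  rwa [S.N_neg] at h

lemma W_sub (s t : StrongDual ℝ X) : S.W (s - t) ≤ S.W s + S.W t := by
  rw [sub_eq_add_neg]
  have h := S.W_add s (-t)
  rwa [S.W_neg] at h

lemma zero_l {h : K → ℝ} (hh : Bd h) : S.L 0 h = 0 := by
  have h1 := S.smul_l 0 0 h hh
  rwa [zero_smul, zero_mul] at h1

lemma sub_l {s t : StrongDual ℝ X} {h : K → ℝ} (hh : Bd h) : S.L (s - t) h = S.L s h - S.L t h := by
  have h1 := S.add_l (s - t) t h hh
  rw [sub_add_cancel] at h1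
  linarith

lemma sub_r {t : StrongDual ℝ X} {h g : K → ℝ} (hh : Bd h) (hg : Bd g) :
    S.L t (fun y => h y - g y) = S.L t h - S.L t g := by
  have h0 : Bd (fun y => h y - g y) := by
    obtain ⟨b, hb⟩ := hh
    obtain ⟨b', hb'⟩ := hg
    exact ⟨b + b', fun y => (abs_sub _ _).trans (add_le_add (hb y) (hb' y))⟩
  have h1 := S.add_r t _ g h0 hg
  simp only [sub_add_cancel] at h1
  linarith

/-- a constant function integrates to `0` -/
lemma cst (t : StrongDual ℝ X) (c : ℝ) : S.L t (fun _ => c) = 0 := by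
  have h1 := S.smul_r c t (fun _ => 1) ⟨1, fun _ => by simp⟩
  rw [S.one, mul_zero] at h1
  simpa using h1

/-- the bound with the oscillation: the constant is `q/2` -/
lemma osc {t : StrongDual ℝ X} {g : K → ℝ} {M : ℝ} (hM : 0 ≤ M) (h0 : ∀ y, 0 ≤ g y)
    (h1 : ∀ y, g y ≤ M) : |S.L t g| ≤ q S * ‖t‖ / 2 * M := by
  have hb : Bd g := ⟨M, fun y => abs_le.2 ⟨by linarith [h0 y, h1 y], h1 y⟩⟩
  have hc : Bd (fun _ : K => M / 2) := ⟨|M / 2|, fun _ => le_rfl⟩
  have h2 : S.L t (fun y => g y - M / 2) = S.L t g := by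
    rw [S.sub_r hb hc, S.cst, sub_zero]
  rw [← h2]
  refine (S.bd t _ (M / 2) (by linarith) fun y => abs_le.2 ⟨by linarith [h0 y], by linarith [h1 y]⟩).trans
    (le_of_eq ?_)
  ring

end Sys

/-- relations whose differences are, up to every `θ`, in a countable weak*-compact set -/
def Small (S : Sys X K) (E : K → K → Prop) : Prop :=
  (∀ y z, E y z → E z y) ∧ ∀ θ > 0, ∃ A : Set (StrongDual ℝ X), CC A ∧
    ∀ y z, E y z → ∃ a ∈ A, ‖S.Φ y - S.Φ z - a‖ ≤ θ

/-- `E` controls `t` with the error `ε` and the constant `C` -/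
def Ctrl (S : Sys X K) (E : K → K → Prop) (ε C : ℝ) (t : StrongDual ℝ X) : Prop :=
  ∀ h : K → ℝ, (∀ y, |h y| ≤ 1) → ∀ δ w : ℝ, 0 ≤ δ → 0 ≤ w →
    (∀ y z, E y z → |h y - h z| ≤ δ + w * S.d y z) → |S.L t h| ≤ ε + C * δ + w * (S.W t + ε)

/-- good sets of functionals -/
def Good (S : Sys X K) (F : Set (StrongDual ℝ X)) : Prop :=
  ∀ v : StrongDual ℝ X, ∀ ε > 0, ∃ E, Small S E ∧ ∃ C : ℝ, 0 ≤ C ∧ ∀ f ∈ F, Ctrl S E ε C (f - v)

/-- paths of a relation, with their length and their total cost -/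
inductive Path (S : Sys X K) (E : K → K → Prop) : ℕ → K → K → ℝ → Prop
  | nil (y : K) : Path S E 0 y y 0
  | cons {y x z : K} {k : ℕ} {s : ℝ} (h : E y x) (hp : Path S E k x z s) :
      Path S E (k + 1) y z (S.d y x + s)

/-- the relation: connected by a path of length at most `J` -/
def Pow (S : Sys X K) (E : K → K → Prop) (J : ℕ) (y z : K) : Prop :=
  ∃ k ≤ J, ∃ s, Path S E k y z s

lemma Path.cost {S : Sys X K} {E : K → K → Prop} {k : ℕ} {y z : K} {s : ℝ} (h : Path S E k y z s) :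
    S.d y z ≤ s := by
  induction h with
  | nil y => exact (S.d_self y).le
  | cons h hp ih => exact (S.d_tri _ _ _).trans (add_le_add le_rfl ih)

/-- every functional of norm `≤ 1` is an absolutely convergent combination of elements of `A` with total mass `≤ D` -/
def Rep (A : Set (StrongDual ℝ X)) (D : ℝ) : Prop :=
  ∀ t : StrongDual ℝ X, ‖t‖ ≤ 1 → ∃ (ι : Type) (m : ι → ℝ) (a : ι → StrongDual ℝ X),
    (∀ i, a i ∈ A) ∧ Summable (fun i => |m i|) ∧ ∑' i, |m i| ≤ D ∧ HasSum (fun i => m i • a i) t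

lemma Ctrl.mono {S : Sys X K} {E E' : K → K → Prop} {ε ε' C C' : ℝ} {t : StrongDual ℝ X}
    (h : Ctrl S E ε C t) (hE : ∀ y z, E y z → E' y z) (hε : ε ≤ ε') (hC : C ≤ C') :
    Ctrl S E' ε' C' t := by
  intro g hg δ w hδ hw hh
  have h1 := h g hg δ w hδ hw fun y z hyz => hh y z (hE y z hyz)
  have h2 : C * δ ≤ C' * δ := mul_le_mul_of_nonneg_right hC hδ
  have h3 : w * (S.W t + ε) ≤ w * (S.W t + ε') := mul_le_mul_of_nonneg_left (by linarith) hw
  linarith

lemma Good.mono {S : Sys X K} {F G : Set (StrongDual ℝ X)} (h : Good S F) (hG : G ⊆ F) : Good S G := by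
  intro v ε hε
  obtain ⟨E, h1, C, h2, h3⟩ := h v ε hε
  exact ⟨E, h1, C, h2, fun f hf => h3 f (hG hf)⟩

end Pool.Agent.H84.TC
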