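import Pool.Agent.H84.TC.Defs
import Pool.Agent.H87.CS.Rie

/-!
# Module Ell: functionals on `C(L₀)`, `L₀` countable compact (130 lines)

PROOF of `rep_of_emb`. `a l` = the functional `x ↦ T x l`, `A = range a`: countable, norm `≤ ‖T‖`, weak*-compact (the image of the compact `L₀` under the continuous map `l ↦ toWeakDual (a l)`). Let `‖t‖ ≤ 1`. `t` defines on the range of `T` (`T` is injective) the functional `T x ↦ t x`, of norm `≤ D`; Hahn-Banach
(`Real.exists_extension_norm_eq` on the submodule `LinearMap.range T`) gives `μ : C(L₀, ℝ) →L[ℝ] ℝ`, `‖μ‖ ≤ D`, `μ (T x) = t x`. `signed_riesz` (Borel structure on `L₀`): `μ₁`, `μ₂` finite. `L₀` countable, points closed: `∫ f dμ_i = ∑' l, f l * μ_i.real {l}` (`integral_countable'`). `m l = μ₁.real {l} - μ₂.real {l}`, summable,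
`μ f = ∑' l, m l * f l`. `∑ l ∈ F, |m l| ≤ D` for finite `F`: for `ε > 0` take a finite `G ⊇ F` with `∑_{l ∉ G} |m l| ≤ ε` and a continuous `f`, `|f| ≤ 1`, `f = sign (m l)` on `F`, `f = 0` on `G \ F` (Tietze on the finite discrete closed set `G`: `ContinuousMap.exists_restrict_eq_forall_mem_of_closed` or
`BoundedContinuousFunction.exists_norm_eq_restrict_eq`; `L₀` is compact Hausdorff, so normal): `∑ l ∈ F, |m l| ≤ |μ f| + ε ≤ D + ε`. So `∑' |m l| ≤ D` and `t = ∑ m l • a l` in norm (`HasSum`: the series is summable in norm since `‖a l‖ ≤ ‖T‖`, its sum agrees with `t` at every `x`: `t x = μ (T x) = ∑' m l * T x l`).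
PROOF of `sep_of_rep`. The closed linear span of the countable set `A` is everything (`Rep`: every `t` of norm `≤ 1` is a limit of finite sums, scale), and the span of a countable set is separable (`IsSeparable.span`, `IsSeparable.closure`).
-/

set_option autoImplicit false

open Set Filter Topology MeasureTheory

namespace Pool.Agent.H84.TC

variable {X : Type} [NormedAddCommGroup X] [NormedSpace ℝ X]

private theorem ell_sum {L₀ : Type} [MeasurableSpace L₀] [MeasurableSingletonClass L₀] [Countable L₀]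
    (μ : Measure L₀) [IsFiniteMeasure μ] : Summable fun l => μ.real {l} := by
  have h1 : ∑' l, μ {l} ≠ ⊤ := by
    have h2 := lintegral_countable' (μ := μ) (fun _ : L₀ => (1 : ENNReal))
    rw [lintegral_one] at h2
    simp only [one_mul] at h2
    rw [← h2]
    exact measure_ne_top μ _
  exact ENNReal.summable_toReal h1

/-- a functional on `C(L₀)` is an absolutely convergent sum of point evaluations -/
private theorem ell_rep0 {L₀ : Type} [TopologicalSpace L₀] [CompactSpace L₀] [T2Space L₀]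
    [Countable L₀] (μ : C(L₀, ℝ) →L[ℝ] ℝ) :
    ∃ m : L₀ → ℝ, Summable (fun l => |m l|) ∧
      ∀ f : C(L₀, ℝ), HasSum (fun l => m l * f l) (μ f) := by
  let _ : MeasurableSpace L₀ := borel L₀
  have _ : BorelSpace L₀ := ⟨rfl⟩
  obtain ⟨μ₁, μ₂, i1, i2, hm⟩ := Pool.Agent.H87.CS.signed_riesz μ
  have s1 := ell_sum μ₁
  have s2 := ell_sum μ₂
  have hbd : ∀ (f : C(L₀, ℝ)) (ν : Measure L₀) [IsFiniteMeasure ν],
      HasSum (fun l => ν.real {l} * f l) (∫ x, f x ∂ν) := by
    intro f ν hν
    have hint : Integrable (fun x => f x) ν := by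
      refine Integrable.of_bound f.continuous.aestronglyMeasurable ‖f‖ ?_
      exact Eventually.of_forall fun x => f.norm_coe_le_norm x
    have h1 := integral_countable hint
    have h2 : Summable fun l => ν.real {l} * f l := by
      refine Summable.of_norm_bounded ((ell_sum ν).mul_right ‖f‖) fun l => ?_
      rw [norm_mul, Real.norm_eq_abs, abs_of_nonneg measureReal_nonneg]
      exact mul_le_mul_of_nonneg_left (f.norm_coe_le_norm l) measureReal_nonneg
    have h3 := h2.hasSum
    rw [h1]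
    exact h3
  refine ⟨fun l => μ₁.real {l} - μ₂.real {l}, ?_, fun f => ?_⟩
  · refine Summable.of_nonneg_of_le (fun l => abs_nonneg _) (fun l => ?_) (s1.add s2)
    have a1 : 0 ≤ μ₁.real {l} := measureReal_nonneg
    have a2 : 0 ≤ μ₂.real {l} := measureReal_nonneg
    exact abs_le.2 ⟨by linarith, by linarith⟩
  · have h1 := (hbd f μ₁).sub (hbd f μ₂)
    rw [← hm f] at h1
    have e : (fun l => (μ₁.real {l} - μ₂.real {l}) * f l) =
        fun l => μ₁.real {l} * f l - μ₂.real {l} * f l := by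
      funext l
      ring
    rw [e]
    exact h1

/-- the same with the norm -/
private theorem ell_rep {L₀ : Type} [TopologicalSpace L₀] [CompactSpace L₀] [T2Space L₀] [Countable L₀]
    (μ : C(L₀, ℝ) →L[ℝ] ℝ) {D : ℝ} (hD : 0 ≤ D) (hμ : ‖μ‖ ≤ D) :
    ∃ m : L₀ → ℝ, Summable (fun l => |m l|) ∧ ∑' l, |m l| ≤ D ∧
      ∀ f : C(L₀, ℝ), HasSum (fun l => m l * f l) (μ f) := by
  classical
  obtain ⟨m, hs, hf⟩ := ell_rep0 μ
  refine ⟨m, hs, ?_, hf⟩
  refine le_of_forall_pos_le_add fun ε hε => ?_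
  have hhs := hs.hasSum
  have hev : ∀ᶠ G : Finset L₀ in atTop, ∑' l, |m l| - ε / 2 < ∑ l ∈ G, |m l| :=
    hhs.eventually (lt_mem_nhds (by linarith))
  obtain ⟨G, hG⟩ := hev.exists
  -- the test function
  have hGc : IsClosed (G : Set L₀) := G.finite_toSet.isClosed
  have hdis : DiscreteTopology (G : Set L₀) := G.finite_toSet.instDiscreteTopology
  obtain ⟨g, hg1, hg2⟩ := ContinuousMap.exists_restrict_eq_forall_mem_of_closed
    (s := (G : Set L₀)) (⟨fun l => (SignType.sign (m l) : ℝ), continuous_of_discreteTopology⟩)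
    (t := Icc (-1 : ℝ) 1) (fun l => by
      rcases lt_trichotomy (m l) 0 with h | h | h
      · simp [sign_neg h]
      · simp [h]
      · simp [sign_pos h]) ⟨0, by norm_num⟩ hGc
  have hgG : ∀ l ∈ G, g l = (SignType.sign (m l) : ℝ) := by
    intro l hl
    have := DFunLike.congr_fun hg2 ⟨l, hl⟩
    exact this
  have hgn : ‖g‖ ≤ 1 := by
    rw [ContinuousMap.norm_le _ zero_le_one]
    intro l
    rw [Real.norm_eq_abs, abs_le]
    exact ⟨(hg1 l).1, (hg1 l).2⟩
  have hμg : μ g ≤ D := by
    calc μ g ≤ ‖μ g‖ := le_abs_self _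
      _ ≤ ‖μ‖ * ‖g‖ := μ.le_opNorm g
      _ ≤ D * 1 := mul_le_mul hμ hgn (norm_nonneg _) hD
      _ = D := mul_one D
  -- compare
  have h1 : HasSum (fun l => if l ∈ G then |m l| else 0) (∑ l ∈ G, |m l|) := by
    have h2 : HasSum (fun l => if l ∈ G then |m l| else 0)
        (∑ l ∈ G, (if l ∈ G then |m l| else 0)) :=
      hasSum_sum_of_ne_finset_zero (fun l hl => by simp [hl])
    have e : ∑ l ∈ G, (if l ∈ G then |m l| else 0) = ∑ l ∈ G, |m l| :=
      Finset.sum_congr rfl fun l hl => by simp [hl]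
    rw [e] at h2
    exact h2
  have h3 : HasSum (fun l => |m l| - m l * g l) (∑' l, |m l| - μ g) := hhs.sub (hf g)
  have h4 : HasSum (fun l => 2 * (|m l| - if l ∈ G then |m l| else 0))
      (2 * (∑' l, |m l| - ∑ l ∈ G, |m l|)) := (hhs.sub h1).mul_left 2
  have h5 : ∑' l, |m l| - μ g ≤ 2 * (∑' l, |m l| - ∑ l ∈ G, |m l|) := by
    refine hasSum_le (fun l => ?_) h3 h4
    by_cases hl : l ∈ G
    · simp only [hl, if_true, sub_self, mul_zero]
      rw [hgG l hl, ← sign_mul_self, mul_comm (m l)]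
      exact (sub_self _).le
    · simp only [hl, if_false, sub_zero]
      have h6 : |m l * g l| ≤ |m l| := by
        rw [abs_mul]
        exact mul_le_of_le_one_right (abs_nonneg _) (abs_le.2 ⟨(hg1 l).1, (hg1 l).2⟩)
      have h7 := neg_abs_le (m l * g l)
      linarith
  linarith

theorem rep_of_emb {L₀ : Type} [TopologicalSpace L₀] [CompactSpace L₀] [T2Space L₀] [Countable L₀]
    (T : X →L[ℝ] C(L₀, ℝ)) {D : ℝ} (hD : 0 ≤ D) (hT : ∀ x, ‖x‖ ≤ D * ‖T x‖) :
    ∃ A : Set (StrongDual ℝ X), CC A ∧ Rep A D := by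
  let a : L₀ → StrongDual ℝ X := fun l => (ContinuousMap.evalCLM ℝ l).comp T
  have ha : ∀ l x, a l x = T x l := fun l x => rfl
  have han : ∀ l, ‖a l‖ ≤ ‖T‖ := by
    intro l
    refine ContinuousLinearMap.opNorm_le_bound _ (norm_nonneg T) fun x => ?_
    rw [ha]
    exact ((T x).norm_coe_le_norm l).trans (T.le_opNorm x)
  refine ⟨range a, ⟨countable_range a, ?_, ‖T‖, ?_⟩, ?_⟩
  · rw [← range_comp]
    refine isCompact_range ?_
    refine WeakDual.continuous_of_continuous_eval fun x => ?_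
    exact (T x).continuous
  · rintro _ ⟨l, rfl⟩
    exact han l
  · intro t ht
    have hinj : Function.Injective T := by
      rw [injective_iff_map_eq_zero]
      intro x hx
      have h1 := hT x
      rw [hx, norm_zero, mul_zero] at h1
      exact norm_le_zero_iff.1 h1
    let e : X ≃ₗ[ℝ] LinearMap.range (T : X →ₗ[ℝ] C(L₀, ℝ)) := LinearEquiv.ofInjective _ hinj
    have he : ∀ x, ((e x : LinearMap.range (T : X →ₗ[ℝ] C(L₀, ℝ))) : C(L₀, ℝ)) = T x := fun x => rfl
    let f0 : LinearMap.range (T : X →ₗ[ℝ] C(L₀, ℝ)) →ₗ[ℝ] ℝ := (t : X →ₗ[ℝ] ℝ).comp e.symm.toLinearMap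
    have hf0 : ∀ y, ‖f0 y‖ ≤ D * ‖y‖ := by
      intro y
      have h1 : f0 y = t (e.symm y) := rfl
      have h2 : ‖y‖ = ‖T (e.symm y)‖ := by
        rw [← he, LinearEquiv.apply_symm_apply]
        rfl
      rw [h1, h2]
      calc ‖t (e.symm y)‖ ≤ ‖t‖ * ‖e.symm y‖ := t.le_opNorm _
        _ ≤ 1 * ‖e.symm y‖ := mul_le_mul_of_nonneg_right ht (norm_nonneg _)
        _ = ‖e.symm y‖ := one_mul _
        _ ≤ D * ‖T (e.symm y)‖ := hT _
    obtain ⟨μ, hμ1, hμ2⟩ := exists_extension_norm_eq _ (f0.mkContinuous D hf0)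
    have hμn : ‖μ‖ ≤ D := by
      rw [hμ2]
      exact LinearMap.mkContinuous_norm_le _ hD _
    have hμT : ∀ x, μ (T x) = t x := by
      intro x
      have h1 := hμ1 (e x)
      rw [he] at h1
      rw [h1]
      change f0 (e x) = t x
      change t (e.symm (e x)) = t x
      rw [LinearEquiv.symm_apply_apply]
    obtain ⟨m, hs, hle, hf⟩ := ell_rep μ hD hμn
    refine ⟨L₀, m, a, fun l => mem_range_self l, hs, hle, ?_⟩
    have hsum : Summable fun l => m l • a l := by
      refine Summable.of_norm_bounded (hs.mul_right ‖T‖) fun l => ?_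
      rw [norm_smul, Real.norm_eq_abs]
      exact mul_le_mul_of_nonneg_left (han l) (abs_nonneg _)
    have hh := hsum.hasSum
    have heq : ∑' l, m l • a l = t := by
      ext x
      have h1 := ((ContinuousLinearMap.apply ℝ ℝ x).hasSum hh)
      have h2 : HasSum (fun l => m l * T x l) (t x) := by
        rw [← hμT x]
        exact hf (T x)
      exact h1.unique h2
    rw [heq] at hh
    exact hh

theorem sep_of_rep {A : Set (StrongDual ℝ X)} {D : ℝ} (hA : A.Countable) (hR : Rep A D) :
    TopologicalSpace.SeparableSpace (StrongDual ℝ X) := by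
  have h1 : TopologicalSpace.IsSeparable (closure (Submodule.span ℝ A : Set (StrongDual ℝ X))) :=
    hA.isSeparable.span.closure
  rw [← TopologicalSpace.isSeparable_univ_iff]
  refine h1.mono fun t _ => ?_
  have key : ∀ s : StrongDual ℝ X, ‖s‖ ≤ 1 → s ∈ (Submodule.span ℝ A).topologicalClosure := by
    intro s hs
    obtain ⟨ι, m, a, ha, -, -, hsum⟩ := hR s hs
    refine mem_closure_of_tendsto hsum (Eventually.of_forall fun G => ?_)
    exact Submodule.sum_mem _ fun i _ => Submodule.smul_mem _ _ (Submodule.subset_span (ha i))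
  change t ∈ (Submodule.span ℝ A).topologicalClosure
  rcases eq_or_ne t 0 with h | h
  · rw [h]
    exact Submodule.zero_mem _
  · have hn : ‖t‖ ≠ 0 := norm_ne_zero_iff.2 h
    have h2 := key (‖t‖⁻¹ • t) (by
      rw [norm_smul, norm_inv, norm_norm, inv_mul_cancel₀ hn])
    have h3 := Submodule.smul_mem _ ‖t‖ h2
    rwa [smul_smul, mul_inv_cancel₀ hn, one_smul] at h3

end Pool.Agent.H84.TC
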