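import Pool.Agent.H84.TC.Scat

/-!
# Module EndM: the norming set (130 lines)

PROOF. `ε₁ = θ/(4(D+1))`. `scat` for `A`, `v = 0`, `ε₁`: `E` small, `C`, `Ctrl S E ε₁ C a` for `a ∈ A` (`a - 0 = a`). `c = ε₁/(C+1)`, `J c ≥ 2`. `small_pow` with `θ`: the set `A₁`; `A' = {a ∈ A₁ | ‖a‖ ≤ 2 + θ}` (`cc_cut_norm`): every `Φ y - Φ z`, `Pow S E J y z`, is within `θ` of an element of `A'`
(`‖Φ y - Φ z‖ ≤ 2`). Let `x ≠ 0`, `u = x/‖x‖`, `g y = Φ y u` (`|g| ≤ 1`), `M' = M/‖x‖ + θ`: on `Pow S E J`: `g z - g y ≤ M'`. `sup_conv` with `w = 0`, `M'`: `H`, `|H y - H z| ≤ c` on `E`. Let `‖t‖ ≤ 1`. (a) `|L a H| ≤ ε₁ + C c ≤ 2 ε₁` for `a ∈ A`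
(`Ctrl` with `δ = c`, `w = 0`). (b) `t = ∑ m i • a i` (`Rep`): `L · H` is a continuous linear functional on the dual (`LinearMap.mkContinuous`, `add_l`, `smul_l`, `bd`), so `L t H = ∑ m i * L (a i) H`, `|L t H| ≤ D * 2 ε₁ ≤ θ/2`. (c) `|L t (H - g)| ≤ q ‖t‖/2 * M'` (`osc`).
(d) `t u = L t g = L t H - L t (H - g)` (`ev`, `sub_r`): `|t u| ≤ θ/2 + q/2 * M'`. By Hahn-Banach (`exists_dual_vector`: `‖t‖ = 1`, `t u = ‖u‖ = 1`) `1 ≤ θ/2 + q/2 (M/‖x‖ + θ)`; multiply by `‖x‖`.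
-/

set_option autoImplicit false

open Set Filter Topology

namespace Pool.Agent.H84.TC

variable {X : Type} [NormedAddCommGroup X] [NormedSpace ℝ X] {K : Type}

theorem end_main (S : Sys X K) {A : Set (StrongDual ℝ X)} (hA : CC A) {D : ℝ} (hD : 0 ≤ D) (hR : Rep A D)
    {θ : ℝ} (hθ : 0 < θ) :
    ∃ A' : Set (StrongDual ℝ X), CC A' ∧ (∀ a ∈ A', ‖a‖ ≤ 2 + θ) ∧
      ∀ (x : X) (M : ℝ), 0 ≤ M → (∀ a ∈ A', |a x| ≤ M) → (1 - θ) * ‖x‖ ≤ S.q / 2 * (M + θ * ‖x‖) := by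
  have hε₁ : 0 < θ / (4 * (D + 1)) := by positivity
  obtain ⟨ε₁, hε₁0, hε₁1⟩ : ∃ ε₁ : ℝ, 0 < ε₁ ∧ D * (2 * ε₁) ≤ θ / 2 := by
    refine ⟨θ / (4 * (D + 1)), hε₁, ?_⟩
    have e : D * (2 * (θ / (4 * (D + 1)))) = θ / 2 * (D / (D + 1)) := by
      field_simp
      ring
    rw [e]
    have h : D / (D + 1) ≤ 1 := by
      rw [div_le_one (by linarith)]
      linarith
    calc θ / 2 * (D / (D + 1)) ≤ θ / 2 * 1 := mul_le_mul_of_nonneg_left h (by positivity)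
      _ = θ / 2 := mul_one _
  obtain ⟨E, hE, C, hC, hctrl⟩ := scat S hA 0 ε₁ hε₁0
  obtain ⟨c, hc0, hc1⟩ : ∃ c : ℝ, 0 < c ∧ C * c ≤ ε₁ := by
    refine ⟨ε₁ / (C + 1), by positivity, ?_⟩
    rw [mul_div_assoc', div_le_iff₀ (by linarith)]
    nlinarith
  obtain ⟨J, hJ⟩ : ∃ J : ℕ, 2 ≤ J * c := by
    obtain ⟨J, hJ⟩ := exists_nat_ge (2 / c)
    exact ⟨J, (div_le_iff₀ hc0).1 hJ⟩
  obtain ⟨A₁, hA₁, h₁⟩ := (small_pow hE J).2 θ hθ
  refine ⟨{a | a ∈ A₁ ∧ ‖a‖ ≤ 2 + θ}, cc_cut_norm hA₁ (2 + θ), fun a ha => ha.2, ?_⟩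
  intro x M hM hx
  have hq := S.hq
  rcases eq_or_ne x 0 with rfl | hx0
  · rw [norm_zero, mul_zero, mul_zero, add_zero]
    positivity
  have hn : 0 < ‖x‖ := norm_pos_iff.2 hx0
  obtain ⟨u, hu⟩ : ∃ u : X, u = ‖x‖⁻¹ • x := ⟨_, rfl⟩
  have hu1 : ‖u‖ = 1 := by
    rw [hu, norm_smul, norm_inv, norm_norm, inv_mul_cancel₀ hn.ne']
  have hg : ∀ y, |S.Φ y u| ≤ 1 := by
    intro y
    have h := (S.Φ y).le_opNorm u
    rw [hu1, mul_one, Real.norm_eq_abs] at h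
    exact h.trans (S.hΦ y)
  have hM' : 0 ≤ M / ‖x‖ + θ := by positivity
  have hp : ∀ y z, Pow S E J y z → S.Φ z u ≤ S.Φ y u + (M / ‖x‖ + θ) + 0 * S.d y z := by
    intro y z hyz
    obtain ⟨a, ha, hau⟩ := h₁ y z hyz
    have h2 : ‖a‖ ≤ 2 + θ := by
      have e : a = (S.Φ y - S.Φ z) - (S.Φ y - S.Φ z - a) := by abel
      have h3 := norm_sub_le (S.Φ y - S.Φ z) (S.Φ y - S.Φ z - a)
      rw [← e] at h3
      have h4 := norm_sub_le (S.Φ y) (S.Φ z)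
      have h5 := S.hΦ y
      have h6 := S.hΦ z
      linarith
    have h3 := hx a ⟨ha, h2⟩
    have h4 : |a u| ≤ M / ‖x‖ := by
      rw [hu, map_smul, smul_eq_mul, abs_mul, abs_of_pos (inv_pos.2 hn), div_eq_inv_mul]
      exact mul_le_mul_of_nonneg_left h3 (inv_pos.2 hn).le
    have h5 : |(S.Φ y - S.Φ z - a) u| ≤ θ := by
      have h := (S.Φ y - S.Φ z - a).le_opNorm u
      rw [hu1, mul_one, Real.norm_eq_abs] at h
      exact h.trans hau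
    have h6 : (S.Φ y - S.Φ z - a) u = S.Φ y u - S.Φ z u - a u := by
      rw [sub_apply, sub_apply]
    rw [h6] at h5
    have h7 := (abs_le.1 h4).1
    have h8 := (abs_le.1 h5).1
    linarith
  obtain ⟨H, hH1, hH2, hH3, hH4⟩ := sup_conv S hE.1 hg hc0 (le_refl 0) hM' hJ hp
  have hbH : Bd H := ⟨1, hH1⟩
  have hbg : Bd (fun y => S.Φ y u) := ⟨1, hg⟩
  have ha2 : ∀ a ∈ A, |S.L a H| ≤ 2 * ε₁ := by
    intro a ha
    have h := hctrl a ha H hH1 c 0 hc0.le (le_refl 0) hH4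
    rw [sub_zero] at h
    linarith
  obtain ⟨ℓ, hℓ⟩ : ∃ ℓ : StrongDual ℝ X →L[ℝ] ℝ, ∀ t, ℓ t = S.L t H := by
    refine ⟨LinearMap.mkContinuous
      { toFun := fun t => S.L t H
        map_add' := fun s t => S.add_l s t H hbH
        map_smul' := fun c t => S.smul_l c t H hbH } S.q (fun t => ?_), fun t => rfl⟩
    have h := S.bd t H 1 zero_le_one hH1
    rw [mul_one] at h
    exact h
  have hu0 : ‖u‖ ≠ 0 := by
    rw [hu1]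
    exact one_ne_zero
  obtain ⟨t, ht1, htu⟩ := exists_dual_vector ℝ u hu0
  have hb : |S.L t H| ≤ θ / 2 := by
    obtain ⟨ι, m, a, ha, hs, hle, hsum⟩ := hR t ht1.le
    have h1 := ℓ.hasSum hsum
    have h2 : HasSum (fun i => |m i| * (2 * ε₁)) ((∑' i, |m i|) * (2 * ε₁)) :=
      hs.hasSum.mul_right _
    have h3 : ‖ℓ t‖ ≤ (∑' i, |m i|) * (2 * ε₁) := by
      refine h1.norm_le_of_bounded h2 fun i => ?_
      rw [map_smul, smul_eq_mul, norm_mul, Real.norm_eq_abs, Real.norm_eq_abs, hℓ]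
      exact mul_le_mul_of_nonneg_left (ha2 _ (ha i)) (abs_nonneg _)
    rw [hℓ, Real.norm_eq_abs] at h3
    have h4 : (∑' i, |m i|) * (2 * ε₁) ≤ D * (2 * ε₁) :=
      mul_le_mul_of_nonneg_right hle (by linarith)
    linarith
  have hc2 := S.osc (t := t) (g := fun y => H y - S.Φ y u) hM'
    (fun y => sub_nonneg.2 (hH2 y)) (fun y => by linarith [hH3 y])
  rw [S.sub_r hbH hbg, S.ev, ht1, htu, hu1] at hc2
  have h9 := (abs_le.1 hb).2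
  have h10 := (abs_le.1 hc2).1
  have h11 : 1 ≤ θ / 2 + S.q * 1 / 2 * (M / ‖x‖ + θ) := by
    norm_num at h10 ⊢
    linarith
  have h12 := mul_le_mul_of_nonneg_right h11 hn.le
  have h13 : (θ / 2 + S.q * 1 / 2 * (M / ‖x‖ + θ)) * ‖x‖ =
      θ / 2 * ‖x‖ + S.q / 2 * (M + θ * ‖x‖) := by
    field_simp
  rw [h13] at h12
  have h14 : 0 < θ * ‖x‖ := by positivity
  linarith

end Pool.Agent.H84.TC
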