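import Mathlib

/-!
# Module Ext: extension of integrals to all bounded functions (110 lines)

`ext_ultra`. PROOF. `I = Finset {s : Set K₀ // MeasurableSet s}`, `U = Ultrafilter.of atTop`. For `i ∈ I` the signature of `y` is the function `σ y : i → Prop`, `σ y s = (y ∈ s)`; `r i y = Classical.choose (⟨y, rfl⟩ : ∃ y', σ y' = σ y)`, a function of `σ y`. So `h ∘ r i` factors through the measurable map
`σ` into the finite discrete space `i → Prop` (every subset of it is measurable: preimages of points are finite intersections of the sets `s` or their complements), hence is measurable. For `s` measurable and `i ∋ s`: `σ (r i y) = σ y` gives `r i y ∈ s ↔ y ∈ s`; `{i | s ∈ i} ∈ atTop`.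
`ulim`: a bounded `a : I → ℝ` has `U.map a ≤ 𝓝 l` for some `l ∈ Icc (-b) b` (`isCompact_Icc.ultrafilter_le_nhds`); `ulim U a = limUnder U a`, `Tendsto.limUnder_eq`. The other statements: uniqueness of limits, `le_of_tendsto`.
`unif`: `h` measurable, `|h| ≤ b`, `ε > 0`: finitely many measurable sets `h⁻¹' Ico (kε) ((k+1)ε)`, `|k| ≤ b/ε + 1`, cover `K₀`; for eventually all `i` the point `r i y` is in the same sets as `y` (`Filter.eventually_all_finite`), so `|h (r i y) - h y| ≤ ε`.
-/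

set_option autoImplicit false

open Set Filter Topology

namespace Pool.Agent.H84.TC

/-- the signature of a point -/
private def Ext_sig {K₀ : Type} [MeasurableSpace K₀] (i : Finset {s : Set K₀ // MeasurableSet s})
    (y : K₀) : {x // x ∈ i} → Prop := fun s => y ∈ (s.1 : Set K₀)

open Classical in
/-- a point with a given signature -/
private noncomputable def Ext_pt {K₀ : Type} [MeasurableSpace K₀] [Nonempty K₀]
    (i : Finset {s : Set K₀ // MeasurableSet s}) (τ : {x // x ∈ i} → Prop) : K₀ :=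
  if h : ∃ y, Ext_sig i y = τ then Classical.choose h else Classical.arbitrary K₀

private theorem Ext_pt_sig {K₀ : Type} [MeasurableSpace K₀] [Nonempty K₀]
    (i : Finset {s : Set K₀ // MeasurableSet s}) (y : K₀) :
    Ext_sig i (Ext_pt i (Ext_sig i y)) = Ext_sig i y := by
  unfold Ext_pt
  rw [dif_pos ⟨y, rfl⟩]
  exact Classical.choose_spec (⟨y, rfl⟩ : ∃ y', Ext_sig i y' = Ext_sig i y)

theorem ext_ultra (K₀ : Type) [MeasurableSpace K₀] :
    ∃ (I : Type) (U : Ultrafilter I) (r : I → K₀ → K₀),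
      (∀ (i : I) (h : K₀ → ℝ), Measurable fun y => h (r i y)) ∧
      ∀ s : Set K₀, MeasurableSet s → ∀ᶠ i in (U : Filter I), ∀ y, (r i y ∈ s ↔ y ∈ s) := by
  classical
  rcases isEmpty_or_nonempty K₀ with hK | hK
  · exact ⟨Unit, pure (), fun _ y => y, fun _ h => measurable_of_empty _,
      fun s _ => Filter.Eventually.of_forall fun _ y => Iff.rfl⟩
  · refine ⟨Finset {s : Set K₀ // MeasurableSet s}, Ultrafilter.of atTop,
      fun i y => Ext_pt i (Ext_sig i y), ?_, ?_⟩
    · intro i h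
      have h1 : Measurable (Ext_sig (K₀ := K₀) i) := by
        rw [measurable_pi_iff]
        intro s
        exact measurableSet_setOfPred.1 s.1.2
      have h2 : Measurable fun τ : {x // x ∈ i} → Prop => h (Ext_pt i τ) := Measurable.of_discrete
      exact h2.comp h1
    · intro s hs
      have h1 : ∀ᶠ i in (atTop : Filter (Finset {s : Set K₀ // MeasurableSet s})),
          ({⟨s, hs⟩} : Finset {s : Set K₀ // MeasurableSet s}) ≤ i := eventually_ge_atTop _
      have h0 : ∀ᶠ i in ((Ultrafilter.of (atTop :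
          Filter (Finset {s : Set K₀ // MeasurableSet s})) : Ultrafilter _) : Filter _),
          ({⟨s, hs⟩} : Finset {s : Set K₀ // MeasurableSet s}) ≤ i := Ultrafilter.of_le _ h1
      refine h0.mono fun i hi y => ?_
      have h2 : (⟨s, hs⟩ : {s : Set K₀ // MeasurableSet s}) ∈ i :=
        hi (Finset.mem_singleton_self _)
      have h3 := congrFun (Ext_pt_sig i y) ⟨⟨s, hs⟩, h2⟩
      exact Iff.of_eq h3

/-- the limit along an ultrafilter -/
noncomputable def ulim {I : Type} (U : Ultrafilter I) (a : I → ℝ) : ℝ := limUnder (U : Filter I) a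

theorem ulim_tendsto {I : Type} (U : Ultrafilter I) {a : I → ℝ} {b : ℝ} (ha : ∀ i, |a i| ≤ b) :
    Tendsto a (U : Filter I) (𝓝 (ulim U a)) := by
  have h1 : ((U.map a : Ultrafilter ℝ) : Filter ℝ) ≤ 𝓟 (Icc (-b) b) := by
    rw [le_principal_iff]
    exact Filter.mem_map.2 (Filter.Eventually.of_forall fun i => abs_le.1 (ha i))
  obtain ⟨x, -, hx⟩ := isCompact_Icc.ultrafilter_le_nhds (U.map a) h1
  exact tendsto_nhds_limUnder ⟨x, hx⟩

theorem ulim_eq {I : Type} (U : Ultrafilter I) {a : I → ℝ} {l : ℝ} (ha : Tendsto a (U : Filter I) (𝓝 l)) :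
    ulim U a = l := ha.limUnder_eq

/-- bounded eventually by `c` in absolute value, so is the limit -/
theorem ulim_abs_le {I : Type} (U : Ultrafilter I) {a : I → ℝ} {b c : ℝ} (ha : ∀ i, |a i| ≤ b)
    (hc : ∀ᶠ i in (U : Filter I), |a i| ≤ c) : |ulim U a| ≤ c :=
  le_of_tendsto (ulim_tendsto U ha).abs hc

theorem unif {K₀ : Type} [MeasurableSpace K₀] {I : Type} {U : Ultrafilter I} {r : I → K₀ → K₀}
    (hr : ∀ s : Set K₀, MeasurableSet s → ∀ᶠ i in (U : Filter I), ∀ y, (r i y ∈ s ↔ y ∈ s))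
    {h : K₀ → ℝ} (hm : Measurable h) {b : ℝ} (hb : ∀ y, |h y| ≤ b) {ε : ℝ} (hε : 0 < ε) :
    ∀ᶠ i in (U : Filter I), ∀ y, |h (r i y) - h y| ≤ ε := by
  set N : ℤ := ⌈b / ε⌉ + 1 with hN
  have h1 : ∀ᶠ i in (U : Filter I), ∀ k ∈ Finset.Icc (-N) N, ∀ y,
      (r i y ∈ h ⁻¹' Ico ((k : ℝ) * ε) ((k + 1) * ε) ↔ y ∈ h ⁻¹' Ico ((k : ℝ) * ε) ((k + 1) * ε)) :=
    (Filter.eventually_all_finset _).2 fun k _ => hr _ (hm measurableSet_Ico)
  refine h1.mono fun i hi y => ?_
  have hk1 : ((⌊h y / ε⌋ : ℤ) : ℝ) * ε ≤ h y := by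
    have := Int.floor_le (h y / ε)
    rwa [le_div_iff₀ hε] at this
  have hk2 : h y < ((⌊h y / ε⌋ : ℤ) + 1 : ℝ) * ε := by
    have := Int.lt_floor_add_one (h y / ε)
    rwa [div_lt_iff₀ hε] at this
  have hy := abs_le.1 (hb y)
  have hk : ⌊h y / ε⌋ ∈ Finset.Icc (-N) N := by
    have h3 : h y / ε ≤ b / ε := div_le_div_of_nonneg_right hy.2 hε.le
    have h4 : -(b / ε) ≤ h y / ε := by
      rw [← neg_div]
      exact div_le_div_of_nonneg_right hy.1 hε.le
    have h5 := Int.le_ceil (b / ε)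
    rw [Finset.mem_Icc]
    constructor
    · rw [Int.le_floor, hN]
      push_cast
      linarith
    · have h6 := Int.floor_le (h y / ε)
      have h7 : ((⌊h y / ε⌋ : ℤ) : ℝ) ≤ ((⌈b / ε⌉ : ℤ) : ℝ) := by linarith
      have h8 : ⌊h y / ε⌋ ≤ ⌈b / ε⌉ := by exact_mod_cast h7
      omega
  have h2 := (hi _ hk y).2 ⟨hk1, hk2⟩
  have h3 := h2.1
  have h4 := h2.2
  rw [abs_le]
  constructor <;> nlinarith

end Pool.Agent.H84.TC
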