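import Pool.Agent.H84.TC.CCl

/-!
# Module Pt: points are controlled (100 lines)

PROOF. `Y` from `S.tight t ε`. `E y z := y ∈ Y ∧ z ∈ Y`, `C = q ‖t‖`. SMALL: `Φ '' Y` is totally bounded: for `θ > 0` there is a finite set `G` with `Φ '' Y ⊆ ⋃ g ∈ G, ball g (θ/2)` (`Metric.totallyBounded_iff`); `A = {g - g'}` (image of `G ×ˢ G`), finite, `cc_finite`.
CONTROL: let `h`, `δ`, `w` be as in `Ctrl`. If `Y = ∅`: `|L t h| ≤ q ‖t‖ * 0 + ε` (tight with `η = 0`). Otherwise `h' y = min 1 (sInf of h z + w d y z over z ∈ Y)` (bounded below by `-1`). `|h' y| ≤ 1`; `|h' y - h' z| ≤ w d y z` (`d_tri`); for `y ∈ Y`: `h y - δ ≤ h' y ≤ h y`.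
So `|L t h'| ≤ w W t` (`W_lip`), `|h - h'| ≤ 2` everywhere and `≤ δ` on `Y`, so `|L t (h - h')| ≤ q ‖t‖ δ + ε`. Total `≤ ε + C δ + w W t ≤ ε + C δ + w (W t + ε)`.
-/

set_option autoImplicit false

open Set Filter Topology

namespace Pool.Agent.H84.TC

variable {X : Type} [NormedAddCommGroup X] [NormedSpace ℝ X] {K : Type}

private lemma Pt_min {a b c : ℝ} (h1 : a ≤ b + c) (h2 : b ≤ a + c) (hc : 0 ≤ c) :
    |min 1 a - min 1 b| ≤ c := by
  rw [abs_le]
  constructor
  · have : min 1 b ≤ min 1 a + c := by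
      rcases le_total 1 a with h | h
      · rw [min_eq_left h]
        exact (min_le_left _ _).trans (by linarith)
      · rw [min_eq_right h]
        exact (min_le_right _ _).trans h2
    linarith
  · have : min 1 a ≤ min 1 b + c := by
      rcases le_total 1 b with h | h
      · rw [min_eq_left h]
        exact (min_le_left _ _).trans (by linarith)
      · rw [min_eq_right h]
        exact (min_le_right _ _).trans h1
    linarith

private lemma Pt_small (S : Sys X K) {Y : Set K} (hY : TotallyBounded (S.Φ '' Y)) :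
    Small S (fun y z => y ∈ Y ∧ z ∈ Y) := by
  refine ⟨fun y z h => ⟨h.2, h.1⟩, fun θ hθ => ?_⟩
  obtain ⟨G, hG, hGc⟩ := Metric.totallyBounded_iff.1 hY (θ / 2) (by linarith)
  refine ⟨Set.image2 (fun a b => a - b) G G, cc_finite (hG.image2 _ hG), fun y z hyz => ?_⟩
  obtain ⟨g, hg, hgy⟩ := Set.mem_iUnion₂.1 (hGc (Set.mem_image_of_mem _ hyz.1))
  obtain ⟨g', hg', hgz⟩ := Set.mem_iUnion₂.1 (hGc (Set.mem_image_of_mem _ hyz.2))
  refine ⟨g - g', ⟨g, hg, g', hg', rfl⟩, ?_⟩
  rw [Metric.mem_ball, dist_eq_norm] at hgy hgz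
  have h1 : S.Φ y - S.Φ z - (g - g') = (S.Φ y - g) - (S.Φ z - g') := by abel
  rw [h1]
  refine (norm_sub_le _ _).trans ?_
  linarith

theorem pt_ctrl (S : Sys X K) (t : StrongDual ℝ X) {ε : ℝ} (hε : 0 < ε) :
    ∃ E, Small S E ∧ ∃ C : ℝ, 0 ≤ C ∧ Ctrl S E ε C t := by
  obtain ⟨Y, hY, hT⟩ := S.tight t ε hε
  refine ⟨fun y z => y ∈ Y ∧ z ∈ Y, Pt_small S hY, S.q * ‖t‖,
    mul_nonneg S.hq (norm_nonneg _), ?_⟩
  intro h hh δ w hδ hw hE
  have hW := S.W_nonneg t
  have hwW : 0 ≤ w * (S.W t + ε) := mul_nonneg hw (by linarith)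
  rcases Y.eq_empty_or_nonempty with hY0 | hYn
  · have h1 := hT h (fun y => (hh y).trans (by norm_num)) 0 le_rfl (by
      intro y hy
      rw [hY0] at hy
      exact absurd hy (Set.notMem_empty y))
    have h2 : 0 ≤ S.q * ‖t‖ * δ := mul_nonneg (mul_nonneg S.hq (norm_nonneg _)) hδ
    linarith
  · haveI : Nonempty Y := hYn.to_subtype
    set F : K → ℝ := fun y => ⨅ z : Y, (h z + w * S.d y z) with hF
    have hlow : ∀ y (z : Y), -1 ≤ h z + w * S.d y z := by
      intro y z
      have h1 := (abs_le.1 (hh z)).1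
      have h2 := mul_nonneg hw (S.d_nonneg y z)
      linarith
    have hbdd : ∀ y, BddBelow (Set.range fun z : Y => h z + w * S.d y z) := by
      intro y
      refine ⟨-1, ?_⟩
      rintro _ ⟨z, rfl⟩
      exact hlow y z
    have hF1 : ∀ y, -1 ≤ F y := fun y => le_ciInf fun z => hlow y z
    have hF2 : ∀ y z, F y ≤ F z + w * S.d y z := by
      intro y z
      have h1 : F y - w * S.d y z ≤ F z := by
        refine le_ciInf fun p => ?_
        have h2 : F y ≤ h p + w * S.d y p := ciInf_le (hbdd y) p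
        have h3 := mul_le_mul_of_nonneg_left (S.d_tri y z p) hw
        rw [mul_add] at h3
        linarith
      linarith
    have hF3 : ∀ y ∈ Y, F y ≤ h y := by
      intro y hy
      have h2 : F y ≤ h y + w * S.d y y := ciInf_le (hbdd y) ⟨y, hy⟩
      rw [S.d_self, mul_zero, add_zero] at h2
      exact h2
    have hF4 : ∀ y ∈ Y, h y - δ ≤ F y := by
      intro y hy
      refine le_ciInf fun p => ?_
      have h1 := (abs_le.1 (hE y p ⟨hy, p.2⟩)).2
      linarith
    set g : K → ℝ := fun y => min 1 (F y) with hg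
    have hg1 : ∀ y, |g y| ≤ 1 := by
      intro y
      rw [abs_le]
      exact ⟨le_min (by norm_num) (hF1 y), min_le_left _ _⟩
    have hg2 : ∀ y z, |g y - g z| ≤ w * S.N (S.Φ y - S.Φ z) := by
      intro y z
      have h3 := hF2 z y
      rw [S.d_comm z y] at h3
      exact Pt_min (hF2 y z) h3 (mul_nonneg hw (S.d_nonneg y z))
    have hbh : Bd h := ⟨1, hh⟩
    have hbg : Bd g := ⟨1, hg1⟩
    have h1 : |S.L t g| ≤ w * S.W t := S.W_lip t g w hw hg2
    have h2 : |S.L t (fun y => h y - g y)| ≤ S.q * ‖t‖ * δ + ε := by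
      refine hT _ (fun y => ?_) δ hδ fun y hy => ?_
      · refine (abs_sub _ _).trans ?_
        linarith [hh y, hg1 y]
      · have h4 := hF3 y hy
        have h5 := hF4 y hy
        have h6 := (abs_le.1 (hh y)).2
        have h7 : g y ≤ h y := (min_le_right _ _).trans h4
        have h8 : h y - δ ≤ g y := le_min (by linarith) h5
        rw [abs_le]
        constructor <;> linarith
    have h3 : S.L t h = S.L t g + S.L t (fun y => h y - g y) := by
      rw [S.sub_r hbh hbg]
      ring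
    have h4 : |S.L t h| ≤ |S.L t g| + |S.L t (fun y => h y - g y)| := by
      rw [h3]
      exact abs_add_le _ _
    have h5 : w * S.W t ≤ w * (S.W t + ε) := mul_le_mul_of_nonneg_left (by linarith) hw
    linarith

end Pool.Agent.H84.TC
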