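import Pool.Agent.H84.TC.Shell
import Pool.Agent.H84.TC.Pt

/-!
# Module Glue: gluing at a limit point (90 lines)

PROOF. Let `v`, `ε > 0`; `κ = ε/4`. `E₀`, `C₀`: `pt_ctrl` for `b - v` with the error `κ`. `η₀`, `E₁`: `shell` with `κ`; `C* = q (r + ‖b‖)/2` (`≥ 0` if `F` is nonempty; if `F` is empty everything is trivial with the empty relation, which is small). `η₁`: `W_small (r+‖b‖) κ`; `η = min η₀ η₁`.
`E₂`, `C₂`: `hg η` with `v`, `ε`. `E = E₀ ∨ E₁ ∨ E₂` (`small_or`), `C = max (C₀ + C*) C₂`. For `f ∈ F`: if `η ≤ N (f-b)`: `Ctrl.mono`. Otherwise `f - v = (b - v) + (f - b)`, `|L (f-v) h| ≤ |L (b-v) h| + |L (f-b) h| ≤ 2κ + (C₀ + C*) δ + w (W (b-v) + W (f-b) + 2κ)`,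
`W (b-v) ≤ W (f-v) + W (f-b)` (`W_sub`, `b - v = (f - v) - (f - b)`), `W (f-b) ≤ κ`: total `≤ ε + C δ + w (W (f-v) + ε)`.
-/

set_option autoImplicit false

open Set Filter Topology

namespace Pool.Agent.H84.TC

variable {X : Type} [NormedAddCommGroup X] [NormedSpace ℝ X] {K : Type}

theorem glue (S : Sys X K) {F : Set (StrongDual ℝ X)} {r : ℝ} (hF : ∀ f ∈ F, ‖f‖ ≤ r) (b : StrongDual ℝ X)
    (hg : ∀ η > 0, Good S {f | f ∈ F ∧ η ≤ S.N (f - b)}) : Good S F := by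
  intro v ε hε
  obtain ⟨E₀, hE₀, C₀, hC₀, hc₀⟩ := pt_ctrl S (b - v) (ε := ε / 4) (by linarith)
  rcases F.eq_empty_or_nonempty with hemp | ⟨f₀, hf₀⟩
  · refine ⟨E₀, hE₀, C₀, hC₀, fun f hf => ?_⟩
    rw [hemp] at hf
    exact absurd hf (Set.notMem_empty f)
  have hr : 0 ≤ r := (norm_nonneg f₀).trans (hF f₀ hf₀)
  obtain ⟨η₀, hη₀, E₁, hE₁, hc₁⟩ := shell S hF b hg (κ := ε / 4) (by linarith)
  obtain ⟨η₁, hη₁, hW⟩ := S.W_small (r + ‖b‖) (ε / 4) (by linarith)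
  obtain ⟨E₂, hE₂, C₂, hC₂, hc₂⟩ := hg (min η₀ η₁) (lt_min hη₀ hη₁) v ε hε
  have hCs : 0 ≤ S.q * (r + ‖b‖) / 2 := by
    have h1 : 0 ≤ S.q * (r + ‖b‖) := mul_nonneg S.hq (add_nonneg hr (norm_nonneg b))
    linarith
  refine ⟨_, small_or (small_or hE₀ hE₁) hE₂, max (C₀ + S.q * (r + ‖b‖) / 2) C₂,
    le_max_of_le_right hC₂, fun f hf => ?_⟩
  by_cases hcase : min η₀ η₁ ≤ S.N (f - b)
  · exact (hc₂ f ⟨hf, hcase⟩).mono (fun y z h => Or.inr h) le_rfl (le_max_right _ _)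
  · have hlt := (not_le.1 hcase).le
    have hN0 : S.N (f - b) ≤ η₀ := hlt.trans (min_le_left _ _)
    have hN1 : S.N (f - b) ≤ η₁ := hlt.trans (min_le_right _ _)
    have hWf : S.W (f - b) ≤ ε / 4 :=
      hW (f - b) ((norm_sub_le f b).trans (add_le_add (hF f hf) le_rfl)) hN1
    intro h hh δ w hδ hw hE
    have hbd : Bd h := ⟨1, hh⟩
    have h1 := hc₀ h hh δ w hδ hw fun y z hyz => hE y z (Or.inl (Or.inl hyz))
    have h2 := hc₁ f hf hN0 h hh δ w hδ hw fun y z hyz => hE y z (Or.inl (Or.inr hyz))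
    have heq : f - v = (b - v) + (f - b) := by abel
    have h3 : S.L (f - v) h = S.L (b - v) h + S.L (f - b) h := by
      rw [heq, S.add_l _ _ _ hbd]
    have h4 : |S.L (f - v) h| ≤ |S.L (b - v) h| + |S.L (f - b) h| := by
      rw [h3]
      exact abs_add_le _ _
    have h5 : S.W (b - v) ≤ S.W (f - v) + S.W (f - b) := by
      have h6 := S.W_sub (f - v) (f - b)
      have h7 : f - v - (f - b) = b - v := by abel
      rwa [h7] at h6
    have h8 : (C₀ + S.q * (r + ‖b‖) / 2) * δ ≤ max (C₀ + S.q * (r + ‖b‖) / 2) C₂ * δ :=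
      mul_le_mul_of_nonneg_right (le_max_left _ _) hδ
    have h9 : w * (S.W (b - v) + S.W (f - b) + ε / 2) ≤ w * (S.W (f - v) + ε) :=
      mul_le_mul_of_nonneg_left (by linarith) hw
    nlinarith [h1, h2, h4, h8, h9]

theorem good_union {S : Sys X K} {F G : Set (StrongDual ℝ X)} (hF : Good S F) (hG : Good S G) :
    Good S (F ∪ G) := by
  intro v ε hε
  obtain ⟨E, hE, C, hC, hc⟩ := hF v ε hε
  obtain ⟨E', hE', C', hC', hc'⟩ := hG v ε hε
  refine ⟨_, small_or hE hE', max C C', le_max_of_le_left hC, fun f hf => ?_⟩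
  rcases hf with hf | hf
  · exact (hc f hf).mono (fun y z h => Or.inl h) le_rfl (le_max_left _ _)
  · exact (hc' f hf).mono (fun y z h => Or.inr h) le_rfl (le_max_right _ _)

end Pool.Agent.H84.TC
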