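import Pool.Agent.H84.TC.Defs

/-!
# Module Lip: finite nets of the family of Lipschitz functions (110 lines)

PROOF. `D y z = N (Φ y - Φ z)` is a pseudo-distance, continuous in `y` for fixed `z` (`N_cont` with `r = 2`: if `y → y₀` then `Φ y - Φ y₀ → 0` weak*, `|D y z - D y₀ z| ≤ D y y₀`). Hence for `κ > 0` there is a finite set `Z ⊆ T` with every `y` within `κ` of a point of `Z` (`IsCompact.elim_nhds_subcover` on `univ`).
The set `V = {v : Z → ℝ | |v z| ≤ 2}` is totally bounded (a bounded set of a finite dimensional space, `Z` a `Finset`, `Z → ℝ`): finitely many balls of radius `κ` cover the set of the restrictions `(f z)_z` of the admissible `f`; choose one admissible `f_i` for every ball which meets this set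
(`Metric.totallyBounded_iff`, or `TotallyBounded` of the image set and a finite subset of the image: `Metric.exists_finite_isCover`-type / `totallyBounded_iff_subset`: the centers can be taken in the set). If `f`, `f_i` differ by `≤ 2κ` on `Z` then they differ by `≤ 4κ` everywhere (Lipschitz). Take `κ = ω/4`.
-/

set_option autoImplicit false

open Set Filter Topology

namespace Pool.Agent.H84.TC

variable {X : Type} [NormedAddCommGroup X] [NormedSpace ℝ X]

/-- near a point the distance is small -/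
private lemma lip_near (NS : NSys X) {T : Type} [TopologicalSpace T] (Φ : T → StrongDual ℝ X)
    (hΦ : ∀ y, ‖Φ y‖ ≤ 1) (hc : Continuous fun y => StrongDual.toWeakDual (Φ y)) {κ : ℝ} (hκ : 0 < κ)
    (z : T) : ∀ᶠ y in 𝓝 z, NS.N (Φ y - Φ z) ≤ κ := by
  obtain ⟨U, hU, hN⟩ := NS.N_cont 2 κ hκ
  have h1 : Tendsto (fun y => StrongDual.toWeakDual (Φ y) - StrongDual.toWeakDual (Φ z)) (𝓝 z)
      (𝓝 0) := by
    have h2 := (hc.sub continuous_const).tendsto (f := fun y =>
      StrongDual.toWeakDual (Φ y) - StrongDual.toWeakDual (Φ z)) z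
    rwa [sub_self] at h2
  filter_upwards [h1 hU] with y hy
  refine hN _ ?_ ?_
  · calc ‖Φ y - Φ z‖ ≤ ‖Φ y‖ + ‖Φ z‖ := norm_sub_le _ _
      _ ≤ 1 + 1 := add_le_add (hΦ y) (hΦ z)
      _ = 2 := by norm_num
  · rw [map_sub]
    exact hy

theorem lip_net (NS : NSys X) {T : Type} [TopologicalSpace T] [CompactSpace T] (Φ : T → StrongDual ℝ X)
    (hΦ : ∀ y, ‖Φ y‖ ≤ 1) (hc : Continuous fun y => StrongDual.toWeakDual (Φ y)) {ω : ℝ} (hω : 0 < ω) :
    ∃ G : Set C(T, ℝ), G.Finite ∧ ∀ f : C(T, ℝ), (∀ y, |f y| ≤ 2) →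
      (∀ y z, |f y - f z| ≤ NS.N (Φ y - Φ z)) → ∃ g ∈ G, ‖f - g‖ ≤ ω := by
  classical
  have hκ : 0 < ω / 4 := by linarith
  obtain ⟨Z, -, hZ⟩ := isCompact_univ.elim_nhds_subcover
    (fun z : T => {y | NS.N (Φ y - Φ z) ≤ ω / 4})
    (fun z _ => lip_near NS Φ hΦ hc hκ z)
  let Adm : Set C(T, ℝ) := {f | (∀ y, |f y| ≤ 2) ∧ ∀ y z, |f y - f z| ≤ NS.N (Φ y - Φ z)}
  let R : C(T, ℝ) → (Z → ℝ) := fun f z => f z
  have hB : TotallyBounded (R '' Adm) := by
    refine (isCompact_closedBall (0 : Z → ℝ) 2).totallyBounded.subset ?_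
    rintro _ ⟨f, hf, rfl⟩
    rw [mem_closedBall_zero_iff, pi_norm_le_iff_of_nonneg (by norm_num)]
    intro z
    exact hf.1 z
  obtain ⟨t, htA, htf, htc⟩ := Metric.finite_approx_of_totallyBounded hB (ω / 4) hκ
  have hch : ∀ v : Z → ℝ, ∃ f : C(T, ℝ), v ∈ t → f ∈ Adm ∧ R f = v := by
    intro v
    by_cases hv : v ∈ t
    · obtain ⟨f, hf, hfv⟩ := htA hv
      exact ⟨f, fun _ => ⟨hf, hfv⟩⟩
    · exact ⟨0, fun h => absurd h hv⟩
  choose F hF using hch
  refine ⟨F '' t, htf.image F, ?_⟩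
  intro f hf1 hf2
  have hfR : R f ∈ R '' Adm := ⟨f, ⟨hf1, hf2⟩, rfl⟩
  obtain ⟨v, hv, hfv⟩ := mem_iUnion₂.1 (htc hfR)
  obtain ⟨hg, hgv⟩ := hF v hv
  refine ⟨F v, mem_image_of_mem F hv, ?_⟩
  rw [ContinuousMap.norm_le _ hω.le]
  intro y
  obtain ⟨z, hz, hyz⟩ := mem_iUnion₂.1 (hZ (mem_univ y))
  have h1 : |f y - f z| ≤ ω / 4 := (hf2 y z).trans hyz
  have h2 : |F v y - F v z| ≤ ω / 4 := (hg.2 y z).trans hyz
  have h3 : |f z - F v z| ≤ ω / 4 := by
    have h4 := dist_le_pi_dist (R f) v ⟨z, hz⟩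
    have h5 : v ⟨z, hz⟩ = F v z := (congrFun hgv ⟨z, hz⟩).symm
    have h6 : dist (R f) v < ω / 4 := hfv
    rw [Real.dist_eq, h5] at h4
    exact h4.trans h6.le
  have h7 : (f - F v) y = (f y - f z) + (f z - F v z) - (F v y - F v z) := by
    rw [ContinuousMap.sub_apply]
    ring
  rw [h7, Real.norm_eq_abs]
  rw [abs_le] at h1 h2 h3 ⊢
  constructor <;> linarith [h1.1, h1.2, h2.1, h2.2, h3.1, h3.2]

/-- a function which is Lipschitz for the distance is continuous -/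
theorem lip_cont (NS : NSys X) {T : Type} [TopologicalSpace T] (Φ : T → StrongDual ℝ X)
    (hΦ : ∀ y, ‖Φ y‖ ≤ 1) (hc : Continuous fun y => StrongDual.toWeakDual (Φ y)) {f : T → ℝ} {w : ℝ}
    (hw : 0 ≤ w) (hf : ∀ y z, |f y - f z| ≤ w * NS.N (Φ y - Φ z)) : Continuous f := by
  rw [continuous_iff_continuousAt]
  intro z
  rw [ContinuousAt, Metric.tendsto_nhds]
  intro ε hε
  have hκ : 0 < ε / (w + 1) := by positivity
  filter_upwards [lip_near NS Φ hΦ hc hκ z] with y hy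
  rw [Real.dist_eq]
  calc |f y - f z| ≤ w * NS.N (Φ y - Φ z) := hf y z
    _ ≤ w * (ε / (w + 1)) := mul_le_mul_of_nonneg_left hy hw
    _ < (w + 1) * (ε / (w + 1)) := mul_lt_mul_of_pos_right (by linarith) hκ
    _ = ε := by field_simp

end Pool.Agent.H84.TC
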