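import Pool.Agent.H84.TC.Defs

/-!
# Module NTop: the norm which gives the weak* topology on bounded sets (130 lines)

PROOF. `x i = denseSeq X i`, `e i = (max 1 ‖x i‖)⁻¹ • x i` (`‖e i‖ ≤ 1`), `N v = ∑' i, (1/2)^(i+1) * |v (e i)|` (summable: terms `≤ (1/2)^(i+1) ‖v‖`; `tsum_geometric_two`-type: `N v ≤ ‖v‖`). `N v = 0 → v (x i) = 0` for all `i → v = 0` (density, continuity: `DenseRange.equalizer`-type).
`N_closed`: `{N ≤ c} = ⋂ n, {∑ i < n, (1/2)^(i+1) |a (e i)| ≤ c}` (`Summable.tsum_le_of_sum_range_le`, `Summable.sum_le_tsum`), each closed (`WeakDual.eval_continuous`).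
`N_cont`: for `‖t‖ ≤ r`: `N t ≤ ∑ i < n, (1/2)^(i+1) |t (e i)| + |r| (1/2)^n` (`Summable.sum_add_tsum_nat_add`); choose `n` with `|r| (1/2)^n ≤ η/2` and `U = {a | ∀ i < n, |a (e i)| < η/2}` (finite intersection of open sets).
`N_nhds` by compactness: the sets `C_n = {a ∈ closedBall 0 r | N a ≤ 1/(n+1)} \ interior U` are compact (`WeakDual.isCompact_closedBall`, `N_closed`), decreasing, with empty intersection (`N a = 0 → a = 0 ∈ interior U`); if all were nonempty, `IsCompact.nonempty_iInter_of_sequence_nonempty_isCompact_isClosed`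
would give a point of the intersection; so some `C_n` is empty, `η = 1/(n+1)`.
-/

set_option autoImplicit false

open Set Filter Topology

namespace Pool.Agent.H84.TC

variable {X : Type} [NormedAddCommGroup X] [NormedSpace ℝ X] {K : Type}

private noncomputable def ntop_w (i : ℕ) : ℝ := 1 / 2 / 2 ^ i

private lemma ntop_w_pos (i : ℕ) : 0 < ntop_w i := by
  unfold ntop_w
  positivity

private lemma ntop_w_sum : HasSum ntop_w 1 := hasSum_geometric_two' 1

private lemma ntop_w_tail (n : ℕ) : HasSum (fun i => ntop_w (i + n)) ((1 / 2) ^ n) := by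
  have h := hasSum_geometric_two' ((1 / 2 : ℝ) ^ n)
  have e : (fun i => ntop_w (i + n)) = fun i => (1 / 2 : ℝ) ^ n / 2 / 2 ^ i := by
    funext i
    unfold ntop_w
    rw [pow_add, div_pow, one_pow]
    field_simp
  rw [e]
  exact h

/-- the norm defined by the vectors `e i` -/
private noncomputable def ntop_N (e : ℕ → X) (v : StrongDual ℝ X) : ℝ := ∑' i, ntop_w i * |v (e i)|

private lemma ntop_le {e : ℕ → X} (he : ∀ i, ‖e i‖ ≤ 1) (v : StrongDual ℝ X) (i : ℕ) :
    |v (e i)| ≤ ‖v‖ := by
  have h := v.le_opNorm (e i)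
  rw [Real.norm_eq_abs] at h
  exact h.trans (mul_le_of_le_one_right (norm_nonneg v) (he i))

private lemma ntop_summable {e : ℕ → X} (he : ∀ i, ‖e i‖ ≤ 1) (v : StrongDual ℝ X) :
    Summable fun i => ntop_w i * |v (e i)| :=
  Summable.of_nonneg_of_le (fun i => mul_nonneg (ntop_w_pos i).le (abs_nonneg _))
    (fun i => mul_le_mul_of_nonneg_left (ntop_le he v i) (ntop_w_pos i).le)
    (ntop_w_sum.summable.mul_right ‖v‖)

private lemma ntop_term {e : ℕ → X} (v : StrongDual ℝ X) (i : ℕ) : 0 ≤ ntop_w i * |v (e i)| :=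
  mul_nonneg (ntop_w_pos i).le (abs_nonneg _)

private lemma ntop_nonneg (e : ℕ → X) (v : StrongDual ℝ X) : 0 ≤ ntop_N e v :=
  tsum_nonneg fun i => ntop_term v i

private lemma ntop_N_le {e : ℕ → X} (he : ∀ i, ‖e i‖ ≤ 1) (v : StrongDual ℝ X) : ntop_N e v ≤ ‖v‖ := by
  have h1 : HasSum (fun i => ntop_w i * ‖v‖) (1 * ‖v‖) := ntop_w_sum.mul_right ‖v‖
  rw [one_mul] at h1
  rw [← h1.tsum_eq]
  exact (ntop_summable he v).tsum_le_tsum
    (fun i => mul_le_mul_of_nonneg_left (ntop_le he v i) (ntop_w_pos i).le) h1.summable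

private lemma ntop_sum_cont (e : ℕ → X) (n : ℕ) : Continuous fun a : WeakDual ℝ X =>
    ∑ i ∈ Finset.range n, ntop_w i * |(WeakDual.toStrongDual a) (e i)| := by
  refine continuous_finsetSum _ fun i _ => continuous_const.mul ?_
  exact (WeakDual.eval_continuous (e i)).abs

private lemma ntop_closed {e : ℕ → X} (he : ∀ i, ‖e i‖ ≤ 1) (c : ℝ) :
    IsClosed {a : WeakDual ℝ X | ntop_N e (WeakDual.toStrongDual a) ≤ c} := by
  have h : {a : WeakDual ℝ X | ntop_N e (WeakDual.toStrongDual a) ≤ c} =
      ⋂ n : ℕ, {a | ∑ i ∈ Finset.range n, ntop_w i * |(WeakDual.toStrongDual a) (e i)| ≤ c} := by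
    ext a
    simp only [mem_ofPred_eq, mem_iInter]
    constructor
    · intro ha n
      exact ((ntop_summable he _).sum_le_tsum _ fun i _ => ntop_term _ i).trans ha
    · intro ha
      exact Real.tsum_le_of_sum_range_le (fun i => ntop_term _ i) ha
  rw [h]
  exact isClosed_iInter fun n => isClosed_le (ntop_sum_cont e n) continuous_const

theorem exists_nsys [TopologicalSpace.SeparableSpace X] : Nonempty (NSys X) := by
  let x : ℕ → X := TopologicalSpace.denseSeq X
  let e : ℕ → X := fun i => (max 1 ‖x i‖)⁻¹ • x i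
  have hm : ∀ i, 0 < max 1 ‖x i‖ := fun i => lt_of_lt_of_le one_pos (le_max_left _ _)
  have he : ∀ i, ‖e i‖ ≤ 1 := fun i => by
    show ‖(max 1 ‖x i‖)⁻¹ • x i‖ ≤ 1
    rw [norm_smul, norm_inv, Real.norm_of_nonneg (hm i).le, inv_mul_le_iff₀ (hm i), mul_one]
    exact le_max_right _ _
  have heq : ∀ t : StrongDual ℝ X, ntop_N e t = 0 ↔ t = 0 := by
    intro t
    constructor
    · intro h
      have h1 : HasSum (fun i => ntop_w i * |t (e i)|) 0 := by
        have h0 := (ntop_summable he t).hasSum
        rw [show ∑' i, ntop_w i * |t (e i)| = 0 from h] at h0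
        exact h0
      have h2 := (hasSum_zero_iff_of_nonneg (fun i => ntop_term t i)).1 h1
      have h3 : ∀ i, t (x i) = 0 := by
        intro i
        have h4 : ntop_w i * |t (e i)| = 0 := congrFun h2 i
        have h5 : t (e i) = 0 := by
          rcases mul_eq_zero.1 h4 with h5 | h5
          · exact absurd h5 (ntop_w_pos i).ne'
          · exact abs_eq_zero.1 h5
        have h6 : t (e i) = (max 1 ‖x i‖)⁻¹ * t (x i) := by
          show t ((max 1 ‖x i‖)⁻¹ • x i) = _
          rw [map_smul, smul_eq_mul]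
        rw [h6] at h5
        rcases mul_eq_zero.1 h5 with h7 | h7
        · exact absurd h7 (inv_ne_zero (hm i).ne')
        · exact h7
      have h8 : (t : X → ℝ) = fun _ => 0 :=
        (TopologicalSpace.denseRange_denseSeq X).equalizer t.continuous continuous_const
          (funext h3)
      ext y
      exact congrFun h8 y
    · rintro rfl
      unfold ntop_N
      simp
  refine ⟨⟨ntop_N e, ?_, ?_, heq, ntop_nonneg e, ntop_N_le he, ntop_closed he, ?_, ?_⟩⟩
  · intro s t
    unfold ntop_N
    rw [← (ntop_summable he s).tsum_add (ntop_summable he t)]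
    refine (ntop_summable he (s + t)).tsum_le_tsum (fun i => ?_)
      ((ntop_summable he s).add (ntop_summable he t))
    rw [← mul_add]
    exact mul_le_mul_of_nonneg_left (abs_add_le _ _) (ntop_w_pos i).le
  · intro t
    unfold ntop_N
    congr 1
    funext i
    rw [neg_apply, abs_neg]
  · intro r U hU
    let C : ℕ → Set (WeakDual ℝ X) := fun n =>
      (WeakDual.toStrongDual ⁻¹' Metric.closedBall (0 : StrongDual ℝ X) r ∩
        {a | ntop_N e (WeakDual.toStrongDual a) ≤ 1 / ((n : ℝ) + 1)}) ∩ (interior U)ᶜ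
    have hclosed : ∀ n, IsClosed (C n) := fun n =>
      ((WeakDual.isClosed_closedBall 0 r).inter (ntop_closed he _)).inter isOpen_interior.isClosed_compl
    have hex : ∃ n, C n = ∅ := by
      by_contra hcon
      push Not at hcon
      have hne : ∀ n, (C n).Nonempty := hcon
      have hmono : ∀ n, C (n + 1) ⊆ C n := by
        rintro n a ⟨⟨h1, h2⟩, h3⟩
        refine ⟨⟨h1, le_trans (show ntop_N e (WeakDual.toStrongDual a) ≤ _ from h2) ?_⟩, h3⟩
        refine one_div_le_one_div_of_le (by positivity) ?_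
        push_cast
        linarith
      have hcpt : IsCompact (C 0) :=
        (WeakDual.isCompact_closedBall 0 r).of_isClosed_subset (hclosed 0) fun a ha => ha.1.1
      obtain ⟨a, ha⟩ := IsCompact.nonempty_iInter_of_sequence_nonempty_isCompact_isClosed C hmono hne
        hcpt hclosed
      rw [mem_iInter] at ha
      have h1 : ntop_N e (WeakDual.toStrongDual a) ≤ 0 := by
        have ht : Tendsto (fun n : ℕ => 1 / ((n : ℝ) + 1)) atTop (𝓝 0) :=
          tendsto_one_div_add_atTop_nhds_zero_nat
        exact ge_of_tendsto' ht fun n => (ha n).1.2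
      have h2 : WeakDual.toStrongDual a = 0 :=
        (heq _).1 (le_antisymm h1 (ntop_nonneg e _))
      have h3 : a = 0 := by
        have := (WeakDual.toStrongDual (𝕜 := ℝ) (E := X)).injective (h2.trans (map_zero _).symm)
        exact this
      apply (ha 0).2
      rw [h3]
      exact mem_interior_iff_mem_nhds.2 hU
    obtain ⟨n, hn⟩ := hex
    refine ⟨1 / ((n : ℝ) + 1), by positivity, fun t ht htN => ?_⟩
    by_contra hcon
    have hmem : StrongDual.toWeakDual t ∈ C n := by
      refine ⟨⟨?_, htN⟩, fun h => hcon (interior_subset h)⟩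
      rw [mem_preimage, mem_closedBall_zero_iff]
      exact ht
    rw [hn] at hmem
    exact hmem
  · intro r η hη
    obtain ⟨n, hn⟩ : ∃ n : ℕ, |r| * (1 / 2) ^ n < η / 2 := by
      have ht : Tendsto (fun n : ℕ => |r| * (1 / 2 : ℝ) ^ n) atTop (𝓝 (|r| * 0)) :=
        (tendsto_pow_atTop_nhds_zero_of_lt_one (by norm_num) (by norm_num)).const_mul _
      rw [mul_zero] at ht
      exact (ht.eventually_lt_const (half_pos hη)).exists
    refine ⟨{a | ∑ i ∈ Finset.range n, ntop_w i * |(WeakDual.toStrongDual a) (e i)| < η / 2}, ?_, ?_⟩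
    · refine (isOpen_lt (ntop_sum_cont e n) continuous_const).mem_nhds ?_
      rw [mem_ofPred_eq, map_zero]
      simpa using hη
    · intro t ht htU
      have h1 : ∑ i ∈ Finset.range n, ntop_w i * |t (e i)| < η / 2 := htU
      have h2 := (ntop_summable he t).sum_add_tsum_nat_add n
      have h3 : ∑' i, ntop_w (i + n) * |t (e (i + n))| ≤ (1 / 2) ^ n * |r| := by
        have h4 := (ntop_w_tail n).mul_right |r|
        rw [← h4.tsum_eq]
        refine ((summable_nat_add_iff n).2 (ntop_summable he t)).tsum_le_tsum (fun i => ?_) h4.summable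
        exact mul_le_mul_of_nonneg_left (((ntop_le he t _).trans ht).trans (le_abs_self r))
          (ntop_w_pos _).le
      show ∑' i, ntop_w i * |t (e i)| ≤ η
      rw [← h2]
      linarith [mul_comm |r| ((1 / 2 : ℝ) ^ n)]

end Pool.Agent.H84.TC
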