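import Pool.Agent.H84.TC.Lip

/-!
# Module Was: the Wasserstein seminorm (110 lines)

PROOF. `𝓕 = {f : C(T, ℝ) | (∀ y, |f y| ≤ 2) ∧ ∀ y z, |f y - f z| ≤ N (Φ y - Φ z)}`, `W t = sSup ((fun f => |t (Q f)|) '' 𝓕)` (`0 ∈ 𝓕`; bounded above by `‖t‖ ‖Q‖ 2`). `W_nonneg`, `W_add` (`|(s+t)(Q f)| ≤ |s (Q f)| + |t (Q f)|`, `csSup_le`), `W_neg` clear.
Lipschitz bound: let `|f y - f z| ≤ w N (Φ y - Φ z)`. If `T` is empty or `w = 0` then `f` is constant, `Q f = 0` (`hQ`). If `w > 0` fix `y₀`; `g = w⁻¹ • (f - f y₀)` is in `𝓕` (`N (Φ y - Φ z) ≤ ‖Φ y - Φ z‖ ≤ 2`), `Q f = w • Q g` (`Q 1 = 0`), so `|t (Q f)| = w |t (Q g)| ≤ w W t`.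
`W_small`: `lip_net` with `ω/(2 (|r| + 1)(‖Q‖ + 1))` gives the finite set `G`; for each `g ∈ G` the functional `t ↦ t (Q g)`: `{a : WeakDual | |a (Q g)| < ω/2}` is a neighbourhood of `0`; finite intersection `U`; `N_nhds r U` gives `η`. For `‖t‖ ≤ r`, `N t ≤ η`, `f ∈ 𝓕`, `‖f - g‖` small:
`|t (Q f)| ≤ |t (Q g)| + ‖t‖ ‖Q‖ ‖f - g‖ ≤ ω`; `csSup_le`.
-/

set_option autoImplicit false

open Set Filter Topology

namespace Pool.Agent.H84.TC

variable {X : Type} [NormedAddCommGroup X] [NormedSpace ℝ X]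

/-- the admissible functions -/
private def Was_adm (NS : NSys X) {T : Type} [TopologicalSpace T] (Φ : T → StrongDual ℝ X) :
    Set C(T, ℝ) :=
  {f | (∀ y, |f y| ≤ 2) ∧ ∀ y z, |f y - f z| ≤ NS.N (Φ y - Φ z)}

/-- the seminorm -/
private noncomputable def Was_w (NS : NSys X) {T : Type} [TopologicalSpace T] [CompactSpace T]
    (Φ : T → StrongDual ℝ X) (Q : C(T, ℝ) →L[ℝ] X) (t : StrongDual ℝ X) : ℝ :=
  sSup ((fun f => |t (Q f)|) '' Was_adm NS Φ)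

private lemma Was_zero (NS : NSys X) {T : Type} [TopologicalSpace T] (Φ : T → StrongDual ℝ X) :
    (0 : C(T, ℝ)) ∈ Was_adm NS Φ := by
  refine ⟨fun y => by simp, fun y z => ?_⟩
  have h := NS.N_nonneg (Φ y - Φ z)
  simpa using h

private lemma Was_bdd (NS : NSys X) {T : Type} [TopologicalSpace T] [CompactSpace T]
    (Φ : T → StrongDual ℝ X) (Q : C(T, ℝ) →L[ℝ] X) (t : StrongDual ℝ X) :
    BddAbove ((fun f => |t (Q f)|) '' Was_adm NS Φ) := by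
  refine ⟨‖t‖ * (‖Q‖ * 2), ?_⟩
  rintro _ ⟨f, hf, rfl⟩
  have h1 : ‖f‖ ≤ 2 := (ContinuousMap.norm_le f (by norm_num)).2 fun y => hf.1 y
  calc |t (Q f)| = ‖t (Q f)‖ := (Real.norm_eq_abs _).symm
    _ ≤ ‖t‖ * ‖Q f‖ := t.le_opNorm _
    _ ≤ ‖t‖ * (‖Q‖ * ‖f‖) := mul_le_mul_of_nonneg_left (Q.le_opNorm _) (norm_nonneg _)
    _ ≤ ‖t‖ * (‖Q‖ * 2) := mul_le_mul_of_nonneg_left
        (mul_le_mul_of_nonneg_left h1 Q.opNorm_nonneg) (norm_nonneg _)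

private lemma Was_le (NS : NSys X) {T : Type} [TopologicalSpace T] [CompactSpace T]
    (Φ : T → StrongDual ℝ X) (Q : C(T, ℝ) →L[ℝ] X) (t : StrongDual ℝ X) {f : C(T, ℝ)}
    (hf : f ∈ Was_adm NS Φ) : |t (Q f)| ≤ Was_w NS Φ Q t :=
  le_csSup (Was_bdd NS Φ Q t) ⟨f, hf, rfl⟩

private lemma Was_csup (NS : NSys X) {T : Type} [TopologicalSpace T] [CompactSpace T]
    (Φ : T → StrongDual ℝ X) (Q : C(T, ℝ) →L[ℝ] X) (t : StrongDual ℝ X) {c : ℝ}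
    (h : ∀ f ∈ Was_adm NS Φ, |t (Q f)| ≤ c) : Was_w NS Φ Q t ≤ c := by
  refine csSup_le ⟨_, 0, Was_zero NS Φ, rfl⟩ ?_
  rintro _ ⟨f, hf, rfl⟩
  exact h f hf

private lemma Was_lip (NS : NSys X) {T : Type} [TopologicalSpace T] [CompactSpace T]
    (Φ : T → StrongDual ℝ X) (hΦ : ∀ y, ‖Φ y‖ ≤ 1) (Q : C(T, ℝ) →L[ℝ] X) (hQ : Q 1 = 0)
    (t : StrongDual ℝ X) (f : C(T, ℝ)) (w : ℝ) (hw : 0 ≤ w)
    (hf : ∀ y z, |f y - f z| ≤ w * NS.N (Φ y - Φ z)) : |t (Q f)| ≤ w * Was_w NS Φ Q t := by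
  have hW : 0 ≤ Was_w NS Φ Q t := (abs_nonneg _).trans (Was_le NS Φ Q t (Was_zero NS Φ))
  have hcst : ∀ c : ℝ, Q (c • (1 : C(T, ℝ))) = 0 := fun c => by rw [map_smul, hQ, smul_zero]
  rcases isEmpty_or_nonempty T with hT | ⟨⟨y₀⟩⟩
  · have h0 : f = 0 := by
      ext y
      exact hT.elim y
    rw [h0, map_zero, map_zero, abs_zero]
    exact mul_nonneg hw hW
  · rcases hw.eq_or_lt with h0 | hpos
    · have h1 : f = f y₀ • (1 : C(T, ℝ)) := by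
        ext y
        have h2 := hf y y₀
        rw [← h0, zero_mul] at h2
        have h3 : f y - f y₀ = 0 := abs_eq_zero.1 (le_antisymm h2 (abs_nonneg _))
        simp only [ContinuousMap.smul_apply, ContinuousMap.one_apply, smul_eq_mul, mul_one]
        linarith
      rw [h1, hcst, map_zero, abs_zero]
      exact mul_nonneg hw hW
    · have hg : w⁻¹ • (f - f y₀ • (1 : C(T, ℝ))) ∈ Was_adm NS Φ := by
        have h1 : ∀ y z, |w⁻¹ * (f y - f z)| ≤ NS.N (Φ y - Φ z) := by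
          intro y z
          rw [abs_mul, abs_of_pos (inv_pos.2 hpos)]
          calc w⁻¹ * |f y - f z| ≤ w⁻¹ * (w * NS.N (Φ y - Φ z)) :=
                mul_le_mul_of_nonneg_left (hf y z) (inv_pos.2 hpos).le
            _ = NS.N (Φ y - Φ z) := by
                rw [← mul_assoc, inv_mul_cancel₀ hpos.ne', one_mul]
        have h2 : ∀ y, (w⁻¹ • (f - f y₀ • (1 : C(T, ℝ)))) y = w⁻¹ * (f y - f y₀) := by
          intro y
          simp [ContinuousMap.smul_apply]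
        refine ⟨fun y => ?_, fun y z => ?_⟩
        · rw [h2]
          refine (h1 y y₀).trans ((NS.N_le _).trans ?_)
          calc ‖Φ y - Φ y₀‖ ≤ ‖Φ y‖ + ‖Φ y₀‖ := norm_sub_le _ _
            _ ≤ 1 + 1 := add_le_add (hΦ y) (hΦ y₀)
            _ = 2 := by norm_num
        · rw [h2, h2]
          have h3 : w⁻¹ * (f y - f y₀) - w⁻¹ * (f z - f y₀) = w⁻¹ * (f y - f z) := by ring
          rw [h3]
          exact h1 y z
      have h4 := Was_le NS Φ Q t hg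
      have h5 : t (Q f) = w * t (Q (w⁻¹ • (f - f y₀ • (1 : C(T, ℝ))))) := by
        rw [map_smul, map_sub, hcst, sub_zero, map_smul, smul_eq_mul, ← mul_assoc,
          mul_inv_cancel₀ hpos.ne', one_mul]
      rw [h5, abs_mul, abs_of_pos hpos]
      exact mul_le_mul_of_nonneg_left h4 hw

private lemma Was_small (NS : NSys X) {T : Type} [TopologicalSpace T] [CompactSpace T]
    (Φ : T → StrongDual ℝ X) (hΦ : ∀ y, ‖Φ y‖ ≤ 1)
    (hc : Continuous fun y => StrongDual.toWeakDual (Φ y)) (Q : C(T, ℝ) →L[ℝ] X)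
    (r ω : ℝ) (hω : 0 < ω) :
    ∃ η > 0, ∀ t, ‖t‖ ≤ r → NS.N t ≤ η → Was_w NS Φ Q t ≤ ω := by
  have hd : 0 < 2 * (|r| + 1) * (‖Q‖ + 1) := by
    have h1 := abs_nonneg r
    have h2 := norm_nonneg Q
    positivity
  have hω' : 0 < ω / (2 * (|r| + 1) * (‖Q‖ + 1)) := div_pos hω hd
  obtain ⟨G, hG, hnet⟩ := lip_net NS Φ hΦ hc hω'
  have hU : ∀ g : C(T, ℝ), {a : WeakDual ℝ X | |a (Q g)| < ω / 2} ∈ 𝓝 (0 : WeakDual ℝ X) := by
    intro g
    have h1 : Continuous fun a : WeakDual ℝ X => |a (Q g)| :=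
      (WeakDual.eval_continuous (Q g)).abs
    have h2 : IsOpen {a : WeakDual ℝ X | |a (Q g)| < ω / 2} := isOpen_lt h1 continuous_const
    refine h2.mem_nhds ?_
    have h3 : (0 : WeakDual ℝ X) (Q g) = 0 := rfl
    simp only [mem_ofPred_eq, h3, abs_zero]
    linarith
  have hU2 : (⋂ g ∈ G, {a : WeakDual ℝ X | |a (Q g)| < ω / 2}) ∈ 𝓝 (0 : WeakDual ℝ X) :=
    (biInter_mem hG).2 fun g _ => hU g
  obtain ⟨η, hη, hN⟩ := NS.N_nhds r _ hU2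
  refine ⟨η, hη, fun t ht htN => ?_⟩
  refine Was_csup NS Φ Q t fun f hf => ?_
  obtain ⟨g, hgG, hfg⟩ := hnet f hf.1 hf.2
  have h1 : |t (Q g)| < ω / 2 := by
    have h2 := hN t ht htN
    exact (mem_iInter₂.1 h2) g hgG
  have h3 : |t (Q (f - g))| ≤ ω / 2 := by
    have hr : ‖t‖ ≤ |r| + 1 := (ht.trans (le_abs_self r)).trans (by linarith)
    have hq : ‖Q‖ ≤ ‖Q‖ + 1 := by linarith
    calc |t (Q (f - g))| = ‖t (Q (f - g))‖ := (Real.norm_eq_abs _).symm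
      _ ≤ ‖t‖ * ‖Q (f - g)‖ := t.le_opNorm _
      _ ≤ ‖t‖ * (‖Q‖ * ‖f - g‖) := mul_le_mul_of_nonneg_left (Q.le_opNorm _) (norm_nonneg _)
      _ ≤ (|r| + 1) * ((‖Q‖ + 1) * (ω / (2 * (|r| + 1) * (‖Q‖ + 1)))) := by
          gcongr
      _ = ω / 2 := by
          have h4 : |r| + 1 ≠ 0 := by
            have := abs_nonneg r
            positivity
          have h5 : ‖Q‖ + 1 ≠ 0 := by
            have := norm_nonneg Q
            positivity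
          field_simp
  have h6 : t (Q f) = t (Q g) + t (Q (f - g)) := by
    rw [map_sub, map_sub]
    ring
  rw [h6]
  calc |t (Q g) + t (Q (f - g))| ≤ |t (Q g)| + |t (Q (f - g))| := abs_add_le _ _
    _ ≤ ω / 2 + ω / 2 := add_le_add h1.le h3
    _ = ω := by ring

theorem exists_was (NS : NSys X) {T : Type} [TopologicalSpace T] [CompactSpace T] (Φ : T → StrongDual ℝ X)
    (hΦ : ∀ y, ‖Φ y‖ ≤ 1) (hc : Continuous fun y => StrongDual.toWeakDual (Φ y))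
    (Q : C(T, ℝ) →L[ℝ] X) (hQ : Q 1 = 0) :
    ∃ W : StrongDual ℝ X → ℝ, (∀ t, 0 ≤ W t) ∧ (∀ s t, W (s + t) ≤ W s + W t) ∧ (∀ t, W (-t) = W t) ∧
      (∀ (t : StrongDual ℝ X) (f : C(T, ℝ)) (w : ℝ), 0 ≤ w →
        (∀ y z, |f y - f z| ≤ w * NS.N (Φ y - Φ z)) → |t (Q f)| ≤ w * W t) ∧
      ∀ r ω : ℝ, 0 < ω → ∃ η > 0, ∀ t, ‖t‖ ≤ r → NS.N t ≤ η → W t ≤ ω := by
  refine ⟨Was_w NS Φ Q, fun t => (abs_nonneg _).trans (Was_le NS Φ Q t (Was_zero NS Φ)),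
    fun s t => ?_, fun t => ?_, fun t f w hw hf => Was_lip NS Φ hΦ Q hQ t f w hw hf,
    fun r ω hω => Was_small NS Φ hΦ hc Q r ω hω⟩
  · refine Was_csup NS Φ Q (s + t) fun f hf => ?_
    calc |(s + t) (Q f)| = |s (Q f) + t (Q f)| := rfl
      _ ≤ |s (Q f)| + |t (Q f)| := abs_add_le _ _
      _ ≤ Was_w NS Φ Q s + Was_w NS Φ Q t :=
        add_le_add (Was_le NS Φ Q s hf) (Was_le NS Φ Q t hf)
  · unfold Was_w
    congr 1
    refine image_congr fun f _ => ?_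
    have h1 : (-t) (Q f) = -(t (Q f)) := rfl
    rw [h1, abs_neg]

end Pool.Agent.H84.TC
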