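import Pool.Agent.H84.TC.MkA
import Pool.Agent.H84.TC.NTop
import Pool.Agent.H84.TC.Was

/-!
# Module MkB: the system (130 lines)

PROOF. `X` is separable: `‖x‖ = ‖P (J x)‖ ≤ ‖P‖ ‖J x‖`, so `J` is an embedding into the separable space `C(K₀, ℝ)` (second countable: instance; `Topology.IsInducing.secondCountableTopology` or `AntilipschitzWith`). `NS` from `exists_nsys`. `φ y` = the functional `x ↦ J x y` (`‖φ y‖ ≤ ‖J‖ ≤ 1`; weak*-continuous by
`WeakDual.continuous_of_continuous_eval`). `K = K₀ × Bool`, `sg true = 1`, `sg false = -1`, `Φ (y, b) = sg b • φ y`. `L₀` from `exists_ext φ P`. `L t h = L₀ t (fun y => (h (y, true) - h (y, false)) / 2)`; `q = ‖P‖`. `one`: `L₀ t 0 = 0`. `ev`: `L₀ t (fun y => (φ y x + φ y x)/2) = L₀ t (J x) = t (P (J x)) = t x`.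
`tight`: `Y = Y₀ ×ˢ univ`, `Φ '' Y ⊆ φ '' Y₀ ∪ -(φ '' Y₀)` totally bounded (image under the isometry `-`). `W` from `exists_was` with `T = K₀ × Bool`, `Q f = P ((f(·, true) - f(·, false))/2)` (a continuous linear map: `ContinuousMap.compRightContinuousMap` or `ContinuousLinearMap` of composition with the two
continuous maps `K₀ → K₀ × Bool`); `Q 1 = 0`; for Lipschitz `f` (`lip_cont`: continuous) `L t f = t (Q f)`.
-/

set_option autoImplicit false

open Set Filter Topology

namespace Pool.Agent.H84.TC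

variable {X : Type} [NormedAddCommGroup X] [NormedSpace ℝ X]

/-- composition with a continuous map -/
private noncomputable def MkB_pull {S T : Type} [TopologicalSpace S] [CompactSpace S] [TopologicalSpace T]
    [CompactSpace T] (g : C(S, T)) : C(T, ℝ) →L[ℝ] C(S, ℝ) :=
  LinearMap.mkContinuous
    { toFun := fun f => f.comp g
      map_add' := fun _ _ => rfl
      map_smul' := fun _ _ => rfl } 1
    (fun f => by
      rw [one_mul]
      exact (ContinuousMap.norm_le _ (norm_nonneg f)).2 fun y => f.norm_coe_le_norm (g y))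

private lemma MkB_pull_apply {S T : Type} [TopologicalSpace S] [CompactSpace S] [TopologicalSpace T]
    [CompactSpace T] (g : C(S, T)) (f : C(T, ℝ)) (y : S) : MkB_pull g f y = f (g y) := rfl

/-- the inclusions -/
private def MkB_inc {S : Type} [TopologicalSpace S] (b : Bool) : C(S, S × Bool) :=
  ⟨fun y => (y, b), continuous_id.prodMk continuous_const⟩

private def MkB_sg (b : Bool) : ℝ := if b then 1 else -1

private lemma MkB_sg_abs (b : Bool) : |MkB_sg b| = 1 := by
  cases b <;> simp [MkB_sg]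

/-- the odd part -/
private noncomputable def MkB_odd {S : Type} (h : S × Bool → ℝ) (y : S) : ℝ :=
  (h (y, true) - h (y, false)) / 2

private lemma MkB_odd_le {S : Type} {h : S × Bool → ℝ} {y : S} {b : ℝ} (h1 : |h (y, true)| ≤ b)
    (h2 : |h (y, false)| ≤ b) : |MkB_odd h y| ≤ b := by
  unfold MkB_odd
  rw [abs_le] at *
  constructor <;> linarith [h1.1, h1.2, h2.1, h2.2]

private lemma MkB_odd_bd {S : Type} {h : S × Bool → ℝ} (hh : Bd h) : Bd (MkB_odd h) := by
  obtain ⟨b, hb⟩ := hh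
  exact ⟨b, fun y => MkB_odd_le (hb _) (hb _)⟩

private lemma MkB_sep {K₀ : Type} [TopologicalSpace K₀] [CompactSpace K₀] [TopologicalSpace.MetrizableSpace K₀]
    (J : X →L[ℝ] C(K₀, ℝ)) (P : C(K₀, ℝ) →L[ℝ] X) (hP : ∀ x, P (J x) = x) :
    TopologicalSpace.SeparableSpace X := by
  let _ := TopologicalSpace.metrizableSpaceMetric K₀
  have h1 : AntilipschitzWith ‖P‖₊ J := by
    refine AddMonoidHomClass.antilipschitz_of_bound J fun x => ?_
    have h2 := P.le_opNorm (J x)
    rw [hP] at h2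
    exact h2
  have h3 := (h1.isUniformEmbedding J.uniformContinuous).isEmbedding
  have := h3.secondCountableTopology
  infer_instance

theorem exists_sys {K₀ : Type} [TopologicalSpace K₀] [CompactSpace K₀] [TopologicalSpace.MetrizableSpace K₀]
    [TopologicalSpace.SeparableSpace (StrongDual ℝ X)] (J : X →L[ℝ] C(K₀, ℝ)) (P : C(K₀, ℝ) →L[ℝ] X)
    (hP : ∀ x, P (J x) = x) (hJ : ‖J‖ ≤ 1) :
    ∃ (K : Type) (S : Sys X K), S.q = ‖P‖ := by
  classical
  have := MkB_sep J P hP
  obtain ⟨NS⟩ := exists_nsys (X := X)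
  let φ : K₀ → StrongDual ℝ X := fun y => (ContinuousMap.evalCLM ℝ y).comp J
  have hφa : ∀ y x, φ y x = J x y := fun y x => rfl
  have hφn : ∀ y, ‖φ y‖ ≤ 1 := by
    intro y
    refine ContinuousLinearMap.opNorm_le_bound _ zero_le_one fun x => ?_
    rw [hφa]
    calc ‖J x y‖ ≤ ‖J x‖ := (J x).norm_coe_le_norm y
      _ ≤ ‖J‖ * ‖x‖ := J.le_opNorm x
      _ ≤ 1 * ‖x‖ := mul_le_mul_of_nonneg_right hJ (norm_nonneg _)
  have hφc : Continuous fun y => StrongDual.toWeakDual (φ y) :=
    WeakDual.continuous_of_continuous_eval fun x => (J x).continuous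
  obtain ⟨L₀, hadd, hsm, haddr, hsmr, hbd, hev, htight⟩ := exists_ext φ hφc P
  let Φ : K₀ × Bool → StrongDual ℝ X := fun p => MkB_sg p.2 • φ p.1
  have hΦa : ∀ p x, Φ p x = MkB_sg p.2 * J x p.1 := fun p x => rfl
  have hΦn : ∀ p, ‖Φ p‖ ≤ 1 := by
    intro p
    show ‖MkB_sg p.2 • φ p.1‖ ≤ 1
    rw [norm_smul, Real.norm_eq_abs, MkB_sg_abs, one_mul]
    exact hφn _
  have hΦc : Continuous fun p => StrongDual.toWeakDual (Φ p) := by
    refine WeakDual.continuous_of_continuous_eval fun x => ?_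
    show Continuous fun p : K₀ × Bool => MkB_sg p.2 * J x p.1
    have h1 : Continuous MkB_sg := continuous_of_discreteTopology
    exact (h1.comp continuous_snd).mul ((J x).continuous.comp continuous_fst)
  let R : C(K₀ × Bool, ℝ) →L[ℝ] C(K₀, ℝ) :=
    (1 / 2 : ℝ) • (MkB_pull (MkB_inc true) - MkB_pull (MkB_inc false))
  let Q : C(K₀ × Bool, ℝ) →L[ℝ] X := P.comp R
  have hQa : ∀ (t : StrongDual ℝ X) (f : C(K₀ × Bool, ℝ)), L₀ t (MkB_odd f) = t (Q f) := by
    intro t f
    have h1 : MkB_odd f = fun y => (R f) y := by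
      funext y
      show (f (y, true) - f (y, false)) / 2 = (1 / 2 : ℝ) * (f (y, true) - f (y, false))
      ring
    rw [h1, hev]
    rfl
  have hQ1 : Q 1 = 0 := by
    have h1 : R 1 = 0 := by
      ext y
      show (1 / 2 : ℝ) * (1 - 1) = 0
      ring
    show P (R 1) = 0
    rw [h1, map_zero]
  obtain ⟨W, hW0, hWa, hWn, hWl, hWs⟩ := exists_was NS Φ hΦn hΦc Q hQ1
  have hone : ∀ t, L₀ t (MkB_odd fun _ : K₀ × Bool => 1) = 0 := by
    intro t
    have h1 : (MkB_odd fun _ : K₀ × Bool => 1) = fun y : K₀ => (0 : ℝ) * (fun _ : K₀ => (0 : ℝ)) y := by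
      funext y
      unfold MkB_odd
      ring
    rw [h1, hsmr 0 t (fun _ => (0 : ℝ)) ⟨0, fun _ => by simp⟩, zero_mul]
  refine ⟨K₀ × Bool, {
    toNSys := NS
    Φ := Φ
    hΦ := hΦn
    L := fun t h => L₀ t (MkB_odd h)
    add_l := fun s t h hh => hadd s t _ (MkB_odd_bd hh)
    smul_l := fun c t h hh => hsm c t _ (MkB_odd_bd hh)
    add_r := ?_
    smul_r := ?_
    one := hone
    q := ‖P‖
    hq := norm_nonneg P
    bd := fun t h b hb hh => hbd t _ b hb fun y => MkB_odd_le (hh _) (hh _)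
    ev := ?_
    tight := ?_
    W := W
    W_nonneg := hW0
    W_add := hWa
    W_neg := hWn
    W_lip := ?_
    W_small := hWs }, rfl⟩
  · intro t h g hh hg
    rw [← haddr t _ _ (MkB_odd_bd hh) (MkB_odd_bd hg)]
    congr 1
    funext y
    unfold MkB_odd
    ring
  · intro c t h hh
    rw [← hsmr c t _ (MkB_odd_bd hh)]
    congr 1
    funext y
    unfold MkB_odd
    ring
  · intro t x
    have h1 : (MkB_odd fun y : K₀ × Bool => Φ y x) = fun y => J x y := by
      funext y
      show (MkB_sg true * J x y - MkB_sg false * J x y) / 2 = J x y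
      simp [MkB_sg]
    rw [h1, hev, hP]
  · intro t ε hε
    obtain ⟨Y, hY, H⟩ := htight t ε hε
    refine ⟨{p | p.1 ∈ Y}, ?_, fun h hh η hη hhY => ?_⟩
    · have h1 : TotallyBounded ((fun v : StrongDual ℝ X => -v) '' (φ '' Y)) :=
        hY.image uniformContinuous_neg
      refine (hY.union h1).subset ?_
      rintro _ ⟨⟨y, b⟩, hy, rfl⟩
      cases b
      · refine Or.inr ⟨φ y, ⟨y, hy, rfl⟩, ?_⟩
        show -φ y = MkB_sg false • φ y
        exact (neg_one_smul ℝ (φ y)).symm
      · refine Or.inl ⟨y, hy, ?_⟩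
        show φ y = MkB_sg true • φ y
        exact (one_smul ℝ (φ y)).symm
    · exact H _ (fun y => MkB_odd_le (hh _) (hh _)) η hη fun y hy =>
        MkB_odd_le (hhY (y, true) hy) (hhY (y, false) hy)
  · intro t f w hw hf
    have hc := lip_cont NS Φ hΦn hΦc hw hf
    have h1 := hWl t ⟨f, hc⟩ w hw hf
    rw [← hQa] at h1
    exact h1

end Pool.Agent.H84.TC
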