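import Pool.Agent.H84.TC.EndM
import Pool.Agent.H84.TC.MkB
import Pool.Agent.H84.TC.Ell

/-!
# Module Main: Theorem C (100 lines)

PROOF. `rep_of_emb`, `sep_of_rep`. Let `κ > 0` be small, `c = ‖J‖ + κ`, `J' = c⁻¹ • J` (`‖J'‖ ≤ 1`), `P' = c • P`: `P' J' = id`; `exists_sys` gives `S` with `q = ‖P'‖ = c ‖P‖`. `end_main` with `θ > 0` small gives `A'`. `L = ↥(toWeakDual '' A')` (countable, compact: `isCompact_iff_compactSpace`, Hausdorff),
`T' x = (2+θ)⁻¹ • (the function a ↦ a x on L)` (`‖T' x‖ ≤ ‖x‖`, a continuous linear map with `LinearMap.mkContinuous`, continuity of `a ↦ a x`: `WeakDual.eval_continuous`). With `M = (2+θ) ‖T' x‖`: `(1 - θ) ‖x‖ ≤ q/2 ((2+θ) ‖T' x‖ + θ ‖x‖)`, i.e. `(1 - θ - q θ/2) ‖x‖ ≤ q (1 + θ/2) ‖T' x‖`.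
`q ≤ (‖J‖ + κ) ‖P‖`. Choose `κ` with `κ ‖P‖ ≤ ε/2`, then `θ ≤ 1` with `q (1 + θ/2) ≤ (‖J‖ ‖P‖ + ε)(1 - θ - q θ/2)` (true at `θ = 0` with strict inequality `q < ‖J‖‖P‖ + ε`; e.g. `θ = min (1/2) (ε / (4 (q + 1 + ‖J‖‖P‖ + ε)^2))`, or by continuity: `ContinuousAt.eventually_lt`-type argument).
-/

set_option autoImplicit false

open Set Filter Topology

namespace Pool.Agent.H84.TC

variable {X : Type} [NormedAddCommGroup X] [NormedSpace ℝ X]

theorem thmC {K₀ : Type} [TopologicalSpace K₀] [CompactSpace K₀] [TopologicalSpace.MetrizableSpace K₀]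
    (J : X →L[ℝ] C(K₀, ℝ)) (P : C(K₀, ℝ) →L[ℝ] X) (hP : ∀ x, P (J x) = x)
    {L₀ : Type} [TopologicalSpace L₀] [CompactSpace L₀] [T2Space L₀] [Countable L₀]
    (T : X →L[ℝ] C(L₀, ℝ)) {D : ℝ} (hT : ∀ x, ‖x‖ ≤ D * ‖T x‖) {ε : ℝ} (hε : 0 < ε) :
    ∃ (L : Type) (_ : TopologicalSpace L) (_ : CompactSpace L) (_ : T2Space L) (_ : Countable L)
      (S : X →L[ℝ] C(L, ℝ)), ∀ x, ‖S x‖ ≤ ‖x‖ ∧ ‖x‖ ≤ (‖J‖ * ‖P‖ + ε) * ‖S x‖ := by
  have hD' : ∀ x, ‖x‖ ≤ |D| * ‖T x‖ := fun x =>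
    (hT x).trans (mul_le_mul_of_nonneg_right (le_abs_self D) (norm_nonneg _))
  obtain ⟨A, hA, hR⟩ := rep_of_emb T (abs_nonneg D) hD'
  have := sep_of_rep hA.1 hR
  have hJ0 := norm_nonneg J
  have hP0 := norm_nonneg P
  obtain ⟨κ, hκ0, hκ⟩ : ∃ κ : ℝ, 0 < κ ∧ κ * ‖P‖ ≤ ε / 2 := by
    refine ⟨ε / (2 * (‖P‖ + 1)), by positivity, ?_⟩
    rw [div_mul_eq_mul_div, div_le_div_iff₀ (by positivity) (by norm_num)]
    nlinarith
  obtain ⟨c, hc⟩ : ∃ c : ℝ, c = ‖J‖ + κ := ⟨_, rfl⟩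
  have hc0 : 0 < c := by linarith
  have hJ' : ‖c⁻¹ • J‖ ≤ 1 := by
    refine ContinuousLinearMap.opNorm_le_bound _ zero_le_one fun x => ?_
    have h1 := J.le_opNorm x
    have h2 : ‖(c⁻¹ • J) x‖ = c⁻¹ * ‖J x‖ := by
      rw [smul_apply, norm_smul, norm_inv, Real.norm_of_nonneg hc0.le]
    rw [h2, one_mul, inv_mul_le_iff₀ hc0]
    refine h1.trans (mul_le_mul_of_nonneg_right ?_ (norm_nonneg x))
    linarith
  have hP' : ∀ x, (c • P) ((c⁻¹ • J) x) = x := by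
    intro x
    rw [smul_apply, smul_apply, map_smul, hP, smul_smul,
      mul_inv_cancel₀ hc0.ne', one_smul]
  obtain ⟨K, S, hS⟩ := exists_sys (c⁻¹ • J) (c • P) hP' hJ'
  have hSq : S.q ≤ c * ‖P‖ := by
    rw [hS]
    refine ContinuousLinearMap.opNorm_le_bound _ (by positivity) fun f => ?_
    have h1 := P.le_opNorm f
    rw [smul_apply, norm_smul, Real.norm_of_nonneg hc0.le, mul_assoc]
    exact mul_le_mul_of_nonneg_left h1 hc0.le
  have hq := S.hq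
  obtain ⟨B, hB⟩ : ∃ B : ℝ, B = ‖J‖ * ‖P‖ + ε := ⟨_, rfl⟩
  have hBε : ε ≤ B := by
    have := mul_nonneg hJ0 hP0
    linarith
  have hB0 : 0 < B := lt_of_lt_of_le hε hBε
  have hqB : S.q ≤ B - ε / 2 := by
    rw [hc] at hSq
    rw [hB]
    nlinarith
  obtain ⟨θ, hθ0, hθ1, hθ2⟩ : ∃ θ : ℝ, 0 < θ ∧ 0 < 1 - θ - S.q * θ / 2 ∧
      S.q * (1 + θ / 2) ≤ B * (1 - θ - S.q * θ / 2) := by
    have hd : 0 < S.q + 2 * B + B * S.q := by positivity
    refine ⟨ε / (S.q + 2 * B + B * S.q), by positivity, ?_, ?_⟩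
    · have e : 1 - ε / (S.q + 2 * B + B * S.q) - S.q * (ε / (S.q + 2 * B + B * S.q)) / 2 =
          (2 * (S.q + 2 * B + B * S.q) - 2 * ε - S.q * ε) / (2 * (S.q + 2 * B + B * S.q)) := by
        field_simp
      rw [e]
      apply div_pos _ (by positivity)
      nlinarith [mul_le_mul_of_nonneg_left hBε hq]
    · have e : B * (1 - ε / (S.q + 2 * B + B * S.q) - S.q * (ε / (S.q + 2 * B + B * S.q)) / 2) -
          S.q * (1 + ε / (S.q + 2 * B + B * S.q) / 2) = B - S.q - ε / 2 := by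
        field_simp
        ring
      linarith
  obtain ⟨A', hA', hA'1, hA'2⟩ := end_main S hA (abs_nonneg D) hR hθ0
  have hcomp : CompactSpace ↥(StrongDual.toWeakDual '' A') :=
    isCompact_iff_compactSpace.1 hA'.2.1
  have h2θ : 0 < 2 + θ := by linarith
  obtain ⟨R, hR1, hR2⟩ : ∃ R : X →L[ℝ] C(↥(StrongDual.toWeakDual '' A'), ℝ),
      (∀ x, ‖R x‖ ≤ ‖x‖) ∧ ∀ x, ∀ l, (R x) l = (2 + θ)⁻¹ * (l.1 x) := by
    have hcont : ∀ x : X, Continuous fun l : ↥(StrongDual.toWeakDual '' A') =>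
        (2 + θ)⁻¹ * (l.1 x) := fun x =>
      continuous_const.mul ((WeakDual.eval_continuous x).comp continuous_subtype_val)
    have hbd : ∀ x : X, ‖(⟨fun l => (2 + θ)⁻¹ * (l.1 x), hcont x⟩ :
        C(↥(StrongDual.toWeakDual '' A'), ℝ))‖ ≤ 1 * ‖x‖ := by
      intro x
      rw [one_mul, ContinuousMap.norm_le _ (norm_nonneg x)]
      rintro ⟨l, a, ha, rfl⟩
      have h1 := a.le_opNorm x
      have h2 := hA'1 a ha
      have h3 : ‖a x‖ ≤ (2 + θ) * ‖x‖ :=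
        h1.trans (mul_le_mul_of_nonneg_right h2 (norm_nonneg x))
      have h4 : ‖(2 + θ)⁻¹ * a x‖ ≤ ‖x‖ := by
        rw [norm_mul, norm_inv, Real.norm_of_nonneg h2θ.le, inv_mul_le_iff₀ h2θ]
        exact h3
      exact h4
    refine ⟨LinearMap.mkContinuous
      { toFun := fun x => ⟨fun l => (2 + θ)⁻¹ * (l.1 x), hcont x⟩
        map_add' := fun x y => by
          ext l
          have h := map_add l.1 x y
          simp only [ContinuousMap.coe_mk, ContinuousMap.add_apply]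
          rw [h, mul_add]
        map_smul' := fun r x => by
          ext l
          have h := map_smul l.1 r x
          simp only [ContinuousMap.coe_mk, ContinuousMap.smul_apply, RingHom.id_apply]
          rw [h, smul_eq_mul, smul_eq_mul]
          ring } 1 hbd, fun x => ?_, fun x l => rfl⟩
    have h := hbd x
    rw [one_mul] at h
    exact h
  refine ⟨↥(StrongDual.toWeakDual '' A'), inferInstance, hcomp, inferInstance,
    (hA'.1.image _).to_subtype, R, fun x => ⟨hR1 x, ?_⟩⟩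
  rw [← hB]
  have hx := hA'2 x ((2 + θ) * ‖R x‖) (by positivity) (fun a ha => by
    have h1 := (R x).norm_coe_le_norm ⟨StrongDual.toWeakDual a, a, ha, rfl⟩
    rw [hR2, norm_mul, norm_inv, Real.norm_of_nonneg h2θ.le, inv_mul_le_iff₀ h2θ] at h1
    exact h1)
  have h3 : (1 - θ - S.q * θ / 2) * ‖x‖ ≤ (1 - θ - S.q * θ / 2) * (B * ‖R x‖) := by
    have h4 := mul_le_mul_of_nonneg_right hθ2 (norm_nonneg (R x))
    nlinarith
  exact le_of_mul_le_mul_left h3 hθ1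

end Pool.Agent.H84.TC
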