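import Pool.Agent.H84.TC.Defs
import Pool.Agent.H87.CS.Rie

/-!
# Module Mea: the measures of the functionals (140 lines)

PROOF. For every `μ : C(K₀, ℝ) →L[ℝ] ℝ` choose `(μ₁, μ₂)` by `Pool.Agent.H87.CS.signed_riesz`; `J μ h = ∫ h dμ₁ - ∫ h dμ₂`. `norm_le`: `|J μ h| ≤ ‖μ‖ b` for measurable `h`, `|h| ≤ b`: for `ε > 0` there is a continuous `f` with `∫ |h - f| d(μ₁ + μ₂) ≤ ε` (density of bounded continuous functions in
`L¹` of a finite measure on a compact metrizable space: `MeasureTheory.Memℒp.exists_boundedContinuous_eLpNorm_sub_le` / `Integrable.exists_boundedContinuous_integral_sub_le`), replaced by the truncation `max (-b) (min b f)` (closer to `h`), then `|J μ h| ≤ |μ f| + ε ≤ ‖μ‖ b + ε`.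
Linearity in `μ`: `J (μ + ν) h = J μ h + J ν h` for measurable bounded `h`: the finite measures `(μ+ν)₁ + μ₂ + ν₂` and `(μ+ν)₂ + μ₁ + ν₁` have the same integrals of continuous functions, so they are equal (`MeasureTheory.ext_of_forall_integral_eq_of_IsFiniteMeasure`), then `integral_add_measure`.
(Or: the approximation argument once more: both sides are continuous for `∫ |h - f| d(sum of all the measures)`.) The same for `c • μ`. `I t h = J (t ∘ P) h`; `‖t ∘ P‖ ≤ ‖t‖ ‖P‖`. The last statement: `μ = μ₁ + μ₂`, `|∫ h dμ₁ - ∫ h dμ₂| ≤ ∫ |h| dμ₁ + ∫ |h| dμ₂`.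
-/

set_option autoImplicit false

open Set Filter Topology MeasureTheory

namespace Pool.Agent.H84.TC

variable {X : Type} [NormedAddCommGroup X] [NormedSpace ℝ X]

section Aux

variable {K₀ : Type} [TopologicalSpace K₀] [CompactSpace K₀] [TopologicalSpace.MetrizableSpace K₀]
  [MeasurableSpace K₀] [BorelSpace K₀]

private lemma Mea_int (ν : Measure K₀) [IsFiniteMeasure ν] {h : K₀ → ℝ} (hm : Measurable h)
    (hb : Bd h) : Integrable h ν := by
  obtain ⟨b, hb⟩ := hb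
  exact Integrable.of_bound hm.aestronglyMeasurable b (Eventually.of_forall fun y => by
    rw [Real.norm_eq_abs]; exact hb y)

private lemma Mea_bd (f : C(K₀, ℝ)) : Bd (fun y => f y) :=
  ⟨‖f‖, fun y => by rw [← Real.norm_eq_abs]; exact f.norm_coe_le_norm y⟩

private lemma Mea_clip {b u v : ℝ} (h1 : -b ≤ u) (h2 : u ≤ b) :
    |u - max (-b) (min b v)| ≤ |u - v| := by
  rcases abs_cases (u - v) with ⟨e, _⟩ | ⟨e, _⟩ <;> rw [e, abs_le] <;>
    constructor <;> rcases max_cases (-b) (min b v) with ⟨e1, _⟩ | ⟨e1, _⟩ <;>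
    rcases min_cases b v with ⟨e2, _⟩ | ⟨e2, _⟩ <;> rw [e1] <;> linarith

/-- approximation by continuous functions -/
private lemma Mea_app (ν : Measure K₀) [IsFiniteMeasure ν] {h : K₀ → ℝ} (hm : Measurable h) {b : ℝ}
    (hb0 : 0 ≤ b) (hb : ∀ y, |h y| ≤ b) {ε : ℝ} (hε : 0 < ε) :
    ∃ f : C(K₀, ℝ), (∀ y, |f y| ≤ b) ∧ ∫ y, |h y - f y| ∂ν ≤ ε := by
  letI := TopologicalSpace.metrizableSpaceMetric K₀
  have hi := Mea_int ν hm ⟨b, hb⟩
  obtain ⟨g, hg, hgi⟩ := hi.exists_boundedContinuous_integral_sub_le hε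
  refine ⟨⟨fun y => max (-b) (min b (g y)), continuous_const.max (continuous_const.min g.continuous)⟩,
    fun y => ?_, ?_⟩
  · change |max (-b) (min b (g y))| ≤ b
    rw [abs_le]
    exact ⟨le_max_left _ _, max_le (by linarith) (min_le_left _ _)⟩
  · refine le_trans (integral_mono_of_nonneg (Eventually.of_forall fun y => abs_nonneg _)
      (hi.sub hgi).norm (Eventually.of_forall fun y => ?_)) hg
    change |h y - max (-b) (min b (g y))| ≤ ‖h y - g y‖
    rw [Real.norm_eq_abs]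
    have h1 := abs_le.1 (hb y)
    exact Mea_clip h1.1 h1.2

private lemma Mea_sub (ν : Measure K₀) [IsFiniteMeasure ν] {h : K₀ → ℝ} (hm : Measurable h)
    (hb : Bd h) (f : C(K₀, ℝ)) :
    |∫ y, h y ∂ν - ∫ y, f y ∂ν| ≤ ∫ y, |h y - f y| ∂ν := by
  rw [← integral_sub (Mea_int ν hm hb) (Mea_int ν f.continuous.measurable (Mea_bd f))]
  exact abs_integral_le_integral_abs

private lemma Mea_mono (ν : Measure K₀) {ν' : Measure K₀} [IsFiniteMeasure ν'] (hν : ν ≤ ν')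
    {h : K₀ → ℝ} (hm : Measurable h) (hb : Bd h) (f : C(K₀, ℝ)) :
    ∫ y, |h y - f y| ∂ν ≤ ∫ y, |h y - f y| ∂ν' :=
  integral_mono_measure hν (Eventually.of_forall fun y => abs_nonneg _)
    ((Mea_int ν' hm hb).sub (Mea_int ν' f.continuous.measurable (Mea_bd f))).abs

/-- a linear relation between integrals which holds for continuous functions holds for bounded
measurable functions -/
private lemma Mea_lin {n : ℕ} (c : Fin n → ℝ) (ν : Fin n → Measure K₀) (hν : ∀ i, IsFiniteMeasure (ν i))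
    (H : ∀ f : C(K₀, ℝ), ∑ i, c i * ∫ y, f y ∂(ν i) = 0) {h : K₀ → ℝ} (hm : Measurable h)
    (hb : Bd h) : ∑ i, c i * ∫ y, h y ∂(ν i) = 0 := by
  obtain ⟨ν', hν'⟩ : ∃ ν' : Measure K₀, ν' = ∑ i, ν i := ⟨_, rfl⟩
  have hf : IsFiniteMeasure ν' := by
    rw [hν']
    refine ⟨?_⟩
    rw [Measure.coe_finsetSum, Finset.sum_apply]
    exact ENNReal.sum_lt_top.2 fun i _ => (hν i).measure_univ_lt_top
  have hle : ∀ i, ν i ≤ ν' := fun i => by
    rw [hν', ← Finset.add_sum_erase _ _ (Finset.mem_univ i)]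
    exact Measure.le_add_right le_rfl
  obtain ⟨b, hb'⟩ := hb
  have hb0 : ∀ y, |h y| ≤ |b| := fun y => (hb' y).trans (le_abs_self b)
  have hB : Bd h := ⟨b, hb'⟩
  obtain ⟨S, hS⟩ : ∃ S : ℝ, S = ∑ i, |c i| := ⟨_, rfl⟩
  have hS0 : 0 ≤ S := by rw [hS]; exact Finset.sum_nonneg fun i _ => abs_nonneg _
  have key : ∀ ε : ℝ, 0 < ε → |∑ i, c i * ∫ y, h y ∂(ν i)| ≤ S * ε := by
    intro ε hε
    obtain ⟨f, -, hf2⟩ := Mea_app ν' hm (abs_nonneg b) hb0 hε
    have h1 : ∑ i, c i * ∫ y, h y ∂(ν i) =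
        ∑ i, c i * (∫ y, h y ∂(ν i) - ∫ y, f y ∂(ν i)) := by
      simp only [mul_sub, Finset.sum_sub_distrib]
      rw [H f, sub_zero]
    rw [h1, hS, Finset.sum_mul]
    refine (Finset.abs_sum_le_sum_abs _ _).trans (Finset.sum_le_sum fun i _ => ?_)
    rw [abs_mul]
    refine mul_le_mul_of_nonneg_left ?_ (abs_nonneg _)
    haveI := hν i
    exact (Mea_sub (ν i) hm hB f).trans ((Mea_mono (ν i) (hle i) hm hB f).trans hf2)
  have h2 : |∑ i, c i * ∫ y, h y ∂(ν i)| ≤ 0 := by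
    refine le_of_forall_pos_le_add fun ε hε => ?_
    have h3 := key (ε / (S + 1)) (by positivity)
    have h4 : S * (ε / (S + 1)) ≤ ε := by
      rw [mul_div_assoc', div_le_iff₀ (by positivity)]
      nlinarith
    linarith
  exact abs_eq_zero.1 (le_antisymm h2 (abs_nonneg _))

private lemma Mea_six (a₁ a₂ b₁ b₂ c₁ c₂ : Measure K₀) [IsFiniteMeasure a₁] [IsFiniteMeasure a₂]
    [IsFiniteMeasure b₁] [IsFiniteMeasure b₂] [IsFiniteMeasure c₁] [IsFiniteMeasure c₂]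
    (H : ∀ f : C(K₀, ℝ), ∫ y, f y ∂a₁ - ∫ y, f y ∂a₂ =
      (∫ y, f y ∂b₁ - ∫ y, f y ∂b₂) + (∫ y, f y ∂c₁ - ∫ y, f y ∂c₂)) {h : K₀ → ℝ}
    (hm : Measurable h) (hb : Bd h) : ∫ y, h y ∂a₁ - ∫ y, h y ∂a₂ =
      (∫ y, h y ∂b₁ - ∫ y, h y ∂b₂) + (∫ y, h y ∂c₁ - ∫ y, h y ∂c₂) := by
  have h1 := Mea_lin ![1, -1, -1, 1, -1, 1] ![a₁, a₂, b₁, b₂, c₁, c₂]
    (fun i => by fin_cases i <;> simp <;> infer_instance) (fun f => by
      have e1 := H f
      simp only [Fin.sum_univ_six]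
      simp
      linarith) hm hb
  simp only [Fin.sum_univ_six] at h1
  simp at h1
  linarith

private lemma Mea_four (c : ℝ) (a₁ a₂ b₁ b₂ : Measure K₀) [IsFiniteMeasure a₁] [IsFiniteMeasure a₂]
    [IsFiniteMeasure b₁] [IsFiniteMeasure b₂]
    (H : ∀ f : C(K₀, ℝ), ∫ y, f y ∂a₁ - ∫ y, f y ∂a₂ = c * (∫ y, f y ∂b₁ - ∫ y, f y ∂b₂))
    {h : K₀ → ℝ} (hm : Measurable h) (hb : Bd h) :
    ∫ y, h y ∂a₁ - ∫ y, h y ∂a₂ = c * (∫ y, h y ∂b₁ - ∫ y, h y ∂b₂) := by
  have h1 := Mea_lin ![1, -1, -c, c] ![a₁, a₂, b₁, b₂]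
    (fun i => by fin_cases i <;> simp <;> infer_instance) (fun f => by
      have e1 := H f
      simp only [Fin.sum_univ_four]
      simp
      linarith) hm hb
  simp only [Fin.sum_univ_four] at h1
  simp at h1
  linarith

end Aux

theorem exists_mea {K₀ : Type} [TopologicalSpace K₀] [CompactSpace K₀] [TopologicalSpace.MetrizableSpace K₀]
    [MeasurableSpace K₀] [BorelSpace K₀] (P : C(K₀, ℝ) →L[ℝ] X) :
    ∃ I : StrongDual ℝ X → (K₀ → ℝ) → ℝ,
      (∀ s t h, Measurable h → Bd h → I (s + t) h = I s h + I t h) ∧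
      (∀ (c : ℝ) t h, Measurable h → Bd h → I (c • t) h = c * I t h) ∧
      (∀ t h g, Measurable h → Bd h → Measurable g → Bd g → I t (fun y => h y + g y) = I t h + I t g) ∧
      (∀ (c : ℝ) t h, Measurable h → Bd h → I t (fun y => c * h y) = c * I t h) ∧
      (∀ t h b, Measurable h → 0 ≤ b → (∀ y, |h y| ≤ b) → |I t h| ≤ ‖P‖ * ‖t‖ * b) ∧
      (∀ t (f : C(K₀, ℝ)), I t (fun y => f y) = t (P f)) ∧
      ∀ t, ∃ μ : Measure K₀, IsFiniteMeasure μ ∧ ∀ h, Measurable h → Bd h → |I t h| ≤ ∫ y, |h y| ∂μ := by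
  choose m₁ m₂ f₁ f₂ hr using fun μ : C(K₀, ℝ) →L[ℝ] ℝ => Pool.Agent.H87.CS.signed_riesz μ
  refine ⟨fun t h => ∫ y, h y ∂(m₁ (t.comp P)) - ∫ y, h y ∂(m₂ (t.comp P)), ?_, ?_, ?_, ?_, ?_, ?_, ?_⟩
  · intro s t h hm hb
    haveI := f₁
    haveI := f₂
    refine Mea_six _ _ _ _ _ _ (fun f => ?_) hm hb
    rw [← hr, ← hr, ← hr]
    rfl
  · intro c t h hm hb
    haveI := f₁
    haveI := f₂
    refine Mea_four _ _ _ _ _ (fun f => ?_) hm hb
    rw [← hr, ← hr]
    rfl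
  · intro t h g hm hb hm' hb'
    haveI := f₁ (t.comp P)
    haveI := f₂ (t.comp P)
    change ∫ y, (h y + g y) ∂(m₁ (t.comp P)) - ∫ y, (h y + g y) ∂(m₂ (t.comp P)) = _
    rw [integral_add (Mea_int _ hm hb) (Mea_int _ hm' hb'),
      integral_add (Mea_int _ hm hb) (Mea_int _ hm' hb')]
    ring
  · intro c t h hm hb
    change ∫ y, c * h y ∂(m₁ (t.comp P)) - ∫ y, c * h y ∂(m₂ (t.comp P)) = _
    rw [integral_const_mul, integral_const_mul]
    ring
  · intro t h b hm hb0 hb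
    haveI := f₁ (t.comp P)
    haveI := f₂ (t.comp P)
    change |∫ y, h y ∂(m₁ (t.comp P)) - ∫ y, h y ∂(m₂ (t.comp P))| ≤ _
    refine le_of_forall_pos_le_add fun ε hε => ?_
    obtain ⟨f, hf1, hf2⟩ := Mea_app (m₁ (t.comp P) + m₂ (t.comp P)) hm hb0 hb hε
    have hB : Bd h := ⟨b, hb⟩
    have hi : ∀ ν : Measure K₀, IsFiniteMeasure ν → Integrable (fun y => |h y - f y|) ν := fun ν hν => by
      haveI := hν
      exact ((Mea_int ν hm hB).sub (Mea_int ν f.continuous.measurable (Mea_bd f))).abs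
    rw [integral_add_measure (hi _ (f₁ _)) (hi _ (f₂ _))] at hf2
    have h1 := Mea_sub (m₁ (t.comp P)) hm hB f
    have h2 := Mea_sub (m₂ (t.comp P)) hm hB f
    have h3 : |(t.comp P) f| ≤ ‖P‖ * ‖t‖ * b := by
      have h4 : ‖f‖ ≤ b := (ContinuousMap.norm_le f hb0).2 fun y => by
        rw [Real.norm_eq_abs]; exact hf1 y
      calc |(t.comp P) f| = ‖(t.comp P) f‖ := (Real.norm_eq_abs _).symm
        _ ≤ ‖t.comp P‖ * ‖f‖ := (t.comp P).le_opNorm f
        _ ≤ (‖t‖ * ‖P‖) * b := mul_le_mul (t.opNorm_comp_le P) h4 (norm_nonneg _) (by positivity)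
        _ = _ := by ring
    have h5 := hr (t.comp P) f
    rw [h5] at h3
    rw [abs_le] at h1 h2 h3 ⊢
    constructor <;> linarith [h1.1, h1.2, h2.1, h2.2, h3.1, h3.2]
  · intro t f
    exact (hr (t.comp P) f).symm
  · intro t
    haveI := f₁ (t.comp P)
    haveI := f₂ (t.comp P)
    refine ⟨m₁ (t.comp P) + m₂ (t.comp P), inferInstance, fun h hm hb => ?_⟩
    have hi : ∀ ν : Measure K₀, IsFiniteMeasure ν → Integrable (fun y => |h y|) ν := fun ν hν => by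
      haveI := hν
      exact (Mea_int ν hm hb).abs
    rw [integral_add_measure (hi _ (f₁ _)) (hi _ (f₂ _))]
    exact (abs_sub _ _).trans (add_le_add abs_integral_le_integral_abs abs_integral_le_integral_abs)

end Pool.Agent.H84.TC
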