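import Pool.Agent.H84.TC.Defs

/-!
# Module Tgt: norm totally bounded sets of large measure (70 lines)

PROOF. `v j` dense in the separable space `StrongDual ℝ X`. `B k j = {y | ‖φ y - v j‖ ≤ 1/(k+1)}` is closed in `K₀` (preimage of the weak*-closed ball `WeakDual.isClosed_closedBall (v j) (1/(k+1))` under the continuous map), measurable, and `⋃ j, B k j = univ`. So for every `k` there is `n k` with
`μ (⋃ j < n k, B k j)ᶜ ≤ ε 2^(-k-1)` (continuity of the finite measure `μ` along the decreasing complements, `tendsto_measure_iInter_atTop`). `Y = ⋂ k, ⋃ j < n k, B k j`: `μ Yᶜ ≤ ∑ ε 2^(-k-1) = ε` (`measure_iUnion_le`, `ENNReal` geometric sum), `φ '' Y` is covered for every `k` by finitely many balls of radius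
`2/(k+1)` (`Metric.totallyBounded_iff`).
-/

set_option autoImplicit false

open Set Filter Topology MeasureTheory

namespace Pool.Agent.H84.TC

variable {X : Type} [NormedAddCommGroup X] [NormedSpace ℝ X]

theorem exists_tgt {K₀ : Type} [TopologicalSpace K₀] [MeasurableSpace K₀] [BorelSpace K₀]
    [TopologicalSpace.SeparableSpace (StrongDual ℝ X)] (φ : K₀ → StrongDual ℝ X)
    (hφ : Continuous fun y => StrongDual.toWeakDual (φ y)) (μ : Measure K₀) [IsFiniteMeasure μ]
    {ε : ℝ} (hε : 0 < ε) :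
    ∃ Y : Set K₀, MeasurableSet Y ∧ TotallyBounded (φ '' Y) ∧ (μ Yᶜ).toReal ≤ ε := by
  classical
  obtain ⟨v, hv⟩ := TopologicalSpace.exists_dense_seq (StrongDual ℝ X)
  let B : ℕ → ℕ → Set K₀ := fun k j => {y | ‖φ y - v j‖ ≤ 1 / ((k : ℝ) + 1)}
  have hBc : ∀ k j, IsClosed (B k j) := by
    intro k j
    have h1 := (WeakDual.isClosed_closedBall (v j) (1 / ((k : ℝ) + 1))).preimage hφ
    have h2 : B k j = (fun y => StrongDual.toWeakDual (φ y)) ⁻¹'
        (WeakDual.toStrongDual ⁻¹' Metric.closedBall (v j) (1 / ((k : ℝ) + 1))) := by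
      ext y
      show ‖φ y - v j‖ ≤ 1 / ((k : ℝ) + 1) ↔ dist (φ y) (v j) ≤ 1 / ((k : ℝ) + 1)
      rw [dist_eq_norm]
    rw [h2]
    exact h1
  have hkpos : ∀ k : ℕ, (0 : ℝ) < 1 / ((k : ℝ) + 1) := fun k => by positivity
  let C : ℕ → ℕ → Set K₀ := fun k n => ⋃ j ∈ Finset.range n, B k j
  have hCm : ∀ k n, MeasurableSet (C k n) := fun k n =>
    Finset.measurableSet_biUnion _ fun j _ => (hBc k j).measurableSet
  have hCanti : ∀ k, Antitone fun n => (C k n)ᶜ := by
    intro k n m hnm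
    apply compl_subset_compl.mpr
    intro y hy
    simp only [C, mem_iUnion, Finset.mem_range, exists_prop] at hy ⊢
    obtain ⟨j, hj, hy⟩ := hy
    exact ⟨j, lt_of_lt_of_le hj hnm, hy⟩
  have hCall : ∀ k, (⋂ n, (C k n)ᶜ) = ∅ := by
    intro k
    rw [eq_empty_iff_forall_notMem]
    intro y hy
    rw [mem_iInter] at hy
    obtain ⟨j, hj⟩ := hv.exists_dist_lt (φ y) (hkpos k)
    apply hy (j + 1)
    simp only [C, mem_iUnion, Finset.mem_range, exists_prop]
    refine ⟨j, Nat.lt_succ_self j, ?_⟩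
    show ‖φ y - v j‖ ≤ 1 / ((k : ℝ) + 1)
    rw [← dist_eq_norm]
    exact hj.le
  obtain ⟨δ, hδ, hδs⟩ := ENNReal.exists_pos_sum_of_countable
    (ENNReal.ofReal_pos.mpr hε).ne' ℕ
  have hn : ∀ k, ∃ n, μ (C k n)ᶜ < δ k := by
    intro k
    have h1 := tendsto_measure_iInter_atTop (μ := μ) (s := fun n => (C k n)ᶜ)
      (fun n => (hCm k n).compl.nullMeasurableSet) (hCanti k) ⟨0, measure_ne_top μ _⟩
    rw [hCall k, measure_empty] at h1
    have h2 : (0 : ENNReal) < (δ k : ENNReal) := by exact_mod_cast hδ k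
    exact (h1.eventually (gt_mem_nhds h2)).exists
  choose n hn using hn
  refine ⟨⋂ k, C k (n k), MeasurableSet.iInter fun k => hCm k (n k), ?_, ?_⟩
  · rw [Metric.totallyBounded_iff]
    intro r hr
    obtain ⟨k, hk⟩ := exists_nat_one_div_lt hr
    refine ⟨v '' (Finset.range (n k) : Set ℕ), (Finset.finite_toSet _).image v, ?_⟩
    rintro x ⟨y, hy, rfl⟩
    have h1 := mem_iInter.mp hy k
    simp only [C, mem_iUnion, Finset.mem_range, exists_prop] at h1
    obtain ⟨j, hj, hyj⟩ := h1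
    simp only [mem_iUnion, exists_prop]
    refine ⟨v j, ⟨j, by simpa using hj, rfl⟩, ?_⟩
    rw [Metric.mem_ball, dist_eq_norm]
    have hyj : ‖φ y - v j‖ ≤ 1 / ((k : ℝ) + 1) := hyj
    exact lt_of_le_of_lt hyj hk
  · apply ENNReal.toReal_le_of_le_ofReal hε.le
    rw [compl_iInter]
    calc μ (⋃ k, (C k (n k))ᶜ) ≤ ∑' k, μ (C k (n k))ᶜ := measure_iUnion_le _
      _ ≤ ∑' k, (δ k : ENNReal) := ENNReal.tsum_le_tsum fun k => (hn k).le
      _ ≤ ENNReal.ofReal ε := hδs.le

end Pool.Agent.H84.TC
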