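import Pool.Agent.H84.TC.Ext
import Pool.Agent.H84.TC.Mea
import Pool.Agent.H84.TC.Tgt

/-!
# Module MkA: the extended functionals on `K₀` (130 lines)

PROOF. Give `K₀` its Borel structure. `I` from `exists_mea`; `(ι, U, r)` from `ext_ultra K₀`. `L t h = ulim U (fun i => I t (fun y => h (r i y)))`; for bounded `h` the family is bounded by `‖P‖ ‖t‖ b` (`|h (r i y)| ≤ b`), all `h ∘ r i` are measurable. Linearity: `ulim_tendsto`, `Tendsto.add`, `Tendsto.const_mul`, `ulim_eq`.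
Bound: `ulim_abs_le`. Continuous `f` (more generally bounded measurable): `|I t (f ∘ r i) - I t f| ≤ ‖P‖ ‖t‖ κ` as soon as `|f (r i y) - f y| ≤ κ` for all `y` (`unif`), so `I t (f ∘ r i) → I t f = t (P f)`.
Tightness: `μ` from the last part of `exists_mea`, `Y` from `exists_tgt` with `ε/2`. Let `|h| ≤ 2`, `|h| ≤ η` on `Y`. For eventually all `i`: `r i y ∈ Y ↔ y ∈ Y`. For such `i`: `g = h ∘ r i`, `I t g = I t (g 1_Y) + I t (g 1_(Yᶜ))` (`Set.indicator`, measurable), `|I t (g 1_Y)| ≤ ‖P‖ ‖t‖ η`, `|I t (g 1_(Yᶜ))| ≤ ∫ |g| 1_(Yᶜ) dμ ≤ 2 μ(Yᶜ) ≤ ε`.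
`ulim_abs_le`.
-/

set_option autoImplicit false

open Set Filter Topology MeasureTheory

namespace Pool.Agent.H84.TC

variable {X : Type} [NormedAddCommGroup X] [NormedSpace ℝ X]

theorem exists_ext {K₀ : Type} [TopologicalSpace K₀] [CompactSpace K₀] [TopologicalSpace.MetrizableSpace K₀]
    [TopologicalSpace.SeparableSpace (StrongDual ℝ X)] (φ : K₀ → StrongDual ℝ X)
    (hφ : Continuous fun y => StrongDual.toWeakDual (φ y)) (P : C(K₀, ℝ) →L[ℝ] X) :
    ∃ L : StrongDual ℝ X → (K₀ → ℝ) → ℝ,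
      (∀ s t h, Bd h → L (s + t) h = L s h + L t h) ∧
      (∀ (c : ℝ) t h, Bd h → L (c • t) h = c * L t h) ∧
      (∀ t h g, Bd h → Bd g → L t (fun y => h y + g y) = L t h + L t g) ∧
      (∀ (c : ℝ) t h, Bd h → L t (fun y => c * h y) = c * L t h) ∧
      (∀ t h b, 0 ≤ b → (∀ y, |h y| ≤ b) → |L t h| ≤ ‖P‖ * ‖t‖ * b) ∧
      (∀ t (f : C(K₀, ℝ)), L t (fun y => f y) = t (P f)) ∧
      ∀ t, ∀ ε > 0, ∃ Y : Set K₀, TotallyBounded (φ '' Y) ∧ ∀ h : K₀ → ℝ, (∀ y, |h y| ≤ 2) →
        ∀ η, 0 ≤ η → (∀ y ∈ Y, |h y| ≤ η) → |L t h| ≤ ‖P‖ * ‖t‖ * η + ε := by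
  classical
  letI : MeasurableSpace K₀ := borel K₀
  haveI : BorelSpace K₀ := ⟨rfl⟩
  obtain ⟨I, hadd, hsm, haddr, hsmr, hbd, hev, hmu⟩ := exists_mea P
  obtain ⟨ι, U, r, hrm, hr⟩ := ext_ultra K₀
  have hBr : ∀ (h : K₀ → ℝ) (i : ι), Bd h → Bd fun y => h (r i y) :=
    fun h i ⟨b, hb⟩ => ⟨b, fun y => hb _⟩
  have hbound : ∀ t (h : K₀ → ℝ), Bd h → ∃ c : ℝ, ∀ i, |I t (fun y => h (r i y))| ≤ c := by
    rintro t h ⟨b, hb⟩
    exact ⟨‖P‖ * ‖t‖ * |b|, fun i => hbd t _ |b| (hrm i h) (abs_nonneg b)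
      fun y => (hb _).trans (le_abs_self b)⟩
  have htend : ∀ t (h : K₀ → ℝ), Bd h → Tendsto (fun i => I t (fun y => h (r i y)))
      (U : Filter ι) (𝓝 (ulim U fun i => I t (fun y => h (r i y)))) := by
    intro t h hh
    obtain ⟨c, hc⟩ := hbound t h hh
    exact ulim_tendsto U hc
  refine ⟨fun t h => ulim U fun i => I t (fun y => h (r i y)), ?_, ?_, ?_, ?_, ?_, ?_, ?_⟩
  · intro s t h hh
    refine ulim_eq U ?_
    have h1 := (htend s h hh).add (htend t h hh)
    refine h1.congr fun i => ?_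
    exact (hadd s t _ (hrm i h) (hBr h i hh)).symm
  · intro c t h hh
    refine ulim_eq U ?_
    have h1 := (htend t h hh).const_mul c
    refine h1.congr fun i => ?_
    exact (hsm c t _ (hrm i h) (hBr h i hh)).symm
  · intro t h g hh hg
    refine ulim_eq U ?_
    have h1 := (htend t h hh).add (htend t g hg)
    refine h1.congr fun i => ?_
    exact (haddr t _ _ (hrm i h) (hBr h i hh) (hrm i g) (hBr g i hg)).symm
  · intro c t h hh
    refine ulim_eq U ?_
    have h1 := (htend t h hh).const_mul c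
    refine h1.congr fun i => ?_
    exact (hsmr c t _ (hrm i h) (hBr h i hh)).symm
  · intro t h b hb hh
    have h1 : ∀ i, |I t (fun y => h (r i y))| ≤ ‖P‖ * ‖t‖ * b :=
      fun i => hbd t _ b (hrm i h) hb fun y => hh _
    exact ulim_abs_le U h1 (Filter.Eventually.of_forall h1)
  · intro t f
    refine ulim_eq U ?_
    have hfm : Measurable fun y => f y := f.continuous.measurable
    have hfb : ∀ y, |f y| ≤ ‖f‖ := fun y => f.norm_coe_le_norm y
    have hfB : Bd fun y => f y := ⟨‖f‖, hfb⟩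
    have hfB' : Bd fun y => (-1 : ℝ) * f y := ⟨‖f‖, fun y => by
      rw [abs_mul, abs_neg, abs_one, one_mul]; exact hfb y⟩
    rw [Metric.tendsto_nhds]
    intro ε hε
    set q : ℝ := ‖P‖ * ‖t‖ with hq
    have hq0 : 0 ≤ q := by positivity
    have hκ : 0 < ε / (2 * (q + 1)) := by positivity
    refine (unif hr hfm hfb hκ).mono fun i hi => ?_
    have e1 : I t (fun y => f (r i y)) - t (P f) = I t (fun y => f (r i y) + (-1 : ℝ) * f y) := by
      rw [haddr t _ _ (hrm i fun y => f y) (hBr _ i hfB) (hfm.const_mul _) hfB',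
        hsmr (-1) t _ hfm hfB, hev]
      ring
    rw [Real.dist_eq, e1]
    have h2 := hbd t (fun y => f (r i y) + (-1 : ℝ) * f y) (ε / (2 * (q + 1)))
      ((hrm i fun y => f y).add (hfm.const_mul _)) hκ.le (fun y => by
        have := hi y
        rwa [neg_one_mul, ← sub_eq_add_neg])
    refine h2.trans_lt ?_
    rw [← hq, mul_div_assoc', div_lt_iff₀ (by positivity)]
    nlinarith
  · intro t ε hε
    obtain ⟨μ, hμ, hμI⟩ := hmu t
    obtain ⟨Y, hYm, hYt, hYμ⟩ := exists_tgt φ hφ μ (half_pos hε)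
    refine ⟨Y, hYt, fun h hh η hη hhY => ?_⟩
    have hB : Bd h := ⟨2, hh⟩
    obtain ⟨c, hc⟩ := hbound t h hB
    refine ulim_abs_le U hc ?_
    refine (hr Y hYm).mono fun i hi => ?_
    set g : K₀ → ℝ := fun y => h (r i y) with hg
    have hgm : Measurable g := hrm i h
    have hg2 : ∀ y, |g y| ≤ 2 := fun y => hh _
    have hm1 : Measurable (Y.indicator g) := hgm.indicator hYm
    have hm2 : Measurable (Yᶜ.indicator g) := hgm.indicator hYm.compl
    have hb1 : ∀ y, |Y.indicator g y| ≤ η := by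
      intro y
      by_cases hy : y ∈ Y
      · rw [Set.indicator_of_mem hy]
        exact hhY _ ((hi y).2 hy)
      · rw [Set.indicator_of_notMem hy, abs_zero]
        exact hη
    have hb2 : ∀ y, |Yᶜ.indicator g y| ≤ 2 := by
      intro y
      by_cases hy : y ∈ Yᶜ
      · rw [Set.indicator_of_mem hy]
        exact hg2 y
      · rw [Set.indicator_of_notMem hy, abs_zero]
        norm_num
    have e1 : (fun y => Y.indicator g y + Yᶜ.indicator g y) = g := by
      funext y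
      by_cases hy : y ∈ Y
      · rw [Set.indicator_of_mem hy, Set.indicator_of_notMem (Set.notMem_compl_iff.2 hy), add_zero]
      · rw [Set.indicator_of_notMem hy, Set.indicator_of_mem hy, zero_add]
    have e2 := haddr t (Y.indicator g) (Yᶜ.indicator g) hm1 ⟨η, hb1⟩ hm2 ⟨2, hb2⟩
    rw [e1] at e2
    rw [e2]
    refine (abs_add_le _ _).trans (add_le_add (hbd t _ η hm1 hη hb1) ?_)
    refine (hμI _ hm2 ⟨2, hb2⟩).trans ?_
    have h3 : ∫ y, |Yᶜ.indicator g y| ∂μ ≤ ∫ y, Yᶜ.indicator (fun _ => (2 : ℝ)) y ∂μ := by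
      refine integral_mono_of_nonneg (Filter.Eventually.of_forall fun y => abs_nonneg _) ?_
        (Filter.Eventually.of_forall fun y => ?_)
      · exact (integrable_const (2 : ℝ)).indicator hYm.compl
      · by_cases hy : y ∈ Yᶜ
        · simp only [Set.indicator_of_mem hy]
          exact hg2 y
        · simp only [Set.indicator_of_notMem hy, abs_zero, le_refl]
    refine h3.trans ?_
    rw [integral_indicator_const _ hYm.compl, smul_eq_mul, Measure.real]
    linarith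

end Pool.Agent.H84.TC
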