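import Pool.Agent.H84.TC.Sup

/-!
# Module Red: reduction of the constant, restriction of the relation (70 lines)

PROOF of `ctrl_pow`. Let `g`, `δ`, `w` be as in `Ctrl` for the relation `Pow S E J`. `sup_conv` with `M = δ` (`g z ≤ g y + δ + w d y z` from the absolute value, `d_comm` not needed) gives `H`. `|L t H| ≤ ε + C c + w (W t + ε)` (`Ctrl` for `E`, with
`δ := c`), `|L t (H - g)| ≤ q ‖t‖ / 2 * δ` (`Sys.osc`), `L t g = L t H - L t (H - g)` (`Sys.sub_r`); `w (W t + ε) ≤ w (W t + (ε + C c))`.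

PROOF of `ctrl_restr`. Let `g`, `δ`, `w` be as in `Ctrl` for the restricted relation. On `E` with `d y z > ρ`: `|g y - g z| ≤ 2 ≤ (2/ρ) d y z`; so on `E`: `|g y - g z| ≤ δ + (w + 2/ρ) d y z`. `Ctrl` for `E` with `w + 2/ρ`:
`|L t g| ≤ ε + C δ + (w + 2/ρ)(W t + ε) = ε' + C δ + w (W t + ε)`, `ε' = ε + (2/ρ)(W t + ε) ≥ ε`.
-/

set_option autoImplicit false

open Set Filter Topology

namespace Pool.Agent.H84.TC

variable {X : Type} [NormedAddCommGroup X] [NormedSpace ℝ X] {K : Type}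

theorem ctrl_pow {S : Sys X K} {E : K → K → Prop} (hE : ∀ y z, E y z → E z y) {ε C c : ℝ}
    {t : StrongDual ℝ X} (h : Ctrl S E ε C t) (hC : 0 ≤ C) (hc : 0 < c) {J : ℕ} (hJ : 2 ≤ J * c) :
    Ctrl S (Pow S E J) (ε + C * c) (S.q * ‖t‖ / 2) t := by
  intro g hg δ w hδ hw hh
  have hp : ∀ y z, Pow S E J y z → g z ≤ g y + δ + w * S.d y z := by
    intro y z hyz
    have h1 := (abs_le.1 (hh y z hyz)).1
    linarith
  obtain ⟨H, hH1, hH2, hH3, hH4⟩ := sup_conv S hE hg hc hw hδ hJ hp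
  have h1 := h H hH1 c w hc.le hw hH4
  have h2 := S.osc (t := t) (g := fun y => H y - g y) hδ (fun y => by linarith [hH2 y])
    (fun y => by linarith [hH3 y])
  have h3 := S.sub_r (t := t) (h := H) (g := g) ⟨1, hH1⟩ ⟨1, hg⟩
  rw [h3] at h2
  have h4 : w * (S.W t + ε) ≤ w * (S.W t + (ε + C * c)) :=
    mul_le_mul_of_nonneg_left (by linarith [mul_nonneg hC hc.le]) hw
  have h5 := abs_le.1 h1
  have h6 := abs_le.1 h2
  exact abs_le.2 ⟨by linarith [h5.1, h6.2], by linarith [h5.2, h6.1]⟩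

theorem ctrl_restr {S : Sys X K} {E : K → K → Prop} {ε C ρ : ℝ} {t : StrongDual ℝ X}
    (h : Ctrl S E ε C t) (hε : 0 ≤ ε) (hρ : 0 < ρ) :
    Ctrl S (fun y z => E y z ∧ S.d y z ≤ ρ) (ε + 2 / ρ * (S.W t + ε)) C t := by
  intro g hg δ w hδ hw hh
  have hr : 0 < 2 / ρ := by positivity
  have hW : 0 ≤ S.W t + ε := add_nonneg (S.W_nonneg t) hε
  have h1 := h g hg δ (w + 2 / ρ) hδ (by linarith) (by
    intro y z hyz
    have hd := S.d_nonneg y z
    rcases le_or_gt (S.d y z) ρ with h2 | h2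
    · have h3 := hh y z ⟨hyz, h2⟩
      have h4 : 0 ≤ 2 / ρ * S.d y z := mul_nonneg hr.le hd
      linarith
    · have h3 : 2 ≤ 2 / ρ * S.d y z := by
        rw [div_mul_eq_mul_div, le_div_iff₀ hρ]
        linarith
      have h4 : 0 ≤ w * S.d y z := mul_nonneg hw hd
      have h5 := abs_le.1 (hg y)
      have h6 := abs_le.1 (hg z)
      exact abs_le.2 ⟨by linarith [h5.1, h6.2], by linarith [h5.2, h6.1]⟩)
  have h2 : w * (S.W t + ε) ≤ w * (S.W t + (ε + 2 / ρ * (S.W t + ε))) :=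
    mul_le_mul_of_nonneg_left (by linarith [mul_nonneg hr.le hW]) hw
  linarith

end Pool.Agent.H84.TC
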