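import Pool.Agent.H84.TC.Glue

/-!
# Module Scat: countable weak*-compact sets are good (130 lines)

PROOF. `F' = toWeakDual '' F`. Call `b ∈ F'` fine if there is an open `O ∋ b` of `WeakDual ℝ X` with `Good S {f ∈ F | toWeakDual f ∈ O}`. (i) If `Q ⊆ F'` is compact and all its points are fine, then `{f ∈ F | toWeakDual f ∈ Q}` is good (`IsCompact.induction_on` with `good_union`, `Good.mono`).
(ii) `G = {b ∈ F' | b not fine}` is closed in `F'` (relatively), so compact and countable. Suppose it is nonempty. A nonempty countable compact Hausdorff space has an isolated point (Baire: `nonempty_interior_of_iUnion_of_closed` for the singletons in the subtype `G`, which is a compact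
Hausdorff space, so a Baire space): there are `b ∈ G` and an open `O ∋ b` with `G ∩ O = {b}`. (iii) `F'` is compact Hausdorff (`WeakDual` is T2): there is an open `O₁ ∋ b` with `closure O₁ ∩ F' ⊆ O` (e.g. separate `b` from the compact set `F' \ O` by disjoint open sets: `IsCompact.separation`-type lemma).
`F₁ = {f ∈ F | toWeakDual f ∈ closure O₁}`. For `η > 0`: `N_cont` gives `U ∈ 𝓝 0` with `N (f - b) < η` for `f ∈ F`, `f - b ∈ U` (use `η/2`); the set `Q = F' ∩ closure O₁ ∩ {x | x - b ∉ interior U}` is compact and `⊆ O \ {b}`, so all its points are fine, and by (i) and `Good.mono`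
`{f ∈ F₁ | η ≤ N (f-b)}` is good. By `glue` `F₁` is good, so `b` is fine: contradiction. Hence all points of `F'` are fine and (i) with `Q = F'` gives the theorem.
-/

set_option autoImplicit false

open Set Filter Topology

namespace Pool.Agent.H84.TC

variable {X : Type} [NormedAddCommGroup X] [NormedSpace ℝ X] {K : Type}

/-- the elements of `F` in a set of the weak* dual -/
private def Scat_P (F : Set (StrongDual ℝ X)) (O : Set (WeakDual ℝ X)) : Set (StrongDual ℝ X) :=
  {f | f ∈ F ∧ StrongDual.toWeakDual f ∈ O}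

private theorem Scat_empty (S : Sys X K) : Good S (∅ : Set (StrongDual ℝ X)) := by
  intro v ε _
  refine ⟨fun _ _ => False, ⟨fun _ _ h => h, fun θ _ => ⟨∅, ⟨countable_empty, ?_, 0, ?_⟩, ?_⟩⟩,
    0, le_rfl, ?_⟩
  · rw [image_empty]
    exact isCompact_empty
  · intro a ha
    exact ha.elim
  · intro y z h
    exact h.elim
  · intro f hf
    exact hf.elim

private theorem Scat_cpt (S : Sys X K) {F : Set (StrongDual ℝ X)} {Q : Set (WeakDual ℝ X)}
    (hQ : IsCompact Q)
    (hf : ∀ b ∈ Q, ∃ O : Set (WeakDual ℝ X), IsOpen O ∧ b ∈ O ∧ Good S (Scat_P F O)) :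
    Good S (Scat_P F Q) := by
  refine hQ.induction_on (p := fun O => Good S (Scat_P F O)) ?_ ?_ ?_ ?_
  · refine (Scat_empty S).mono ?_
    rintro f ⟨-, hf⟩
    exact hf.elim
  · intro s t hst ht
    exact ht.mono fun f hf => ⟨hf.1, hst hf.2⟩
  · intro s t hs ht
    refine (good_union hs ht).mono ?_
    rintro f ⟨hf, h | h⟩
    · exact Or.inl ⟨hf, h⟩
    · exact Or.inr ⟨hf, h⟩
  · intro x hx
    obtain ⟨O, hO, hxO, hg⟩ := hf x hx
    exact ⟨O, mem_nhdsWithin_of_mem_nhds (hO.mem_nhds hxO), hg⟩

/-- a nonempty countable compact set has an isolated point -/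
private theorem Scat_iso {Y : Type} [TopologicalSpace Y] [T2Space Y] {G : Set Y}
    (hG : IsCompact G) (hc : G.Countable) (hne : G.Nonempty) :
    ∃ b ∈ G, ∃ O : Set Y, IsOpen O ∧ b ∈ O ∧ ∀ x ∈ G, x ∈ O → x = b := by
  have : CompactSpace G := isCompact_iff_compactSpace.1 hG
  have : Countable G := hc.to_subtype
  have : Nonempty G := hne.to_subtype
  obtain ⟨b, hb⟩ := nonempty_interior_of_iUnion_of_closed (X := G) (f := fun b : G => ({b} : Set G))
    (fun b => isClosed_singleton) (by
      ext x
      simp)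
  obtain ⟨x, hx⟩ := hb
  obtain ⟨V, hV, hVo, hxV⟩ := mem_interior.1 hx
  have hxb : x = b := hV hxV
  obtain ⟨O, hO, hOV⟩ := isOpen_induced_iff.1 hVo
  refine ⟨b, b.2, O, hO, ?_, ?_⟩
  · have : x ∈ Subtype.val ⁻¹' O := by rw [hOV]; exact hxV
    rw [← hxb]
    exact this
  · intro y hy hyO
    have h1 : (⟨y, hy⟩ : G) ∈ V := by
      rw [← hOV]
      exact hyO
    have h2 : (⟨y, hy⟩ : G) = b := hV h1
    rw [← h2]

theorem scat (S : Sys X K) {F : Set (StrongDual ℝ X)} (hF : CC F) : Good S F := by
  obtain ⟨hFc, hFk, r, hr⟩ := hF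
  set F' := StrongDual.toWeakDual '' F with hF'
  let Fine : WeakDual ℝ X → Prop := fun b =>
    ∃ O : Set (WeakDual ℝ X), IsOpen O ∧ b ∈ O ∧ Good S (Scat_P F O)
  have hall : ∀ b ∈ F', Fine b := by
    by_contra hcon
    push Not at hcon
    obtain ⟨b0, hb0, hb0n⟩ := hcon
    set G : Set (WeakDual ℝ X) := F' \ {b | Fine b} with hGdef
    have hopen : IsOpen {b | Fine b} := by
      rw [isOpen_iff_forall_mem_open]
      rintro b ⟨O, hO, hbO, hg⟩
      exact ⟨O, fun x hx => ⟨O, hO, hx, hg⟩, hO, hbO⟩
    have hGk : IsCompact G := hFk.diff hopen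
    have hGc : G.Countable := (hFc.image _).mono sdiff_subset
    obtain ⟨b, hbG, O, hO, hbO, hiso⟩ := Scat_iso hGk hGc ⟨b0, hb0, hb0n⟩
    have hdiff : IsCompact (F' \ O) := hFk.diff hO
    obtain ⟨O₁, V, hO₁, hV, hbO₁, hVF, hdis⟩ :=
      SeparatedNhds.of_isCompact_isCompact (isCompact_singleton (x := b)) hdiff (by
        rw [disjoint_singleton_left]
        exact fun h => h.2 hbO)
    have hcl : ∀ x ∈ F', x ∈ closure O₁ → x ∈ O := by
      intro x hx hxc
      by_contra hxO
      have h1 : Disjoint (closure O₁) V := hdis.closure_left hV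
      exact (Set.disjoint_left.1 h1) hxc (hVF ⟨hx, hxO⟩)
    set b' : StrongDual ℝ X := WeakDual.toStrongDual b with hb'
    have hbb : StrongDual.toWeakDual b' = b := rfl
    have hglue : Good S (Scat_P F (closure O₁)) := by
      refine glue S (r := r) (fun f hf => hr f hf.1) b' ?_
      intro η hη
      obtain ⟨U, hU, hUN⟩ := S.N_cont (r + ‖b'‖) (η / 2) (by linarith)
      set Q : Set (WeakDual ℝ X) := (F' ∩ closure O₁) ∩ {x | x - b ∉ interior U} with hQ
      have hcont : Continuous fun x : WeakDual ℝ X => x - b := continuous_id.sub continuous_const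
      have hQc : IsCompact Q := by
        refine (hFk.inter_right isClosed_closure).inter_right ?_
        have : {x : WeakDual ℝ X | x - b ∉ interior U} = (fun x => x - b) ⁻¹' (interior U)ᶜ := rfl
        rw [this]
        exact (isOpen_interior.isClosed_compl).preimage hcont
      have hQf : ∀ x ∈ Q, Fine x := by
        rintro x ⟨⟨hxF, hxc⟩, hxU⟩
        by_contra hxn
        have hxb : x = b := hiso x ⟨hxF, hxn⟩ (hcl x hxF hxc)
        apply hxU
        rw [hxb, sub_self]
        exact mem_interior_iff_mem_nhds.2 hU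
      refine (Scat_cpt S hQc hQf).mono ?_
      rintro f ⟨⟨hfF, hfc⟩, hfη⟩
      refine ⟨hfF, ⟨⟨f, hfF, rfl⟩, hfc⟩, ?_⟩
      intro hfU
      have h1 : StrongDual.toWeakDual (f - b') ∈ U := by
        rw [map_sub, hbb]
        exact interior_subset hfU
      have h2 := hUN (f - b') ((norm_sub_le _ _).trans (by have := hr f hfF; linarith)) h1
      linarith
    exact hbG.2 ⟨O₁, hO₁, hbO₁ rfl, hglue.mono fun f hf => ⟨hf.1, subset_closure hf.2⟩⟩
  exact (Scat_cpt S hFk hall).mono fun f hf => ⟨hf, f, hf, rfl⟩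

end Pool.Agent.H84.TC
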