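import Pool.Agent.H84.TC.CCl

/-!
# Module Sml: small relations (110 lines)

`small_or`: union of the two sets (`cc_union`). `small_pow`: induction on `J` (a path of length `≤ J+1` from `y` to `z` is trivial or an `E`-step followed by a path of length `≤ J`): for `θ > 0` take `A` for `E` and `θ/(2(J+1))` or simply `θ/2`, `B` for `Pow S E J` and `θ/2`;
the set `{0} ∪ B ∪ {a + b}` works (`Φ y - Φ z = (Φ y - Φ x) + (Φ x - Φ z)`; `cc_finite`, `cc_union`, `cc_add`). Symmetry of `Pow`: reverse a path (lemma: `Path S E k y x s → E x z → ∃ s', Path S E (k+1) y z s'` by induction; then reverse by induction, the cost is existential).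
`small_iUnion`: let `θ > 0`; `θ_n = min (min θ 1) (|ρ n| + 1/(n+1)) > 0`, `A_n` for `E n` and `θ_n`, `B_n = {a ∈ A_n | N a ≤ |ρ n| + θ_n ∧ ‖a‖ ≤ 3}` (`cc_cut`). If `E n y z` then `v = Φ y - Φ z` has `N v = d y z ≤ ρ n`, `‖v‖ ≤ 2` (`hΦ`), the `a ∈ A_n` with `‖v - a‖ ≤ θ_n`
has `N a ≤ N v + N (v - a) ≤ |ρ n| + θ_n` (`N_sub`-type, `N_le`), `‖a‖ ≤ 2 + θ_n ≤ 3`. `{0} ∪ ⋃ B_n` is `CC` by `cc_null` (`|ρ n| + θ_n ≤ 2|ρ n| + 1/(n+1) → 0`).
-/

set_option autoImplicit false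

open Set Filter Topology

namespace Pool.Agent.H84.TC

variable {X : Type} [NormedAddCommGroup X] [NormedSpace ℝ X] {K : Type}

theorem small_sub {S : Sys X K} {E E' : K → K → Prop} (h : Small S E) (hs : ∀ y z, E' y z → E' z y)
    (hE : ∀ y z, E' y z → E y z) : Small S E' := by
  refine ⟨hs, fun θ hθ => ?_⟩
  obtain ⟨A, hA, hA2⟩ := h.2 θ hθ
  exact ⟨A, hA, fun y z hyz => hA2 y z (hE y z hyz)⟩

theorem small_or {S : Sys X K} {E E' : K → K → Prop} (h : Small S E) (h' : Small S E') :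
    Small S (fun y z => E y z ∨ E' y z) := by
  refine ⟨fun y z hyz => hyz.imp (h.1 y z) (h'.1 y z), fun θ hθ => ?_⟩
  obtain ⟨A, hA, hA2⟩ := h.2 θ hθ
  obtain ⟨B, hB, hB2⟩ := h'.2 θ hθ
  refine ⟨A ∪ B, cc_union hA hB, fun y z hyz => ?_⟩
  rcases hyz with hyz | hyz
  · obtain ⟨a, ha, ha2⟩ := hA2 y z hyz
    exact ⟨a, Or.inl ha, ha2⟩
  · obtain ⟨a, ha, ha2⟩ := hB2 y z hyz
    exact ⟨a, Or.inr ha, ha2⟩

private lemma sml_snoc {S : Sys X K} {E : K → K → Prop} {k : ℕ} {y x : K} {s : ℝ}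
    (hp : Path S E k y x s) : ∀ z, E x z → ∃ s', Path S E (k + 1) y z s' := by
  induction hp with
  | nil y => exact fun z hz => ⟨_, Path.cons hz (Path.nil z)⟩
  | cons h hp ih =>
    intro z hz
    obtain ⟨s', hs'⟩ := ih z hz
    exact ⟨_, Path.cons h hs'⟩

private lemma sml_rev {S : Sys X K} {E : K → K → Prop} (hE : ∀ y z, E y z → E z y) {k : ℕ} {y x : K}
    {s : ℝ} (hp : Path S E k y x s) : ∃ s', Path S E k x y s' := by
  induction hp with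
  | nil y => exact ⟨_, Path.nil y⟩
  | cons h hp ih =>
    obtain ⟨s', hs'⟩ := ih
    exact sml_snoc hs' _ (hE _ _ h)

theorem small_pow {S : Sys X K} {E : K → K → Prop} (h : Small S E) (J : ℕ) : Small S (Pow S E J) := by
  have hsym : ∀ J : ℕ, ∀ y z, Pow S E J y z → Pow S E J z y := by
    rintro J y z ⟨k, hk, s, hs⟩
    obtain ⟨s', hs'⟩ := sml_rev h.1 hs
    exact ⟨k, hk, s', hs'⟩
  induction J with
  | zero =>
    refine ⟨hsym 0, fun θ hθ => ⟨{0}, cc_finite (Set.finite_singleton 0), ?_⟩⟩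
    rintro y z ⟨k, hk, s, hs⟩
    cases hs with
    | nil => exact ⟨0, rfl, by simpa using hθ.le⟩
    | cons h1 hp => omega
  | succ J ih =>
    refine ⟨hsym (J + 1), fun θ hθ => ?_⟩
    obtain ⟨A, hA, hA2⟩ := h.2 (θ / 2) (by linarith)
    obtain ⟨B, hB, hB2⟩ := ih.2 (θ / 2) (by linarith)
    refine ⟨{0} ∪ {c | ∃ a ∈ A, ∃ b ∈ B, c = a + b},
      cc_union (cc_finite (Set.finite_singleton 0)) (cc_add hA hB), ?_⟩
    rintro y z ⟨k, hk, s, hs⟩
    cases hs with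
    | nil => exact ⟨0, Or.inl rfl, by simpa using hθ.le⟩
    | cons h1 hp =>
      rename_i x k s
      obtain ⟨a, ha, ha2⟩ := hA2 _ _ h1
      obtain ⟨b, hb, hb2⟩ := hB2 _ _ (⟨k, by omega, s, hp⟩ : Pow S E J x z)
      refine ⟨a + b, Or.inr ⟨a, ha, b, hb, rfl⟩, ?_⟩
      have e : S.Φ y - S.Φ z - (a + b) = (S.Φ y - S.Φ x - a) + (S.Φ x - S.Φ z - b) := by abel
      rw [e]
      exact (norm_add_le _ _).trans (by linarith)

theorem small_iUnion {S : Sys X K} {E : ℕ → K → K → Prop} {ρ : ℕ → ℝ} (h : ∀ n, Small S (E n))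
    (hρ : Tendsto ρ atTop (𝓝 0)) (hE : ∀ n y z, E n y z → S.d y z ≤ ρ n) :
    Small S (fun y z => ∃ n, E n y z) := by
  refine ⟨fun y z ⟨n, hn⟩ => ⟨n, (h n).1 y z hn⟩, fun θ hθ => ?_⟩
  set t : ℕ → ℝ := fun n => min (min θ 1) (|ρ n| + 1 / ((n : ℝ) + 1)) with ht
  have htp : ∀ n, 0 < t n := by
    intro n
    have h1 : (0 : ℝ) < 1 / ((n : ℝ) + 1) := by positivity
    have h2 := abs_nonneg (ρ n)
    exact lt_min (lt_min hθ one_pos) (by linarith)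
  have htθ : ∀ n, t n ≤ θ := fun n => (min_le_left _ _).trans (min_le_left _ _)
  have ht1 : ∀ n, t n ≤ 1 := fun n => (min_le_left _ _).trans (min_le_right _ _)
  choose A hA hA2 using fun n => (h n).2 (t n) (htp n)
  have hB : ∀ n, CC {a | a ∈ A n ∧ S.N a ≤ |ρ n| + t n ∧ ‖a‖ ≤ 3} := fun n =>
    cc_cut S.toNSys (hA n) (|ρ n| + t n) 3
  have hρ' : Tendsto (fun n => |ρ n|) atTop (𝓝 0) := by
    have := hρ.abs
    rwa [abs_zero] at this
  have htt : Tendsto t atTop (𝓝 0) := by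
    have h1 : Tendsto (fun n : ℕ => |ρ n| + 1 / ((n : ℝ) + 1)) atTop (𝓝 0) := by
      have := hρ'.add (tendsto_one_div_add_atTop_nhds_zero_nat (𝕜 := ℝ))
      rwa [add_zero] at this
    exact tendsto_of_tendsto_of_tendsto_of_le_of_le tendsto_const_nhds h1 (fun n => (htp n).le)
      (fun n => min_le_right _ _)
  have hsum : Tendsto (fun n => |ρ n| + t n) atTop (𝓝 0) := by
    have := hρ'.add htt
    rwa [add_zero] at this
  refine ⟨{0} ∪ ⋃ n, {a | a ∈ A n ∧ S.N a ≤ |ρ n| + t n ∧ ‖a‖ ≤ 3},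
    cc_null S.toNSys hB (fun n a ha => ha.2.2) (fun n a ha => ha.2.1) hsum, ?_⟩
  rintro y z ⟨n, hn⟩
  obtain ⟨a, ha, ha2⟩ := hA2 n y z hn
  refine ⟨a, Or.inr (Set.mem_iUnion.2 ⟨n, ha, ?_, ?_⟩), ha2.trans (htθ n)⟩
  · have h1 : S.N a ≤ S.N (S.Φ y - S.Φ z) + S.N (S.Φ y - S.Φ z - a) := by
      have := S.N_sub (S.Φ y - S.Φ z) (S.Φ y - S.Φ z - a)
      rwa [sub_sub_cancel] at this
    have h2 : S.N (S.Φ y - S.Φ z) ≤ |ρ n| := (hE n y z hn).trans (le_abs_self _)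
    have h3 := (S.N_le (S.Φ y - S.Φ z - a)).trans ha2
    linarith
  · have h1 : ‖a‖ ≤ ‖S.Φ y - S.Φ z‖ + ‖S.Φ y - S.Φ z - a‖ := by
      have := norm_sub_le (S.Φ y - S.Φ z) (S.Φ y - S.Φ z - a)
      rwa [sub_sub_cancel] at this
    have h2 : ‖S.Φ y - S.Φ z‖ ≤ ‖S.Φ y‖ + ‖S.Φ z‖ := norm_sub_le _ _
    have h3 := S.hΦ y
    have h4 := S.hΦ z
    have h5 := ht1 n
    linarith

end Pool.Agent.H84.TC
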