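import Pool.Agent.H84.TC.Red
import Pool.Agent.H84.TC.Sml

/-!
# Module Shell: the shells around a point (130 lines)

PROOF. `R = r + ‖b‖` (so `‖f - b‖ ≤ R` on `F`). For every `n` let `η' n` be from `W_small R (1/(n+1)^2)`; `η n` = the minimum of `η' k`, `k ≤ n`, and of `1/(n+1)`: positive, antitone, tends to `0`, and `‖t‖ ≤ R`, `N t ≤ η n` imply `W t ≤ 1/(n+1)^2`.
(Construct `η` by recursion: `η 0 = min (η' 0) 1`, `η (n+1) = min (η n) (min (η' (n+1)) (1/(n+2)))`.)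
For every `n`: `hg (η (n+1))` with `v = b`, error `1/(2(n+1)^2)` gives `E_n`, `C_n`. `c_n = 1/(2(n+1)^2 (C_n+1))`, `J_n c_n ≥ 2` (Archimedes). For `f ∈ F` with `η (n+1) ≤ N (f-b) ≤ η n`: `ctrl_pow`: `Pow S E_n J_n` controls `f - b` with the error `≤ 1/(n+1)^2`
and the constant `q ‖f-b‖/2 ≤ q R/2` (`Ctrl.mono`). `ctrl_restr` with `ρ_n = 1/(n+1)`: error `≤ 1/(n+1)^2 + 2(n+1)(1/(n+1)^2 + 1/(n+1)^2) ≤ 5/(n+1)`. `G_n y z := Pow S E_n J_n y z ∧ d y z ≤ 1/(n+1)` (symmetric, `small_sub`).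
`n₀` with `5/(n₀+1) ≤ κ`, `E y z := ∃ n, G_(n+n₀) y z` (`small_iUnion`), `η₀ = η n₀`. For `f ∈ F`, `0 < N (f-b) ≤ η n₀` there is `n ≥ n₀` with `η (n+1) ≤ N (f-b) ≤ η n` (`Nat.find`: the first `n` with `η (n+1) ≤ N (f-b)`). `N (f-b) = 0`: `f = b`, `L 0 h = 0` (`zero_l`).
-/

set_option autoImplicit false

open Set Filter Topology

namespace Pool.Agent.H84.TC

variable {X : Type} [NormedAddCommGroup X] [NormedSpace ℝ X] {K : Type}

private lemma Shell_seq {e : ℕ → ℝ} (he : ∀ n, 0 < e n) :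
    ∃ η : ℕ → ℝ, (∀ n, 0 < η n) ∧ (∀ n, η n ≤ e n) ∧ (∀ n, η n ≤ 1 / ((n : ℝ) + 1)) ∧
      ∀ n, η (n + 1) ≤ η n := by
  refine ⟨fun n => Nat.rec (min (e 0) 1) (fun n y => min y (min (e (n + 1)) (1 / ((n : ℝ) + 2)))) n,
    ?_, ?_, ?_, ?_⟩
  · intro n
    induction n with
    | zero => exact lt_min (he 0) one_pos
    | succ n ih => exact lt_min ih (lt_min (he (n + 1)) (by positivity))
  · intro n
    cases n with
    | zero => exact min_le_left _ _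
    | succ n => exact (min_le_right _ _).trans (min_le_left _ _)
  · intro n
    cases n with
    | zero => simp
    | succ n =>
      refine ((min_le_right _ _).trans (min_le_right _ _)).trans (le_of_eq ?_)
      push_cast
      ring
  · intro n
    exact min_le_left _ _

private lemma Shell_num (n : ℕ) {W : ℝ} (hW : W ≤ 1 / ((n : ℝ) + 1) ^ 2) :
    1 / ((n : ℝ) + 1) ^ 2 + 2 / (1 / ((n : ℝ) + 1)) * (W + 1 / ((n : ℝ) + 1) ^ 2) ≤
      5 / ((n : ℝ) + 1) := by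
  have hn : (0 : ℝ) < (n : ℝ) + 1 := by positivity
  have hn1 : (1 : ℝ) ≤ (n : ℝ) + 1 := by linarith [Nat.cast_nonneg (α := ℝ) n]
  have h1 : 1 / ((n : ℝ) + 1) ^ 2 ≤ 1 / ((n : ℝ) + 1) := by
    apply one_div_le_one_div_of_le hn
    nlinarith
  have h2 : 2 / (1 / ((n : ℝ) + 1)) = 2 * ((n : ℝ) + 1) := by
    rw [div_div_eq_mul_div, div_one]
  have h3 : 2 * ((n : ℝ) + 1) * (W + 1 / ((n : ℝ) + 1) ^ 2) ≤
      2 * ((n : ℝ) + 1) * (1 / ((n : ℝ) + 1) ^ 2 + 1 / ((n : ℝ) + 1) ^ 2) :=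
    mul_le_mul_of_nonneg_left (by linarith) (by positivity)
  have h4 : 2 * ((n : ℝ) + 1) * (1 / ((n : ℝ) + 1) ^ 2 + 1 / ((n : ℝ) + 1) ^ 2) =
      4 / ((n : ℝ) + 1) := by
    field_simp
    norm_num
  have h5 : 5 / ((n : ℝ) + 1) = 1 / ((n : ℝ) + 1) + 4 / ((n : ℝ) + 1) := by
    field_simp
    norm_num
  rw [h2, h5]
  linarith

theorem shell (S : Sys X K) {F : Set (StrongDual ℝ X)} {r : ℝ} (hF : ∀ f ∈ F, ‖f‖ ≤ r) (b : StrongDual ℝ X)
    (hg : ∀ η > 0, Good S {f | f ∈ F ∧ η ≤ S.N (f - b)}) {κ : ℝ} (hκ : 0 < κ) :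
    ∃ η₀ > 0, ∃ E, Small S E ∧ ∀ f ∈ F, S.N (f - b) ≤ η₀ →
      Ctrl S E κ (S.q * (r + ‖b‖) / 2) (f - b) := by
  have hR : ∀ f ∈ F, ‖f - b‖ ≤ r + ‖b‖ := fun f hf =>
    (norm_sub_le f b).trans (add_le_add (hF f hf) le_rfl)
  choose e he he2 using fun n : ℕ => S.W_small (r + ‖b‖) (1 / ((n : ℝ) + 1) ^ 2) (by positivity)
  obtain ⟨η, hη, hη1, hη2, hη3⟩ := Shell_seq he
  choose E hE C hC hEC using fun n : ℕ => hg (η (n + 1)) (hη (n + 1)) b
    (1 / (2 * ((n : ℝ) + 1) ^ 2)) (by positivity)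
  have hcpos : ∀ n : ℕ, 0 < 1 / (2 * ((n : ℝ) + 1) ^ 2 * (C n + 1)) := by
    intro n
    have := hC n
    positivity
  have hJex : ∀ n : ℕ, ∃ J : ℕ, 2 ≤ (J : ℝ) * (1 / (2 * ((n : ℝ) + 1) ^ 2 * (C n + 1))) := by
    intro n
    obtain ⟨J, hJ⟩ := exists_nat_ge (2 / (1 / (2 * ((n : ℝ) + 1) ^ 2 * (C n + 1))))
    exact ⟨J, (div_le_iff₀ (hcpos n)).1 hJ⟩
  choose J hJ using hJex
  -- the relations
  have hctrl : ∀ n : ℕ, ∀ f ∈ F, η (n + 1) ≤ S.N (f - b) → S.N (f - b) ≤ η n →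
      Ctrl S (fun y z => Pow S (E n) (J n) y z ∧ S.d y z ≤ 1 / ((n : ℝ) + 1)) (5 / ((n : ℝ) + 1))
        (S.q * (r + ‖b‖) / 2) (f - b) := by
    intro n f hf h1 h2
    have h3 := hEC n f ⟨hf, h1⟩
    have h4 := ctrl_pow (hE n).1 h3 (hC n) (hcpos n) (hJ n)
    have h5 : 1 / (2 * ((n : ℝ) + 1) ^ 2) + C n * (1 / (2 * ((n : ℝ) + 1) ^ 2 * (C n + 1))) ≤
        1 / ((n : ℝ) + 1) ^ 2 := by
      have hc := hC n
      have h6 : C n * (1 / (2 * ((n : ℝ) + 1) ^ 2 * (C n + 1))) ≤ 1 / (2 * ((n : ℝ) + 1) ^ 2) := by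
        rw [mul_one_div, div_le_div_iff₀ (by positivity) (by positivity)]
        have h7 : 0 ≤ 2 * ((n : ℝ) + 1) ^ 2 := by positivity
        nlinarith
      have h8 : 1 / ((n : ℝ) + 1) ^ 2 = 1 / (2 * ((n : ℝ) + 1) ^ 2) + 1 / (2 * ((n : ℝ) + 1) ^ 2) := by
        field_simp
        norm_num
      rw [h8]
      linarith
    have h9 : S.q * ‖f - b‖ / 2 ≤ S.q * (r + ‖b‖) / 2 := by
      have := mul_le_mul_of_nonneg_left (hR f hf) S.hq
      linarith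
    have h10 : Ctrl S (Pow S (E n) (J n)) (1 / ((n : ℝ) + 1) ^ 2) (S.q * (r + ‖b‖) / 2) (f - b) :=
      h4.mono (fun y z h => h) h5 h9
    have h11 := ctrl_restr (ρ := 1 / ((n : ℝ) + 1)) h10 (by positivity) (by positivity)
    exact h11.mono (fun y z h => h)
      (Shell_num n (he2 n (f - b) (hR f hf) (h2.trans (hη1 n)))) le_rfl
  obtain ⟨n₀, hn₀⟩ := exists_nat_ge (5 / κ)
  have hn₀' : 5 / ((n₀ : ℝ) + 1) ≤ κ := by
    rw [div_le_iff₀ (by positivity)]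
    rw [div_le_iff₀ hκ] at hn₀
    nlinarith
  refine ⟨η n₀, hη n₀, fun y z => ∃ n : ℕ, Pow S (E (n + n₀)) (J (n + n₀)) y z ∧
    S.d y z ≤ 1 / (((n + n₀ : ℕ) : ℝ) + 1), ?_, ?_⟩
  · refine small_iUnion (E := fun n y z => Pow S (E (n + n₀)) (J (n + n₀)) y z ∧
      S.d y z ≤ 1 / (((n + n₀ : ℕ) : ℝ) + 1)) (ρ := fun n => 1 / (((n + n₀ : ℕ) : ℝ) + 1)) ?_ ?_ ?_
    · intro n
      have h1 := small_pow (hE (n + n₀)) (J (n + n₀))
      refine small_sub h1 ?_ (fun y z h => h.1)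
      rintro y z ⟨h2, h3⟩
      exact ⟨h1.1 y z h2, by rw [S.d_comm]; exact h3⟩
    · exact (tendsto_one_div_add_atTop_nhds_zero_nat (𝕜 := ℝ)).comp (tendsto_add_atTop_nat n₀)
    · intro n y z h
      exact h.2
  · intro f hf hN
    have hCpos : 0 ≤ S.q * (r + ‖b‖) / 2 := by
      have h1 : 0 ≤ r + ‖b‖ := (norm_nonneg _).trans (hR f hf)
      have := mul_nonneg S.hq h1
      linarith
    rcases (S.N_nonneg (f - b)).eq_or_lt with h0 | h0
    · have h1 : f - b = 0 := (S.N_eq _).1 h0.symm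
      intro g hg' δ w hδ hw _
      rw [h1, S.zero_l ⟨1, hg'⟩, abs_zero]
      have h2 := S.W_nonneg (0 : StrongDual ℝ X)
      have h3 : 0 ≤ w * (S.W 0 + κ) := mul_nonneg hw (by linarith)
      have h4 := mul_nonneg hCpos hδ
      linarith
    · have hex : ∃ n : ℕ, η (n + n₀ + 1) ≤ S.N (f - b) := by
        obtain ⟨n, hn⟩ := exists_nat_ge (1 / S.N (f - b))
        refine ⟨n, (hη2 _).trans ?_⟩
        rw [div_le_iff₀ h0] at hn
        rw [div_le_iff₀ (by positivity)]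
        push_cast
        have h5 : (0 : ℝ) ≤ n₀ := Nat.cast_nonneg _
        nlinarith
      classical
      obtain ⟨n, hn1, hn2⟩ : ∃ n : ℕ, η (n + n₀ + 1) ≤ S.N (f - b) ∧ S.N (f - b) ≤ η (n + n₀) := by
        refine ⟨Nat.find hex, Nat.find_spec hex, ?_⟩
        rcases Nat.eq_zero_or_pos (Nat.find hex) with h1 | h1
        · rw [h1, zero_add]
          exact hN
        · have h2 := Nat.find_min hex (m := Nat.find hex - 1) (by omega)
          have h3 : Nat.find hex - 1 + n₀ + 1 = Nat.find hex + n₀ := by omega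
          rw [h3] at h2
          exact (not_le.1 h2).le
      refine (hctrl (n + n₀) f hf hn1 hn2).mono (fun y z h => ⟨n, h⟩) ?_ le_rfl
      refine le_trans ?_ hn₀'
      apply div_le_div_of_nonneg_left (by norm_num) (by positivity)
      push_cast
      linarith [Nat.cast_nonneg (α := ℝ) n]

end Pool.Agent.H84.TC
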