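import Mathlib

/-!
# Module SumA: `c₀`-sums of maps into `C(L n)` (110 lines)

PROOF. `L = OnePoint (Σ n, L n)` (`Σ n, L n` with the sum topology is locally compact Hausdorff, countable; `OnePoint` is compact, Hausdorff, countable). For `x`: the function `F x : L → ℝ`, `F x ∞ = 0`, `F x ⟨n, l⟩ = R n x l`. Continuous: on `Σ n, L n` it is continuous on each `L n` (open); at `∞` (`OnePoint.continuousAt_infty'`-type,
or `OnePoint.continuous_iff` / `ZeroAtInftyContinuousMap`): for `ε > 0` the set `{⟨n, l⟩ : |R n x l| ≥ ε}` is contained in the compact set of the finitely many `L n` with `‖R n x‖ ≥ ε`. `F` is linear, `‖F x‖ ≤ C ‖x‖`; `|R n x l| ≤ ‖F x‖` gives `‖R n x‖ ≤ ‖F x‖`.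
-/

set_option autoImplicit false

open Set Filter Topology

namespace Pool.Agent.H84.TC

variable {X : Type} [NormedAddCommGroup X] [NormedSpace ℝ X]

theorem sum_emb {L : ℕ → Type} [∀ n, TopologicalSpace (L n)] [∀ n, CompactSpace (L n)] [∀ n, T2Space (L n)]
    [∀ n, Countable (L n)] (R : ∀ n, X →L[ℝ] C(L n, ℝ)) {C : ℝ} (hR : ∀ n x, ‖R n x‖ ≤ C * ‖x‖)
    (h0 : ∀ x, Tendsto (fun n => ‖R n x‖) atTop (𝓝 0)) :
    ∃ (M : Type) (_ : TopologicalSpace M) (_ : CompactSpace M) (_ : T2Space M) (_ : Countable M)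
      (T : X →L[ℝ] C(M, ℝ)), ∀ x n, ‖R n x‖ ≤ ‖T x‖ := by
  classical
  have hlc : WeaklyLocallyCompactSpace (Σ n, L n) := ⟨by
    rintro ⟨n, l⟩
    exact ⟨Set.range (Sigma.mk n), isCompact_range continuous_sigmaMk,
      isOpen_range_sigmaMk.mem_nhds ⟨l, rfl⟩⟩⟩
  have hcont : ∀ x, Continuous (fun s : Σ n, L n => R s.1 x s.2) := fun x =>
    continuous_sigma fun n => (R n x).continuous
  have htend : ∀ x, Tendsto (fun s : Σ n, L n => R s.1 x s.2) (coclosedCompact (Σ n, L n))
      (𝓝 0) := by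
    intro x
    rw [Metric.tendsto_nhds]
    intro ε hε
    obtain ⟨N, hN⟩ := eventually_atTop.1 (Metric.tendsto_nhds.1 (h0 x) ε hε)
    rw [hasBasis_coclosedCompact.eventually_iff]
    have hcp : IsCompact (Set.sigma (Set.Iio N) (fun n => (Set.univ : Set (L n)))) :=
      Set.isCompact_sigma (Set.finite_Iio N) fun n _ => isCompact_univ
    refine ⟨_, ⟨hcp.isClosed, hcp⟩, ?_⟩
    rintro ⟨n, l⟩ hnl
    have hn : N ≤ n := by
      by_contra hcon
      exact hnl ⟨not_le.1 hcon, Set.mem_univ _⟩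
    have h1 := hN n hn
    rw [dist_zero_right] at h1 ⊢
    rw [norm_norm] at h1
    exact lt_of_le_of_lt ((R n x).norm_coe_le_norm l) h1
  let F : X → C(OnePoint (Σ n, L n), ℝ) := fun x =>
    OnePoint.continuousMapMk ⟨_, hcont x⟩ 0 (htend x)
  have hF0 : ∀ x, F x OnePoint.infty = 0 := fun x => rfl
  have hF1 : ∀ x n l, F x ((⟨n, l⟩ : Σ n, L n) : OnePoint (Σ n, L n)) = R n x l :=
    fun x n l => rfl
  let T0 : X →ₗ[ℝ] C(OnePoint (Σ n, L n), ℝ) :=
    { toFun := F
      map_add' := fun x y => by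
        ext s
        induction s using OnePoint.rec with
        | infty => rw [ContinuousMap.add_apply, hF0, hF0, hF0, add_zero]
        | coe s =>
          obtain ⟨n, l⟩ := s
          rw [ContinuousMap.add_apply, hF1, hF1, hF1, map_add, ContinuousMap.add_apply]
      map_smul' := fun c x => by
        ext s
        induction s using OnePoint.rec with
        | infty => rw [ContinuousMap.smul_apply, hF0, hF0, smul_zero]
        | coe s =>
          obtain ⟨n, l⟩ := s
          rw [ContinuousMap.smul_apply, hF1, hF1, map_smul, ContinuousMap.smul_apply]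
          rfl }
  have hT0 : ∀ x, T0 x = F x := fun x => rfl
  have hb : ∀ x, ‖T0 x‖ ≤ C * ‖x‖ := by
    intro x
    rw [hT0]
    have hC : 0 ≤ C * ‖x‖ := (norm_nonneg _).trans (hR 0 x)
    rw [ContinuousMap.norm_le _ hC]
    intro s
    induction s using OnePoint.rec with
    | infty => rw [hF0, norm_zero]; exact hC
    | coe s =>
      obtain ⟨n, l⟩ := s
      rw [hF1]
      exact ((R n x).norm_coe_le_norm l).trans (hR n x)
  refine ⟨OnePoint (Σ n, L n), inferInstance, inferInstance, inferInstance,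
    inferInstanceAs (Countable (Option (Σ n, L n))), T0.mkContinuous C hb, ?_⟩
  intro x n
  rw [LinearMap.mkContinuous_apply, hT0, ContinuousMap.norm_le _ (norm_nonneg _)]
  intro l
  rw [← hF1]
  exact (F x).norm_coe_le_norm _

end Pool.Agent.H84.TC
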