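import Pool.Agent.H84.TC.Main
import Pool.Agent.H84.TC.SumA

/-!
# Module SumC: `c₀`-sums (90 lines)

`Q n : X → X` are the coordinate projections of a `c₀`-sum: `Q n (Q n x) = Q n x`, `‖Q n x‖ ≤ ‖x‖`, `‖x‖ ≤ b` if all `‖Q n x‖ ≤ b`, `‖Q n x‖ → 0`. PROOF. `Y n = LinearMap.range (Q n)` (a submodule of `X`, a type in `Type`); `J_n = J ∘ incl`, `P_n = (Q n, range restricted) ∘ P : C(K₀) → Y n` (`ContinuousLinearMap.codRestrict`),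
`P_n (J_n y) = Q n y = y`; `‖J_n‖ ≤ ‖J‖`, `‖P_n‖ ≤ ‖P‖`. `thmC` for `Y n` with `T n` restricted to `Y n`, `ε = 1`: `L n`, `S n : Y n → C(L n)` with `‖S n y‖ ≤ ‖y‖ ≤ (‖J‖‖P‖ + 1) ‖S n y‖`. `R n x = S n (Q n x)`: `‖R n x‖ ≤ ‖x‖`, `‖R n x‖ ≤ ‖Q n x‖ → 0`. `sum_emb`: `T`;
`‖Q n x‖ ≤ (λ+1) ‖R n x‖ ≤ (λ+1) ‖T x‖` for all `n`, so `‖x‖ ≤ (λ+1) ‖T x‖`; `c = 1/(λ+1)`.
-/

set_option autoImplicit false

open Set Filter Topology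

namespace Pool.Agent.H84.TC

variable {X : Type} [NormedAddCommGroup X] [NormedSpace ℝ X]

private theorem SumC_one {K₀ : Type} [TopologicalSpace K₀] [CompactSpace K₀]
    [TopologicalSpace.MetrizableSpace K₀]
    (J : X →L[ℝ] C(K₀, ℝ)) (P : C(K₀, ℝ) →L[ℝ] X) (hP : ∀ x, P (J x) = x)
    (Q : X →L[ℝ] X) (hQ : ∀ x, Q (Q x) = Q x) (hQ1 : ∀ x, ‖Q x‖ ≤ ‖x‖)
    {L₀ : Type} [TopologicalSpace L₀] [CompactSpace L₀] [T2Space L₀]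
    [Countable L₀] (T : X →L[ℝ] C(L₀, ℝ)) (D : ℝ) (hT : ∀ x, ‖Q x‖ ≤ D * ‖T (Q x)‖) :
    ∃ (L : Type) (_ : TopologicalSpace L) (_ : CompactSpace L) (_ : T2Space L) (_ : Countable L)
      (R : X →L[ℝ] C(L, ℝ)), ∀ x, ‖R x‖ ≤ ‖Q x‖ ∧ ‖Q x‖ ≤ (‖J‖ * ‖P‖ + 1) * ‖R x‖ := by
  have hfix : ∀ y : LinearMap.range (Q : X →ₗ[ℝ] X), Q (y : X) = (y : X) := by
    rintro ⟨y, z, rfl⟩
    exact hQ z
  have hPn : ‖(Q.comp P).codRestrict (LinearMap.range (Q : X →ₗ[ℝ] X)) (fun f => ⟨P f, rfl⟩)‖ ≤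
      ‖P‖ := by
    refine ContinuousLinearMap.opNorm_le_bound _ P.opNorm_nonneg fun f => ?_
    exact (hQ1 (P f)).trans (P.le_opNorm f)
  have hJn : ‖J.comp (LinearMap.range (Q : X →ₗ[ℝ] X)).subtypeL‖ ≤ ‖J‖ := by
    refine ContinuousLinearMap.opNorm_le_bound _ J.opNorm_nonneg fun y => ?_
    exact J.le_opNorm (y : X)
  obtain ⟨L, i1, i2, i3, i4, S, hS⟩ := thmC (X := LinearMap.range (Q : X →ₗ[ℝ] X))
    (J.comp (LinearMap.range (Q : X →ₗ[ℝ] X)).subtypeL)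
    ((Q.comp P).codRestrict (LinearMap.range (Q : X →ₗ[ℝ] X)) (fun f => ⟨P f, rfl⟩))
    (fun y => Subtype.ext (by
      change Q (P (J (y : X))) = (y : X)
      rw [hP, hfix]))
    (T.comp (LinearMap.range (Q : X →ₗ[ℝ] X)).subtypeL) (D := D)
    (fun y => by
      have h1 := hT (y : X)
      rw [hfix] at h1
      exact h1) one_pos
  refine ⟨L, i1, i2, i3, i4,
    S.comp (Q.codRestrict (LinearMap.range (Q : X →ₗ[ℝ] X)) (fun x => ⟨x, rfl⟩)), fun x => ?_⟩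
  have h1 := hS (Q.codRestrict (LinearMap.range (Q : X →ₗ[ℝ] X)) (fun x => ⟨x, rfl⟩) x)
  have h2 : ‖Q.codRestrict (LinearMap.range (Q : X →ₗ[ℝ] X)) (fun x => ⟨x, rfl⟩) x‖ = ‖Q x‖ := rfl
  rw [h2] at h1
  refine ⟨h1.1, h1.2.trans ?_⟩
  refine mul_le_mul_of_nonneg_right ?_ (norm_nonneg _)
  have h3 := mul_le_mul hJn hPn (ContinuousLinearMap.opNorm_nonneg _) J.opNorm_nonneg
  linarith

theorem sumC {K₀ : Type} [TopologicalSpace K₀] [CompactSpace K₀] [TopologicalSpace.MetrizableSpace K₀]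
    (J : X →L[ℝ] C(K₀, ℝ)) (P : C(K₀, ℝ) →L[ℝ] X) (hP : ∀ x, P (J x) = x)
    (Q : ℕ → X →L[ℝ] X) (hQ : ∀ n x, Q n (Q n x) = Q n x) (hQ1 : ∀ n x, ‖Q n x‖ ≤ ‖x‖)
    (hQ2 : ∀ x b, (∀ n, ‖Q n x‖ ≤ b) → ‖x‖ ≤ b) (hQ3 : ∀ x, Tendsto (fun n => ‖Q n x‖) atTop (𝓝 0))
    {L₀ : ℕ → Type} [∀ n, TopologicalSpace (L₀ n)] [∀ n, CompactSpace (L₀ n)] [∀ n, T2Space (L₀ n)]
    [∀ n, Countable (L₀ n)] (T : ∀ n, X →L[ℝ] C(L₀ n, ℝ)) (D : ℕ → ℝ)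
    (hT : ∀ n x, ‖Q n x‖ ≤ D n * ‖T n (Q n x)‖) :
    ∃ (L : Type) (_ : TopologicalSpace L) (_ : CompactSpace L) (_ : T2Space L) (_ : Countable L)
      (S : X →L[ℝ] C(L, ℝ)) (c : ℝ), 0 < c ∧ ∀ x, c * ‖x‖ ≤ ‖S x‖ := by
  have hone := fun n => SumC_one J P hP (Q n) (hQ n) (hQ1 n) (T n) (D n) (hT n)
  choose L i1 i2 i3 i4 R hR using hone
  obtain ⟨M, j1, j2, j3, j4, S, hS⟩ := sum_emb (X := X) (L := L) R (C := 1)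
    (fun n x => by
      rw [one_mul]
      exact ((hR n x).1).trans (hQ1 n x))
    (fun x => squeeze_zero (fun n => norm_nonneg _) (fun n => (hR n x).1) (hQ3 x))
  have hlam : 0 < ‖J‖ * ‖P‖ + 1 := by
    have := mul_nonneg J.opNorm_nonneg P.opNorm_nonneg
    linarith
  refine ⟨M, j1, j2, j3, j4, S, (‖J‖ * ‖P‖ + 1)⁻¹, inv_pos.2 hlam, fun x => ?_⟩
  rw [inv_mul_le_iff₀ hlam]
  refine hQ2 x _ fun n => ?_
  exact (hR n x).2.trans (mul_le_mul_of_nonneg_left (hS x n) hlam.le)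

end Pool.Agent.H84.TC
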