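import Pool.Agent.H84.TC.Defs

/-!
# Module Sup: the sup-convolution over paths (70 lines)

PROOF. `H y = sSup {r | ∃ k z s, Path S E k y z s ∧ r = h z - k c - w s}` (nonempty: `k = 0`, `z = y`, `s = 0`; bounded above by `1` since `h ≤ 1`, `c, w, s ≥ 0`: `Path.cost`, `d_nonneg`). `h y ≤ H y` (`k = 0`), so `-1 ≤ H y ≤ 1`.
`H y ≤ h y + M`: let `Path S E k y z s`. If `k ≤ J` then `Pow S E J y z`, so `h z - k c - w s ≤ h y + M + w d y z - w s ≤ h y + M` (`Path.cost`). If `k > J` then `k c ≥ J c ≥ 2`, so `h z - k c - w s ≤ 1 - 2 = -1 ≤ h y ≤ h y + M`.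
`E y z → H z - (c + w d y z) ≤ H y`: every path from `z` (length `k`, cost `s`) is extended by `Path.cons` to a path from `y` (length `k+1`, cost `d y z + s`) with value smaller by `c + w d y z`. By the symmetry of `E` and `d_comm`
also with `y`, `z` exchanged.
-/

set_option autoImplicit false

open Set Filter Topology

namespace Pool.Agent.H84.TC

variable {X : Type} [NormedAddCommGroup X] [NormedSpace ℝ X] {K : Type}

/-- the values of the paths from a point -/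
private def Sup_V (S : Sys X K) (E : K → K → Prop) (h : K → ℝ) (c w : ℝ) (y : K) : Set ℝ :=
  {r : ℝ | ∃ (k : ℕ) (z : K) (s : ℝ), Path S E k y z s ∧ r = h z - k * c - w * s}

private theorem Sup_nn {S : Sys X K} {E : K → K → Prop} {k : ℕ} {y z : K} {s : ℝ}
    (h : Path S E k y z s) : 0 ≤ s :=
  (S.d_nonneg y z).trans h.cost

private theorem Sup_bd (S : Sys X K) (E : K → K → Prop) {h : K → ℝ}
    (hh : ∀ y, |h y| ≤ 1) {c w : ℝ} (hc : 0 < c) (hw : 0 ≤ w) (y : K) :
    ∀ r ∈ Sup_V S E h c w y, r ≤ 1 := by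
  rintro r ⟨k, z, s, hp, rfl⟩
  have h1 := (abs_le.1 (hh z)).2
  have h2 : (0 : ℝ) ≤ k * c := by positivity
  have h3 : 0 ≤ w * s := mul_nonneg hw (Sup_nn hp)
  linarith

private theorem Sup_mem (S : Sys X K) (E : K → K → Prop) (h : K → ℝ) (c w : ℝ) (y : K) :
    h y ∈ Sup_V S E h c w y :=
  ⟨0, y, 0, Path.nil y, by simp⟩

theorem sup_conv (S : Sys X K) {E : K → K → Prop} (hE : ∀ y z, E y z → E z y) {h : K → ℝ}
    (hh : ∀ y, |h y| ≤ 1) {c w M : ℝ} (hc : 0 < c) (hw : 0 ≤ w) (hM : 0 ≤ M) {J : ℕ} (hJ : 2 ≤ J * c)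
    (hp : ∀ y z, Pow S E J y z → h z ≤ h y + M + w * S.d y z) :
    ∃ H : K → ℝ, (∀ y, |H y| ≤ 1) ∧ (∀ y, h y ≤ H y) ∧ (∀ y, H y ≤ h y + M) ∧
      ∀ y z, E y z → |H y - H z| ≤ c + w * S.d y z := by
  have hbd := Sup_bd S E hh hc hw
  have hba : ∀ y, BddAbove (Sup_V S E h c w y) := fun y => ⟨1, fun r hr => hbd y r hr⟩
  have hne : ∀ y, (Sup_V S E h c w y).Nonempty := fun y => ⟨_, Sup_mem S E h c w y⟩
  have hle : ∀ y, h y ≤ sSup (Sup_V S E h c w y) := fun y =>
    le_csSup (hba y) (Sup_mem S E h c w y)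
  have hone : ∀ y z, E y z → sSup (Sup_V S E h c w z) - (c + w * S.d y z) ≤
      sSup (Sup_V S E h c w y) := by
    intro y z hyz
    rw [sub_le_iff_le_add]
    refine csSup_le (hne z) ?_
    rintro r ⟨k, x, s, hpa, rfl⟩
    have h1 : h x - ((k + 1 : ℕ) : ℝ) * c - w * (S.d y z + s) ∈ Sup_V S E h c w y :=
      ⟨k + 1, x, S.d y z + s, Path.cons hyz hpa, rfl⟩
    have h2 := le_csSup (hba y) h1
    push_cast at h2
    linarith
  refine ⟨fun y => sSup (Sup_V S E h c w y), fun y => ?_, hle, fun y => ?_, fun y z hyz => ?_⟩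
  · refine abs_le.2 ⟨((abs_le.1 (hh y)).1).trans (hle y), csSup_le (hne y) (hbd y)⟩
  · refine csSup_le (hne y) ?_
    rintro r ⟨k, z, s, hpa, rfl⟩
    have h3 : 0 ≤ w * s := mul_nonneg hw (Sup_nn hpa)
    rcases le_or_gt k J with hk | hk
    · have h1 := hp y z ⟨k, hk, s, hpa⟩
      have h2 : (0 : ℝ) ≤ k * c := by positivity
      have h4 : w * S.d y z ≤ w * s := mul_le_mul_of_nonneg_left hpa.cost hw
      linarith
    · have h1 := (abs_le.1 (hh z)).2
      have h2 := (abs_le.1 (hh y)).1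
      have h4 : (J : ℝ) * c ≤ k * c :=
        mul_le_mul_of_nonneg_right (by exact_mod_cast hk.le) hc.le
      linarith
  · have h1 := hone y z hyz
    have h2 := hone z y (hE y z hyz)
    rw [S.d_comm z y] at h2
    exact abs_le.2 ⟨by linarith, by linarith⟩

end Pool.Agent.H84.TC
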